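import Pool.Agent.Helper140.OneBend.PlanarRef

namespace Pool.OneBend


/-! AUXILIARY statements proved by another job; leave their sorry. -/

/-! AUXILIARY statements proved by another job; leave their sorry. -/

/-! TARGETS: the two reference drawings induce the same embedding of the shared graph. -/

theorem shared_adj_iff (u v : Vx) : (Gr A1 ⊓ Gr A2).Adj u v ↔
    (u = Vx.hub ∧ ∃ k b, v = Vx.leaf k b) ∨ (v = Vx.hub ∧ ∃ k b, u = Vx.leaf k b) := by
  rw [SimpleGraph.inf_adj, Gr_adj_iff, Gr_adj_iff]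
  constructor
  · rintro ⟨h1, h2⟩
    rcases h1 with h1 | h1 | ⟨k, b, hk, rfl, rfl⟩
    · exact Or.inl h1
    · exact Or.inr h1
    · rcases h2 with ⟨h2, _⟩ | ⟨h2, _⟩ | ⟨k', b', hk', h3, h4⟩
      · cases h2
      · cases h2
      · injection h3 with h5 h6
        subst h5
        exfalso
        unfold A1 at hk
        unfold A2 at hk'
        cases k <;> simp_all
  · rintro (h | h)
    · exact ⟨Or.inl h, Or.inl h⟩
    · exact ⟨Or.inr (Or.inl h), Or.inr (Or.inl h)⟩

theorem cr_self' (a : Pl) : cr a a = 0 := by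
  unfold cr; ring

theorem shared_rotation : SameRotation (Gr A1 ⊓ Gr A2) (Dr c1) (Dr c2) := by
  intro u a b c ha hb hc
  rw [shared_adj_iff] at ha hb hc
  rcases ha with ⟨rfl, ka, ba, rfl⟩ | ⟨rfl, ka, ba, rfl⟩
  · rcases hb with ⟨_, kb, bb, rfl⟩ | ⟨_, kb, bb, h⟩
    · rcases hc with ⟨_, kc, bc, rfl⟩ | ⟨_, kc, bc, h⟩
      · simp only [Dr_dir_leg]
        exact Iff.rfl
      · cases h
    · cases h
  · rcases hb with ⟨h, kb, bb, rfl⟩ | ⟨rfl, kb, bb, h⟩
    · cases h
    · rcases hc with ⟨h, kc, bc, rfl⟩ | ⟨rfl, kc, bc, h⟩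
      · cases h
      · unfold Cyc
        simp [cr_self']

/-- The shear function. -/
noncomputable def gsh (t : ℝ) : ℝ :=
  ∑ i : Fin 4 × Fin 5, ∑ j : Fin 4 × Fin 21,
    (((key (Sum.inr j) : ℝ) - (key (Sum.inl i) : ℝ)) * (hgt i j : ℝ)) *
      max 0 (1 - |t - (hgt i j : ℝ)|)

theorem gsh_cont : Continuous gsh := by
  unfold gsh
  refine continuous_finset_sum _ fun i _ => continuous_finset_sum _ fun j _ => ?_
  exact continuous_const.mul (continuous_const.max
    (continuous_const.sub ((continuous_id.sub continuous_const).abs)))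

theorem gsh_low (t : ℝ) (ht : t ≤ 4) : gsh t = 0 := by
  unfold gsh
  refine Finset.sum_eq_zero fun i _ => Finset.sum_eq_zero fun j _ => ?_
  have h5 : (5 : ℝ) ≤ (hgt i j : ℝ) := by exact_mod_cast (hgt_bounds i j).1
  have h1 : 1 - |t - (hgt i j : ℝ)| ≤ 0 := by
    have := neg_abs_le (t - (hgt i j : ℝ))
    linarith
  rw [max_eq_left h1, mul_zero]

theorem gsh_hgt (i : Fin 4 × Fin 5) (j : Fin 4 × Fin 21) :
    gsh (hgt i j : ℝ) = ((key (Sum.inr j) : ℝ) - (key (Sum.inl i) : ℝ)) * (hgt i j : ℝ) := by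
  unfold gsh
  have hzero : ∀ i' j', ¬ (i' = i ∧ j' = j) →
      max 0 (1 - |(hgt i j : ℝ) - (hgt i' j' : ℝ)|) = 0 := by
    intro i' j' hne
    have hn : hgt i j ≠ hgt i' j' := by
      intro h
      have := hgt_inj i i' j j' h
      exact hne ⟨this.1.symm, this.2.symm⟩
    have h1 : (1 : ℝ) ≤ |(hgt i j : ℝ) - (hgt i' j' : ℝ)| := by
      have h2 : (1 : ℤ) ≤ |(hgt i j : ℤ) - (hgt i' j' : ℤ)| := by
        apply Int.one_le_abs
        intro h
        apply hn
        omega
      exact_mod_cast h2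
    exact max_eq_left (by linarith)
  rw [Finset.sum_eq_single i]
  · rw [Finset.sum_eq_single j]
    · simp
    · intro j' _ hj
      rw [hzero i j' (fun h => hj h.2), mul_zero]
    · intro h; exact absurd (Finset.mem_univ _) h
  · intro i' _ hi
    refine Finset.sum_eq_zero fun j' _ => ?_
    rw [hzero i' j' (fun h => hi h.1), mul_zero]
  · intro h; exact absurd (Finset.mem_univ _) h

/-- The shear homeomorphism. -/
noncomputable def shear : Pl ≃ₜ Pl where
  toFun p := (p.1 + gsh p.2, p.2)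
  invFun p := (p.1 - gsh p.2, p.2)
  left_inv p := by ext <;> simp
  right_inv p := by ext <;> simp
  continuous_toFun := (continuous_fst.add (gsh_cont.comp continuous_snd)).prodMk continuous_snd
  continuous_invFun := (continuous_fst.sub (gsh_cont.comp continuous_snd)).prodMk continuous_snd

theorem shear_apply (p : Pl) : shear p = (p.1 + gsh p.2, p.2) := rfl

theorem shear_low (p : Pl) (hp : p.2 ≤ 4) : shear p = p := by
  rw [shear_apply, gsh_low _ hp, add_zero]

theorem shear_leg (k : Kt) (b : Bool) :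
    shear '' segment ℝ ((0, 0) : Pl) (refPos c1 (Vx.leaf k b)) =
      segment ℝ ((0, 0) : Pl) (refPos c2 (Vx.leaf k b)) := by
  have h12 : refPos c1 (Vx.leaf k b) = refPos c2 (Vx.leaf k b) := rfl
  rw [h12]
  have hlow : ∀ p ∈ segment ℝ ((0, 0) : Pl) (refPos c2 (Vx.leaf k b)), shear p = p := by
    intro p hp
    apply shear_low
    obtain ⟨s, t, hs, ht, hst, rfl⟩ := hp
    simp only [refPos, Prod.snd_add, Prod.smul_snd, smul_eq_mul, mul_zero, zero_add]
    nlinarith
  ext p
  constructor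
  · rintro ⟨q, hq, rfl⟩
    rw [hlow q hq]; exact hq
  · intro hp
    exact ⟨p, hp, hlow p hp⟩

theorem shared_plane : PlaneEquiv (Gr A1 ⊓ Gr A2) (Dr c1) (Dr c2) := by
  refine ⟨shear, ?_, ?_⟩
  · intro v
    change shear (refPos c1 v) = refPos c2 v
    cases v with
    | hub => exact shear_low _ (by simp [refPos])
    | leaf k b => exact shear_low _ (by simp [refPos])
    | y i j =>
      rw [shear_apply]
      simp only [refPos, c1, c2]
      rw [gsh_hgt]
      ext
      · simp only; ring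
      · rfl
  · intro u v huv
    rw [shared_adj_iff] at huv
    rcases huv with ⟨rfl, k, b, rfl⟩ | ⟨rfl, k, b, rfl⟩
    · rw [Dr_curve_leg, Dr_curve_leg]
      exact shear_leg k b
    · rw [curve_symm (Dr c1), curve_symm (Dr c2), Dr_curve_leg, Dr_curve_leg]
      exact shear_leg k b


end Pool.OneBend
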