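import Pool.Agent.Helper140.OneBend.Defs

namespace Pool.OneBend


/-- The region `F` (open subset of the sphere) has a boundary containing the segment `[p,q]`; near
an interior point `c` of `[p,q]` away from the rest `R` of the boundary, a segment crossing
transversally meets `F`. -/
theorem half_disc (F : Set (OnePoint Pl)) (hF : IsOpen F) (p q : Pl) (R : Set Pl)
    (hR : IsClosed R)
    (frF : frontier F = (fun x : Pl => (x : OnePoint Pl)) '' (segment ℝ p q ∪ R)) (c : Pl)
    (hc : c ∈ openSegment ℝ p q) (hcR : c ∉ R) (r s : Pl) (hc' : c ∈ openSegment ℝ r s)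
    (hcr : cr (q - p) (s - r) ≠ 0) : ∃ x ∈ segment ℝ r s, (x : OnePoint Pl) ∈ F := by
  classical
  obtain ⟨a, b, ha, hb, hab, hcab⟩ := hc
  obtain ⟨a', b', ha', hb', hab', hcab'⟩ := hc'
  have hpq : q - p ≠ 0 := by
    intro h; apply hcr; simp [h, cr]
  obtain ⟨ε1, hε1, hB1⟩ := Metric.isOpen_iff.mp hR.isOpen_compl c hcR
  have hN : 0 < ‖q - p‖ := norm_pos_iff.mpr hpq
  let ε : ℝ := min ε1 (min a b * ‖q - p‖)
  have hε : 0 < ε := lt_min hε1 (mul_pos (lt_min ha hb) hN)
  have hline : ∀ x ∈ Metric.ball c ε, cr (q - p) (x - c) = 0 → x ∈ segment ℝ p q := by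
    intro x hx h0
    have hx' : ‖x - c‖ < ε := by simpa [dist_eq_norm] using hx
    have hsq : 0 < (q - p).1 ^ 2 + (q - p).2 ^ 2 := by
      by_contra hcon
      push Not at hcon
      have h1 : (q - p).1 = 0 := by nlinarith [sq_nonneg (q - p).1, sq_nonneg (q - p).2]
      have h2 : (q - p).2 = 0 := by nlinarith [sq_nonneg (q - p).1, sq_nonneg (q - p).2]
      exact hpq (Prod.ext h1 h2)
    obtain ⟨t, ht⟩ : ∃ t : ℝ, x - c = t • (q - p) := by
      refine ⟨((q - p).1 * (x - c).1 + (q - p).2 * (x - c).2) / ((q - p).1 ^ 2 + (q - p).2 ^ 2), ?_⟩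
      unfold cr at h0
      generalize (q - p) = u at *
      generalize (x - c) = w at *
      ext
      · simp only [Prod.smul_fst, smul_eq_mul]
        field_simp
        linear_combination (-u.2) * h0
      · simp only [Prod.smul_snd, smul_eq_mul]
        field_simp
        linear_combination (u.1) * h0
    have htN : |t| * ‖q - p‖ < min a b * ‖q - p‖ := by
      have : ‖x - c‖ = |t| * ‖q - p‖ := by rw [ht, norm_smul, Real.norm_eq_abs]
      rw [← this]
      exact lt_of_lt_of_le hx' (min_le_right _ _)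
    have htab : |t| < min a b := lt_of_mul_lt_mul_right htN hN.le
    have hta : |t| < a := lt_of_lt_of_le htab (min_le_left _ _)
    have htb : |t| < b := lt_of_lt_of_le htab (min_le_right _ _)
    refine ⟨a - t, b + t, by linarith [le_abs_self t], by linarith [neg_abs_le t], by linarith, ?_⟩
    have : x = c + t • (q - p) := by rw [← ht]; abel
    rw [this, ← hcab, sub_smul, add_smul, smul_sub]
    abel
  have hon : ∀ x, x ∈ segment ℝ p q → cr (q - p) (x - c) = 0 := by
    rintro x ⟨α, β, hα, hβ, hαβ, rfl⟩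
    have e1 : α = 1 - β := by linarith
    have e2 : a = 1 - b := by linarith
    rw [← hcab, e1, e2]
    simp only [cr, Prod.fst_sub, Prod.snd_sub, Prod.fst_add, Prod.snd_add, Prod.smul_fst,
      Prod.smul_snd, smul_eq_mul]
    ring
  have hcseg : c ∈ segment ℝ p q := ⟨a, b, ha.le, hb.le, hab, hcab⟩
  have hcfr : (c : OnePoint Pl) ∈ frontier F := by
    rw [frF]; exact ⟨c, Or.inl hcseg, rfl⟩
  have hccl : (c : OnePoint Pl) ∈ closure F := frontier_subset_closure hcfr
  have hUo : IsOpen ((fun x : Pl => (x : OnePoint Pl)) '' Metric.ball c ε) :=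
    OnePoint.isOpenEmbedding_coe.isOpenMap _ Metric.isOpen_ball
  obtain ⟨y, hyU, hyF⟩ := mem_closure_iff.mp hccl _ hUo ⟨c, Metric.mem_ball_self hε, rfl⟩
  obtain ⟨x0, hx0, rfl⟩ := hyU
  have hdisj : ∀ z : OnePoint Pl, z ∈ F → z ∉ frontier F := by
    intro z hz hfr
    rw [hF.frontier_eq] at hfr
    exact hfr.2 hz
  have hk0 : cr (q - p) (x0 - c) ≠ 0 := by
    intro h
    apply hdisj _ hyF
    rw [frF]
    exact ⟨x0, Or.inl (hline x0 hx0 h), rfl⟩
  set k0 := cr (q - p) (x0 - c) with hk0def
  let H : Set Pl := {x | x ∈ Metric.ball c ε ∧ 0 < k0 * cr (q - p) (x - c)}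
  have hHconv : Convex ℝ H := by
    intro x hx y hy α β hα hβ hαβ
    refine ⟨convex_ball c ε hx.1 hy.1 hα hβ hαβ, ?_⟩
    have e : k0 * cr (q - p) (α • x + β • y - c) =
        α * (k0 * cr (q - p) (x - c)) + β * (k0 * cr (q - p) (y - c)) := by
      have e1 : β = 1 - α := by linarith
      rw [e1]
      simp only [cr, Prod.fst_sub, Prod.snd_sub, Prod.fst_add, Prod.snd_add, Prod.smul_fst,
        Prod.smul_snd, smul_eq_mul]
      ring
    rw [e]
    rcases hα.eq_or_lt with h | h
    · have : β = 1 := by linarith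
      rw [← h, this]; simpa using hy.2
    · have h1 := mul_pos h hx.2
      have h2 := mul_nonneg hβ hy.2.le
      linarith
  have hHF : (fun x : Pl => (x : OnePoint Pl)) '' H ⊆ F := by
    have hpre : IsPreconnected ((fun x : Pl => (x : OnePoint Pl)) '' H) :=
      hHconv.isPreconnected.image _ OnePoint.continuous_coe.continuousOn
    refine hpre.subset_left_of_subset_union (v := (closure F)ᶜ) hF isClosed_closure.isOpen_compl
      ?_ ?_ ?_
    · exact Set.disjoint_left.mpr fun z hz hz' => hz' (subset_closure hz)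
    · rintro z ⟨x, hx, rfl⟩
      by_cases hz : (x : OnePoint Pl) ∈ F
      · exact Or.inl hz
      · right
        intro hcl
        have hfr : (x : OnePoint Pl) ∈ frontier F := by
          rw [hF.frontier_eq]; exact ⟨hcl, hz⟩
        rw [frF] at hfr
        obtain ⟨x', hx', he⟩ := hfr
        have hxx : x' = x := OnePoint.coe_injective he
        subst hxx
        rcases hx' with h | h
        · have := hon _ h
          have h2 := hx.2
          rw [this] at h2
          simp at h2
        · exact hB1 (Metric.ball_subset_ball (min_le_left _ _) hx.1) h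
    · exact ⟨_, ⟨x0, ⟨hx0, by rw [← hk0def]; exact mul_self_pos.mpr hk0⟩, rfl⟩, hyF⟩
  have main : ∀ δ : ℝ, |δ| ≤ a' → |δ| ≤ b' → |δ| * ‖s - r‖ < ε →
      0 < k0 * (δ * cr (q - p) (s - r)) → ∃ x ∈ segment ℝ r s, (x : OnePoint Pl) ∈ F := by
    intro δ h1 h2 h3 h4
    refine ⟨c + δ • (s - r), ?_, ?_⟩
    · refine ⟨a' - δ, b' + δ, by linarith [le_abs_self δ], by linarith [neg_abs_le δ],
        by linarith, ?_⟩
      rw [← hcab', sub_smul, add_smul, smul_sub]
      abel
    · apply hHF
      refine ⟨_, ⟨?_, ?_⟩, rfl⟩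
      · simpa [dist_eq_norm, norm_smul] using h3
      · have : cr (q - p) (c + δ • (s - r) - c) = δ * cr (q - p) (s - r) := by
          simp only [cr, Prod.fst_sub, Prod.snd_sub, Prod.fst_add, Prod.snd_add, Prod.smul_fst,
            Prod.smul_snd, smul_eq_mul]
          ring
        rw [this]; exact h4
  have hM : 0 < 2 * (‖s - r‖ + 1) := by positivity
  let η : ℝ := min (min a' b') (ε / (2 * (‖s - r‖ + 1)))
  have hη : 0 < η := lt_min (lt_min ha' hb') (div_pos hε hM)
  have hη1 : η ≤ a' := (min_le_left _ _).trans (min_le_left _ _)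
  have hη2 : η ≤ b' := (min_le_left _ _).trans (min_le_right _ _)
  have hη3 : η * ‖s - r‖ < ε := by
    have h1 : η ≤ ε / (2 * (‖s - r‖ + 1)) := min_le_right _ _
    have h2 : η * (2 * (‖s - r‖ + 1)) ≤ ε := by
      rw [le_div_iff₀ hM] at h1; exact h1
    nlinarith [norm_nonneg (s - r)]
  rcases lt_or_gt_of_ne (mul_ne_zero hk0 hcr) with h | h
  · refine main (-η) (by rw [abs_neg, abs_of_pos hη]; exact hη1)
      (by rw [abs_neg, abs_of_pos hη]; exact hη2) (by rw [abs_neg, abs_of_pos hη]; exact hη3) ?_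
    have := mul_neg_of_pos_of_neg hη h
    nlinarith
  · refine main η (by rw [abs_of_pos hη]; exact hη1)
      (by rw [abs_of_pos hη]; exact hη2) (by rw [abs_of_pos hη]; exact hη3) ?_
    have := mul_pos hη h
    nlinarith


end Pool.OneBend
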