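import Pool.Agent.Helper140.OneBend.Two
import Pool.Agent.Helper140.OneBend.Half

namespace Pool.OneBend


/-- TARGET. Two fingers `F` (boundary `O v z w`) and `F'` (boundary `O v' z' w'`) which overlap,
whose vertices and bends are outside each other, have crossing sides `[v,z]` and `[v',z']`. -/
theorem crossing (O v z w v' z' w' : Pl) (F F' : Set (OnePoint Pl)) (hF : IsOpen F)
    (hF' : IsOpen F') (cF' : IsPreconnected F')
    (frF : frontier F = (fun x : Pl => (x : OnePoint Pl)) ''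
      (segment ℝ v z ∪ segment ℝ z w ∪ (segment ℝ O v ∪ segment ℝ O w)))
    (frF' : frontier F' = (fun x : Pl => (x : OnePoint Pl)) ''
      (segment ℝ v' z' ∪ segment ℝ z' w' ∪ (segment ℝ O v' ∪ segment ℝ O w')))
    (y : OnePoint Pl) (hy : y ∈ F) (hy' : y ∈ F')
    (hv : (v : OnePoint Pl) ∉ closure F') (hz : (z : OnePoint Pl) ∉ closure F')
    (hw : (w : OnePoint Pl) ∉ closure F')
    (hv' : (v' : OnePoint Pl) ∉ closure F) (hz' : (z' : OnePoint Pl) ∉ closure F)
    (hw' : (w' : OnePoint Pl) ∉ closure F)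
    (lv : ∀ x ∈ segment ℝ O v, (x : OnePoint Pl) ∉ F')
    (lw : ∀ x ∈ segment ℝ O w, (x : OnePoint Pl) ∉ F')
    (dv : Disjoint (segment ℝ v z ∪ segment ℝ z w) (segment ℝ O v' ∪ segment ℝ O w'))
    (dv' : Disjoint (segment ℝ v' z' ∪ segment ℝ z' w') (segment ℝ O v ∪ segment ℝ O w))
    (sC : segment ℝ v z ∩ segment ℝ z w ⊆ {z})
    (sOv : segment ℝ O v ∩ segment ℝ v z ⊆ {v})
    (sOv2 : Disjoint (segment ℝ O v) (segment ℝ z w))
    (sOw : segment ℝ O w ∩ segment ℝ z w ⊆ {w})
    (sOw2 : Disjoint (segment ℝ O w) (segment ℝ v z)) :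
    ∃ X, X ∈ openSegment ℝ v z ∧ X ∈ openSegment ℝ v' z' ∧ cr (z - v) (z' - v') ≠ 0 := by
  have segcl : ∀ p q : Pl, IsClosed (segment ℝ p q) := by
    intro p q
    rw [segment_eq_image]
    refine (isCompact_Icc.image ?_).isClosed
    fun_prop
  -- points of the boundary curves lie in the closures
  have cF : ∀ p ∈ segment ℝ v z ∪ segment ℝ z w ∪ (segment ℝ O v ∪ segment ℝ O w),
      (p : OnePoint Pl) ∈ closure F := by
    intro p hp
    apply frontier_subset_closure
    rw [frF]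
    exact ⟨p, hp, rfl⟩
  have cF'' : ∀ p ∈ segment ℝ v' z' ∪ segment ℝ z' w' ∪ (segment ℝ O v' ∪ segment ℝ O w'),
      (p : OnePoint Pl) ∈ closure F' := by
    intro p hp
    apply frontier_subset_closure
    rw [frF']
    exact ⟨p, hp, rfl⟩
  have vz1 : ∀ p ∈ segment ℝ v z, (p : OnePoint Pl) ∈ closure F :=
    fun p hp => cF p (Or.inl (Or.inl hp))
  have zw1 : ∀ p ∈ segment ℝ z w, (p : OnePoint Pl) ∈ closure F :=
    fun p hp => cF p (Or.inl (Or.inr hp))
  have vz2 : ∀ p ∈ segment ℝ v' z', (p : OnePoint Pl) ∈ closure F' :=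
    fun p hp => cF'' p (Or.inl (Or.inl hp))
  have a1 : v' ∉ segment ℝ v z := fun h => hv' (vz1 _ h)
  have a2 : z' ∉ segment ℝ v z := fun h => hz' (vz1 _ h)
  have a3 : w' ∉ segment ℝ v z := fun h => hw' (vz1 _ h)
  have b1 : v' ∉ segment ℝ z w := fun h => hv' (zw1 _ h)
  have b2 : z' ∉ segment ℝ z w := fun h => hz' (zw1 _ h)
  have b3 : w' ∉ segment ℝ z w := fun h => hw' (zw1 _ h)
  have c1 : v ∉ segment ℝ v' z' := fun h => hv (vz2 _ h)
  have c2 : z ∉ segment ℝ v' z' := fun h => hz (vz2 _ h)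
  have c3 : w ∉ segment ℝ v' z' := fun h => hw (vz2 _ h)
  -- it suffices to find a common point of the two sides
  have key : (∃ X, X ∈ segment ℝ v z ∧ X ∈ segment ℝ v' z') →
      ∃ X, X ∈ openSegment ℝ v z ∧ X ∈ openSegment ℝ v' z' ∧ cr (z - v) (z' - v') ≠ 0 := by
    rintro ⟨X, hX, hX'⟩
    exact ⟨X, cross_interior v z v' z' X hX hX' c1 c2 a1 a2⟩
  apply key
  -- `F'` meets the frontier of `F`
  have hmeet : (F' ∩ frontier F).Nonempty := by
    by_contra hne
    rw [Set.not_nonempty_iff_eq_empty] at hne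
    have hsub : F' ⊆ F ∪ (closure F)ᶜ := by
      intro p hp
      by_cases hpF : p ∈ closure F
      · left
        by_contra hpn
        have : p ∈ F' ∩ frontier F := ⟨hp, by
          rw [hF.frontier_eq]; exact ⟨hpF, hpn⟩⟩
        rw [hne] at this
        exact this
      · right; exact hpF
    have h1 : F' ⊆ F := by
      refine cF'.subset_left_of_subset_union hF isClosed_closure.isOpen_compl ?_ hsub
        ⟨y, hy', hy⟩
      rw [Set.disjoint_compl_right_iff_subset]
      exact subset_closure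
    have h2 : (v' : OnePoint Pl) ∈ closure F' :=
      vz2 v' (left_mem_segment ℝ v' z')
    exact hv' (closure_mono h1 h2)
  obtain ⟨p0, hp0, hp0'⟩ := hmeet
  rw [frF] at hp0'
  obtain ⟨x, hx, hxp⟩ := hp0'
  have hxF' : (x : OnePoint Pl) ∈ F' := by
    have : ((x : Pl) : OnePoint Pl) = p0 := hxp
    rw [this]; exact hp0
  rcases hx with (hx | hx) | (hx | hx)
  · -- first side
    have hR : Disjoint (segment ℝ v z) (segment ℝ O v' ∪ segment ℝ O w') :=
      dv.mono_left Set.subset_union_left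
    exact (two_hits F' hF' v z v' z' w' _ frF' hR x hx hxF' hv hz a1 a2 a3).1
  · -- second side
    have hR : Disjoint (segment ℝ z w) (segment ℝ O v' ∪ segment ℝ O w') :=
      dv.mono_left Set.subset_union_right
    obtain ⟨X1, hX1, hX1'⟩ :=
      (two_hits F' hF' z w v' z' w' _ frF' hR x hx hxF' hz hw b1 b2 b3).1
    obtain ⟨o1, o2, hcr⟩ := cross_interior z w v' z' X1 hX1 hX1' c2 c3 b1 b2
    have hzw : z ≠ w := by
      rintro rfl
      apply hcr
      simp [cr]
    have frF2 : frontier F = (fun x : Pl => (x : OnePoint Pl)) ''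
        (segment ℝ z w ∪ (segment ℝ v z ∪ (segment ℝ O v ∪ segment ℝ O w))) := by
      rw [frF]
      congr 1
      ext u; simp only [Set.mem_union]; tauto
    have hnR : X1 ∉ segment ℝ v z ∪ (segment ℝ O v ∪ segment ℝ O w) := by
      rintro (h | h | h)
      · have h3 : X1 = z := sC ⟨h, hX1⟩
        rw [h3] at o1
        exact hzw (left_mem_openSegment_iff.1 o1)
      · exact Set.disjoint_left.1 sOv2 h hX1
      · have h3 : X1 = w := sOw ⟨h, hX1⟩
        rw [h3] at o1
        exact hzw (right_mem_openSegment_iff.1 o1)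
    obtain ⟨x1, hx1, hx1F⟩ := half_disc F hF z w
      (segment ℝ v z ∪ (segment ℝ O v ∪ segment ℝ O w))
      ((segcl _ _).union ((segcl _ _).union (segcl _ _))) frF2 X1 o1 hnR v' z' o2 hcr
    have hR2 : Disjoint (segment ℝ v' z') (segment ℝ O v ∪ segment ℝ O w) :=
      dv'.mono_left Set.subset_union_left
    obtain ⟨X, hX, hX'⟩ :=
      (two_hits F hF v' z' v z w _ frF hR2 x1 hx1 hx1F hv' hz' c1 c2 c3).1
    exact ⟨X, hX', hX⟩
  · exact absurd hxF' (lv x hx)
  · exact absurd hxF' (lw x hx)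


end Pool.OneBend
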