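import Mathlib

/-!
Definitions for one-bend simultaneous drawings of compatibly embedded planar graphs.
-/

namespace Pool.OneBend

/-- The plane. -/
abbrev Pl := ℝ × ℝ

/-- Cross product of two plane vectors. -/
def cr (a b : Pl) : ℝ := a.1 * b.2 - a.2 * b.1

/-- The three plane vectors `a`, `b`, `c` are in strict counterclockwise cyclic order (turning
counterclockwise from `a` one meets `b` strictly before `c`, and `c` strictly before `a` again):
at least two of the three consecutive cross products are positive. -/
def Cyc (a b c : Pl) : Prop :=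
  (0 < cr a b ∧ 0 < cr b c) ∨ (0 < cr b c ∧ 0 < cr c a) ∨ (0 < cr c a ∧ 0 < cr a b)

/-- A drawing with at most one bend per edge: a position for every vertex, and for every edge
either no bend or one bend point. -/
structure Drawing (V : Type) where
  pos : V → Pl
  bend : Sym2 V → Option Pl

variable {V : Type}

/-- The curve drawn for the edge `uv`. -/
def Drawing.curve (D : Drawing V) (u v : V) : Set Pl :=
  match D.bend s(u, v) with
  | none => segment ℝ (D.pos u) (D.pos v)
  | some z => segment ℝ (D.pos u) z ∪ segment ℝ z (D.pos v)

/-- The direction in which the curve of the edge `uv` leaves `u`. -/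
def Drawing.dir (D : Drawing V) (u v : V) : Pl :=
  match D.bend s(u, v) with
  | none => D.pos v - D.pos u
  | some z => z - D.pos u

/-- `D` restricted to the graph `G` is a planar drawing of `G`: distinct vertices have distinct
positions, every edge is a simple polygonal curve, passes through no other vertex, and two
distinct edges meet only in common endpoints. -/
structure Planar (G : SimpleGraph V) (D : Drawing V) : Prop where
  inj : Function.Injective D.pos
  simple : ∀ u v z, G.Adj u v → D.bend s(u, v) = some z →
    z ≠ D.pos u ∧ z ≠ D.pos v ∧ segment ℝ (D.pos u) z ∩ segment ℝ z (D.pos v) = {z}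
  avoid : ∀ u v w, G.Adj u v → w ≠ u → w ≠ v → D.pos w ∉ D.curve u v
  disj : ∀ u v u' v', G.Adj u v → G.Adj u' v' → s(u, v) ≠ s(u', v') →
    D.curve u v ∩ D.curve u' v' ⊆ D.pos '' ({u, v} ∩ {u', v'})

/-- Two drawings of `G` have the same rotation system: at every vertex the cyclic order of the
edges is the same. -/
def SameRotation (G : SimpleGraph V) (D D' : Drawing V) : Prop :=
  ∀ u a b c, G.Adj u a → G.Adj u b → G.Adj u c →
    (Cyc (D.dir u a) (D.dir u b) (D.dir u c) ↔ Cyc (D'.dir u a) (D'.dir u b) (D'.dir u c))

/-- Some homeomorphism of the plane carries the drawing `D` of `G` to the drawing `D'`. -/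
def PlaneEquiv (G : SimpleGraph V) (D D' : Drawing V) : Prop :=
  ∃ h : Pl ≃ₜ Pl, (∀ v, h (D.pos v) = D'.pos v) ∧
    ∀ u v, G.Adj u v → h '' D.curve u v = D'.curve u v

/-- Some homeomorphism of the sphere (the one-point compactification of the plane) carries the
drawing `D` of `G` to the drawing `D'`. -/
def SphereEquiv (G : SimpleGraph V) (D D' : Drawing V) : Prop :=
  ∃ h : OnePoint Pl ≃ₜ OnePoint Pl, (∀ v, h (D.pos v : OnePoint Pl) = (D'.pos v : OnePoint Pl)) ∧
    ∀ u v, G.Adj u v → h '' ((fun x : Pl => (x : OnePoint Pl)) '' D.curve u v) =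
      (fun x : Pl => (x : OnePoint Pl)) '' D'.curve u v

end Pool.OneBend
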