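import Pool.Agent.Helper140.OneBend.Defs

namespace Pool.OneBend


/-- height functional in direction `w` -/
def ht (w x : Pl) : ℝ := w.1 * x.1 + w.2 * x.2

/-- crossing indicator of the ray from `x` (perpendicular to `w`) with the edge `[p,q]`, half-open
convention. -/
noncomputable def ind (w p q x : Pl) : Bool :=
  open Classical in decide ((ht w p ≤ ht w x ∧ ht w x < ht w q ∧ 0 < cr (q - p) (x - p)) ∨
    (ht w q ≤ ht w x ∧ ht w x < ht w p ∧ cr (q - p) (x - p) < 0))

/-- `p` is at the height of `x`, and `x` is strictly to the left of `p`. -/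
noncomputable def lam (w x p : Pl) : Bool :=
  open Classical in decide (ht w p = ht w x ∧ 0 < cr w (x - p))

/-- `y` is at least as high as `p`. -/
noncomputable def upp (w p y : Pl) : Bool := open Classical in decide (ht w p ≤ ht w y)

lemma ind_iff740 (w p q y : Pl) : ind w p q y = true ↔
    ((ht w p ≤ ht w y ∧ ht w y < ht w q ∧ 0 < cr (q - p) (y - p)) ∨
    (ht w q ≤ ht w y ∧ ht w y < ht w p ∧ cr (q - p) (y - p) < 0)) := by
  unfold ind
  rw [decide_eq_true_iff]

lemma lam_iff740 (w x p : Pl) : lam w x p = true ↔ (ht w p = ht w x ∧ 0 < cr w (x - p)) := by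
  unfold lam
  rw [decide_eq_true_iff]

lemma upp_iff740 (w p y : Pl) : upp w p y = true ↔ ht w p ≤ ht w y := by
  unfold upp
  rw [decide_eq_true_iff]

lemma cr_id740 (w p q x : Pl) : (w.1 ^ 2 + w.2 ^ 2) * cr (q - p) (x - p) =
    (ht w q - ht w p) * cr w (x - p) - (ht w x - ht w p) * (cr w q - cr w p) := by
  unfold cr ht
  simp only [Prod.fst_sub, Prod.snd_sub]
  ring

lemma cr_id740' (w p q x : Pl) : (w.1 ^ 2 + w.2 ^ 2) * cr (q - p) (x - p) =
    (ht w q - ht w p) * cr w (x - q) - (ht w x - ht w q) * (cr w q - cr w p) := by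
  unfold cr ht
  simp only [Prod.fst_sub, Prod.snd_sub]
  ring

lemma cr_sub740 (w x p : Pl) : cr w (x - p) = cr w x - cr w p := by
  unfold cr
  simp only [Prod.fst_sub, Prod.snd_sub]
  ring

lemma nw740 (w : Pl) (hw : w ≠ 0) : 0 < w.1 ^ 2 + w.2 ^ 2 := by
  rcases eq_or_ne w.1 0 with h1 | h1
  · rcases eq_or_ne w.2 0 with h2 | h2
    · exact absurd (Prod.ext h1 h2) hw
    · positivity
  · positivity

lemma mem_seg740 (w p q x : Pl) (hw : w ≠ 0) (t : ℝ) (h0 : 0 ≤ t) (h1 : t ≤ 1)
    (ha : ht w x = ht w p + t * (ht w q - ht w p))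
    (hb : cr w x = cr w p + t * (cr w q - cr w p)) : x ∈ segment ℝ p q := by
  rw [segment_eq_image']
  refine ⟨t, ⟨h0, h1⟩, ?_⟩
  have hn := nw740 w hw
  unfold ht at ha
  unfold cr at hb
  refine Prod.ext ?_ ?_
  · show p.1 + t * (q.1 - p.1) = x.1
    apply mul_left_cancel₀ hn.ne'
    linear_combination (-w.1) * ha + w.2 * hb
  · show p.2 + t * (q.2 - p.2) = x.2
    apply mul_left_cancel₀ hn.ne'
    linear_combination (-w.2) * ha - w.1 * hb

lemma between740 (w p q x : Pl) (hw : w ≠ 0)
    (h : (ht w p < ht w x ∧ ht w x < ht w q) ∨ (ht w q < ht w x ∧ ht w x < ht w p))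
    (hc : cr (q - p) (x - p) = 0) : x ∈ segment ℝ p q := by
  have hD : ht w q - ht w p ≠ 0 := by
    rcases h with h | h
    · intro h2; linarith [h.1, h.2]
    · intro h2; linarith [h.1, h.2]
  have hid := cr_id740 w p q x
  rw [hc, mul_zero, cr_sub740] at hid
  refine mem_seg740 w p q x hw ((ht w x - ht w p) / (ht w q - ht w p)) ?_ ?_ ?_ ?_
  · rcases h with h | h
    · exact div_nonneg (by linarith [h.1]) (by linarith [h.1, h.2])
    · exact div_nonneg_of_nonpos (by linarith [h.2]) (by linarith [h.1, h.2])
  · rcases h with h | h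
    · rw [div_le_one (by linarith [h.1, h.2])]; linarith [h.2]
    · rw [div_le_one_of_neg (by linarith [h.1, h.2])]; linarith [h.1]
  · rw [div_mul_cancel₀ _ hD]; ring
  · rw [div_mul_eq_mul_div, eq_comm, ← eq_sub_iff_add_eq', div_eq_iff hD]
    linarith

lemma level740 (w p q x : Pl) (hw : w ≠ 0) (h1 : ht w p = ht w x) (h2 : ht w q = ht w x)
    (hc : (0 < cr w (x - p) ∧ cr w (x - q) ≤ 0) ∨ (cr w (x - p) ≤ 0 ∧ 0 < cr w (x - q))) :
    x ∈ segment ℝ p q := by
  rw [cr_sub740, cr_sub740] at hc
  have hD : cr w q - cr w p ≠ 0 := by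
    rcases hc with h | h
    · intro h2; linarith [h.1, h.2]
    · intro h2; linarith [h.1, h.2]
  refine mem_seg740 w p q x hw ((cr w x - cr w p) / (cr w q - cr w p)) ?_ ?_ ?_ ?_
  · rcases hc with h | h
    · exact div_nonneg (by linarith [h.1]) (by linarith [h.1, h.2])
    · exact div_nonneg_of_nonpos (by linarith [h.1]) (by linarith [h.1, h.2])
  · rcases hc with h | h
    · rw [div_le_one (by linarith [h.1, h.2])]; linarith [h.2]
    · rw [div_le_one_of_neg (by linarith [h.1, h.2])]; linarith [h.2]
  · rw [h1, h2]; ring
  · rw [div_mul_cancel₀ _ hD]; ring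

theorem edge_local (w p q x : Pl) (hx : x ∉ segment ℝ p q) :
    ∃ κ : Bool, ∀ᶠ y in nhds x,
      ind w p q y = xor κ (xor (lam w x p && upp w p y) (lam w x q && upp w q y)) := by
  have lamF : ∀ r, ht w r ≠ ht w x → lam w x r = false := by
    intro r hr
    rw [Bool.eq_false_iff]
    intro h
    exact hr ((lam_iff740 w x r).1 h).1
  have lamF' : ∀ r, cr w (x - r) ≤ 0 → lam w x r = false := by
    intro r hr
    rw [Bool.eq_false_iff]
    intro h
    have := ((lam_iff740 w x r).1 h).2
    linarith
  by_cases hw : w = 0
  · refine ⟨false, Filter.Eventually.of_forall fun y => ?_⟩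
    have h0 : ∀ z : Pl, ht w z = 0 := fun z => by rw [hw]; simp [ht]
    have hc0 : ∀ z : Pl, cr w z = 0 := fun z => by rw [hw]; simp [cr]
    rw [lamF' p (hc0 _).le, lamF' q (hc0 _).le]
    simp only [Bool.false_and, Bool.xor_false]
    rw [Bool.eq_false_iff, Ne, ind_iff740]
    simp only [h0]
    rintro (h | h)
    · exact absurd h.2.1 (lt_irrefl _)
    · exact absurd h.2.1 (lt_irrefl _)
  have hn := nw740 w hw
  have hcH : Continuous (ht w) := by unfold ht; fun_prop
  have hcC : Continuous (fun y => cr (q - p) (y - p)) := by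
    unfold cr
    simp only [Prod.fst_sub, Prod.snd_sub]
    fun_prop
  have evHlt : ∀ {c : ℝ}, ht w x < c → ∀ᶠ y in nhds x, ht w y < c := fun h =>
    (hcH.tendsto x).eventually_lt_const h
  have evHgt : ∀ {c : ℝ}, c < ht w x → ∀ᶠ y in nhds x, c < ht w y := fun h =>
    (hcH.tendsto x).eventually_const_lt h
  have evClt : cr (q - p) (x - p) < 0 → ∀ᶠ y in nhds x, cr (q - p) (y - p) < 0 := fun h =>
    (hcC.tendsto x).eventually_lt_const h
  have evCgt : 0 < cr (q - p) (x - p) → ∀ᶠ y in nhds x, 0 < cr (q - p) (y - p) := fun h =>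
    (hcC.tendsto x).eventually_const_lt h
  have hxp : ht w p = ht w x → cr w (x - p) ≠ 0 := by
    intro h1 h2
    apply hx
    rw [cr_sub740] at h2
    exact mem_seg740 w p q x hw 0 le_rfl zero_le_one (by rw [h1]; ring) (by linarith)
  have hxq : ht w q = ht w x → cr w (x - q) ≠ 0 := by
    intro h1 h2
    apply hx
    rw [cr_sub740] at h2
    exact mem_seg740 w p q x hw 1 zero_le_one le_rfl (by rw [h1]; ring) (by linarith)
  have id1 := cr_id740 w p q x
  have id2 := cr_id740' w p q x
  rcases lt_trichotomy (ht w p) (ht w x) with hp | hp | hp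
  · rcases lt_trichotomy (ht w q) (ht w x) with hq | hq | hq
    · -- p < x, q < x
      refine ⟨false, ?_⟩
      rw [lamF p hp.ne, lamF q hq.ne]
      filter_upwards [evHgt hp, evHgt hq] with y h1 h2
      simp only [Bool.false_and, Bool.xor_false]
      rw [Bool.eq_false_iff, Ne, ind_iff740]
      rintro (h | h)
      · linarith [h.2.1]
      · linarith [h.2.1]
    · -- p < x, q = x
      have hD : 0 < ht w q - ht w p := by linarith
      rw [hq, sub_self, zero_mul, sub_zero] at id2
      rw [hq] at hD
      rw [lamF p hp.ne]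
      rcases lt_or_gt_of_ne (hxq hq) with hs | hs
      · refine ⟨false, ?_⟩
        rw [lamF' q hs.le]
        have hC : cr (q - p) (x - p) < 0 := by
          by_contra hcon
          push Not at hcon
          nlinarith [mul_nonneg hn.le hcon, mul_pos hD (neg_pos.2 hs)]
        filter_upwards [evHgt hp, evClt hC] with y h1 h2
        simp only [Bool.false_and, Bool.xor_false]
        rw [Bool.eq_false_iff, Ne, ind_iff740]
        rintro (h | h)
        · linarith [h.2.2]
        · linarith [h.2.1]
      · refine ⟨true, ?_⟩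
        rw [(lam_iff740 w x q).2 ⟨hq, hs⟩]
        have hC : 0 < cr (q - p) (x - p) := by
          by_contra hcon
          push Not at hcon
          nlinarith [mul_nonneg hn.le (neg_nonneg.2 hcon), mul_pos hD hs]
        filter_upwards [evHgt hp, evCgt hC] with y h1 h2
        simp only [Bool.false_and, Bool.false_xor, Bool.true_and, Bool.true_xor]
        by_cases hy : ht w q ≤ ht w y
        · rw [(upp_iff740 w q y).2 hy]
          show ind w p q y = false
          rw [Bool.eq_false_iff, Ne, ind_iff740]
          rintro (h | h)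
          · linarith [h.2.1]
          · linarith [h.2.1]
        · have hu : upp w q y = false := by
            rw [Bool.eq_false_iff, Ne, upp_iff740]; exact hy
          rw [hu]
          show ind w p q y = true
          rw [ind_iff740]
          exact Or.inl ⟨h1.le, not_le.1 hy, h2⟩
    · -- p < x < q
      rw [lamF p hp.ne, lamF q hq.ne']
      have hC : cr (q - p) (x - p) ≠ 0 := fun h => hx (between740 w p q x hw (Or.inl ⟨hp, hq⟩) h)
      rcases lt_or_gt_of_ne hC with hs | hs
      · refine ⟨false, ?_⟩
        filter_upwards [evHgt hp, evHlt hq, evClt hs] with y h1 h2 h3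
        simp only [Bool.false_and, Bool.xor_false]
        rw [Bool.eq_false_iff, Ne, ind_iff740]
        rintro (h | h)
        · linarith [h.2.2]
        · linarith [h.2.1]
      · refine ⟨true, ?_⟩
        filter_upwards [evHgt hp, evHlt hq, evCgt hs] with y h1 h2 h3
        simp only [Bool.false_and, Bool.xor_false]
        rw [ind_iff740]
        exact Or.inl ⟨h1.le, h2, h3⟩
  · rcases lt_trichotomy (ht w q) (ht w x) with hq | hq | hq
    · -- p = x, q < x
      have hD : ht w q - ht w p < 0 := by linarith
      rw [hp, sub_self, zero_mul, sub_zero] at id1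
      rw [hp] at hD
      rw [lamF q hq.ne]
      rcases lt_or_gt_of_ne (hxp hp) with hs | hs
      · refine ⟨false, ?_⟩
        rw [lamF' p hs.le]
        have hC : 0 < cr (q - p) (x - p) := by
          by_contra hcon
          push Not at hcon
          nlinarith [mul_nonneg hn.le (neg_nonneg.2 hcon), mul_pos (neg_pos.2 hD) (neg_pos.2 hs)]
        filter_upwards [evHgt hq, evCgt hC] with y h1 h2
        simp only [Bool.false_and, Bool.xor_false]
        rw [Bool.eq_false_iff, Ne, ind_iff740]
        rintro (h | h)
        · linarith [h.2.1]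
        · linarith [h.2.2]
      · refine ⟨true, ?_⟩
        rw [(lam_iff740 w x p).2 ⟨hp, hs⟩]
        have hC : cr (q - p) (x - p) < 0 := by
          by_contra hcon
          push Not at hcon
          nlinarith [mul_nonneg hn.le hcon, mul_pos (neg_pos.2 hD) hs]
        filter_upwards [evHgt hq, evClt hC] with y h1 h2
        simp only [Bool.false_and, Bool.xor_false, Bool.true_and, Bool.true_xor]
        by_cases hy : ht w p ≤ ht w y
        · rw [(upp_iff740 w p y).2 hy]
          show ind w p q y = false
          rw [Bool.eq_false_iff, Ne, ind_iff740]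
          rintro (h | h)
          · linarith [h.2.1]
          · linarith [h.2.1]
        · have hu : upp w p y = false := by
            rw [Bool.eq_false_iff, Ne, upp_iff740]; exact hy
          rw [hu]
          show ind w p q y = true
          rw [ind_iff740]
          exact Or.inr ⟨h1.le, not_le.1 hy, h2⟩
    · -- p = x = q
      refine ⟨false, Filter.Eventually.of_forall fun y => ?_⟩
      have e1 : upp w p y = upp w q y := by
        rw [Bool.eq_iff_iff, upp_iff740, upp_iff740, hp, hq]
      have e2 : lam w x p = lam w x q := by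
        rw [Bool.eq_iff_iff, lam_iff740, lam_iff740]
        constructor
        · rintro ⟨_, h⟩
          refine ⟨hq, ?_⟩
          by_contra hcon
          exact hx (level740 w p q x hw hp hq (Or.inl ⟨h, not_lt.1 hcon⟩))
        · rintro ⟨_, h⟩
          refine ⟨hp, ?_⟩
          by_contra hcon
          exact hx (level740 w p q x hw hp hq (Or.inr ⟨not_lt.1 hcon, h⟩))
      rw [e1, e2]
      simp only [Bool.xor_self, Bool.xor_false]
      rw [Bool.eq_false_iff, Ne, ind_iff740]
      rintro (h | h)
      · linarith [h.1, h.2.1]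
      · linarith [h.1, h.2.1]
    · -- p = x, q > x
      have hD : 0 < ht w q - ht w p := by linarith
      rw [hp, sub_self, zero_mul, sub_zero] at id1
      rw [hp] at hD
      refine ⟨false, ?_⟩
      rw [lamF q hq.ne']
      rcases lt_or_gt_of_ne (hxp hp) with hs | hs
      · rw [lamF' p hs.le]
        have hC : cr (q - p) (x - p) < 0 := by
          by_contra hcon
          push Not at hcon
          nlinarith [mul_nonneg hn.le hcon, mul_pos hD (neg_pos.2 hs)]
        filter_upwards [evHlt hq, evClt hC] with y h1 h2
        simp only [Bool.false_and, Bool.xor_false]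
        rw [Bool.eq_false_iff, Ne, ind_iff740]
        rintro (h | h)
        · linarith [h.2.2]
        · linarith [h.1]
      · rw [(lam_iff740 w x p).2 ⟨hp, hs⟩]
        have hC : 0 < cr (q - p) (x - p) := by
          by_contra hcon
          push Not at hcon
          nlinarith [mul_nonneg hn.le (neg_nonneg.2 hcon), mul_pos hD hs]
        filter_upwards [evHlt hq, evCgt hC] with y h1 h2
        simp only [Bool.false_and, Bool.xor_false, Bool.true_and, Bool.false_xor]
        rw [Bool.eq_iff_iff, ind_iff740, upp_iff740]
        constructor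
        · rintro (h | h)
          · exact h.1
          · linarith [h.1]
        · intro h
          exact Or.inl ⟨h, h1, h2⟩
  · rcases lt_trichotomy (ht w q) (ht w x) with hq | hq | hq
    · -- q < x < p
      rw [lamF p hp.ne', lamF q hq.ne]
      have hC : cr (q - p) (x - p) ≠ 0 := fun h => hx (between740 w p q x hw (Or.inr ⟨hq, hp⟩) h)
      rcases lt_or_gt_of_ne hC with hs | hs
      · refine ⟨true, ?_⟩
        filter_upwards [evHlt hp, evHgt hq, evClt hs] with y h1 h2 h3
        simp only [Bool.false_and, Bool.xor_false]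
        rw [ind_iff740]
        exact Or.inr ⟨h2.le, h1, h3⟩
      · refine ⟨false, ?_⟩
        filter_upwards [evHlt hp, evHgt hq, evCgt hs] with y h1 h2 h3
        simp only [Bool.false_and, Bool.xor_false]
        rw [Bool.eq_false_iff, Ne, ind_iff740]
        rintro (h | h)
        · linarith [h.1]
        · linarith [h.2.2]
    · -- q = x < p
      have hD : ht w q - ht w p < 0 := by linarith
      rw [hq, sub_self, zero_mul, sub_zero] at id2
      rw [hq] at hD
      rw [lamF p hp.ne']
      refine ⟨false, ?_⟩
      rcases lt_or_gt_of_ne (hxq hq) with hs | hs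
      · rw [lamF' q hs.le]
        have hC : 0 < cr (q - p) (x - p) := by
          by_contra hcon
          push Not at hcon
          nlinarith [mul_nonneg hn.le (neg_nonneg.2 hcon), mul_pos (neg_pos.2 hD) (neg_pos.2 hs)]
        filter_upwards [evHlt hp, evCgt hC] with y h1 h2
        simp only [Bool.false_and, Bool.xor_false]
        rw [Bool.eq_false_iff, Ne, ind_iff740]
        rintro (h | h)
        · linarith [h.1]
        · linarith [h.2.2]
      · rw [(lam_iff740 w x q).2 ⟨hq, hs⟩]
        have hC : cr (q - p) (x - p) < 0 := by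
          by_contra hcon
          push Not at hcon
          nlinarith [mul_nonneg hn.le hcon, mul_pos (neg_pos.2 hD) hs]
        filter_upwards [evHlt hp, evClt hC] with y h1 h2
        simp only [Bool.false_and, Bool.true_and, Bool.false_xor]
        rw [Bool.eq_iff_iff, ind_iff740, upp_iff740]
        constructor
        · rintro (h | h)
          · linarith [h.1]
          · exact h.1
        · intro h
          exact Or.inr ⟨h, h1, h2⟩
    · -- p > x, q > x
      refine ⟨false, ?_⟩
      rw [lamF p hp.ne', lamF q hq.ne']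
      filter_upwards [evHlt hp, evHlt hq] with y h1 h2
      simp only [Bool.false_and, Bool.xor_false]
      rw [Bool.eq_false_iff, Ne, ind_iff740]
      rintro (h | h)
      · linarith [h.1]
      · linarith [h.1]


end Pool.OneBend
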