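import Pool.Agent.Helper140.OneBend.Ref

namespace Pool.OneBend


/-! TARGETS: elementary facts on the keys, heights and kites. -/

theorem key_inj : Function.Injective key := by
  rintro (⟨a, b⟩ | ⟨a, b⟩) (⟨a', b'⟩ | ⟨a', b'⟩) h
  · have h' : 26 * (a : ℕ) + (b : ℕ) = 26 * (a' : ℕ) + (b' : ℕ) := h
    have h1 := a.2
    have h2 := b.2
    have h3 := a'.2
    have h4 := b'.2
    have e1 : a = a' := Fin.ext (by omega)
    have e2 : b = b' := Fin.ext (by omega)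
    rw [e1, e2]
  · have h' : 26 * (a : ℕ) + (b : ℕ) = 26 * (a' : ℕ) + 5 + (b' : ℕ) := h
    have h1 := a.2
    have h2 := b.2
    have h3 := a'.2
    have h4 := b'.2
    exfalso
    omega
  · have h' : 26 * (a : ℕ) + 5 + (b : ℕ) = 26 * (a' : ℕ) + (b' : ℕ) := h
    have h1 := a.2
    have h2 := b.2
    have h3 := a'.2
    have h4 := b'.2
    exfalso
    omega
  · have h' : 26 * (a : ℕ) + 5 + (b : ℕ) = 26 * (a' : ℕ) + 5 + (b' : ℕ) := h
    have h1 := a.2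
    have h2 := b.2
    have h3 := a'.2
    have h4 := b'.2
    have e1 : a = a' := Fin.ext (by omega)
    have e2 : b = b' := Fin.ext (by omega)
    rw [e1, e2]

theorem key_lt_iff (i : Fin 4 × Fin 5) (j : Fin 4 × Fin 21) :
    key (Sum.inl i) < key (Sum.inr j) ↔ i.1 ≤ j.1 := by
  obtain ⟨a, b⟩ := i
  obtain ⟨a', b'⟩ := j
  change 26 * (a : ℕ) + (b : ℕ) < 26 * (a' : ℕ) + 5 + (b' : ℕ) ↔ a ≤ a'
  rw [Fin.le_def]
  have h2 := b.2
  have h4 := b'.2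
  constructor <;> intro h <;> omega

theorem key_lt_left (i i' : Fin 4 × Fin 5) (h : i.1 < i'.1) :
    key (Sum.inl i) < key (Sum.inl i') := by
  obtain ⟨a, b⟩ := i
  obtain ⟨a', b'⟩ := i'
  change 26 * (a : ℕ) + (b : ℕ) < 26 * (a' : ℕ) + (b' : ℕ)
  have h0 : (a : ℕ) < a' := h
  have h2 := b.2
  omega

theorem key_lt_right (j j' : Fin 4 × Fin 21) (h : j.1 < j'.1) :
    key (Sum.inr j) < key (Sum.inr j') := by
  obtain ⟨a, b⟩ := j
  obtain ⟨a', b'⟩ := j'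
  change 26 * (a : ℕ) + 5 + (b : ℕ) < 26 * (a' : ℕ) + 5 + (b' : ℕ)
  have h0 : (a : ℕ) < a' := h
  have h2 := b.2
  omega

theorem hgt_bounds (i : Fin 4 × Fin 5) (j : Fin 4 × Fin 21) : 5 ≤ hgt i j ∧ hgt i j < 1685 := by
  obtain ⟨a, b⟩ := i
  obtain ⟨a', b'⟩ := j
  change 5 ≤ 5 + (84 * (5 * (a : ℕ) + b) + (21 * (a' : ℕ) + b')) ∧
    5 + (84 * (5 * (a : ℕ) + b) + (21 * (a' : ℕ) + b')) < 1685
  have h1 := a.2
  have h2 := b.2
  have h3 := a'.2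
  have h4 := b'.2
  omega

theorem hgt_inj (i i' : Fin 4 × Fin 5) (j j' : Fin 4 × Fin 21) (h : hgt i j = hgt i' j') :
    i = i' ∧ j = j' := by
  obtain ⟨a, b⟩ := i
  obtain ⟨c, d⟩ := j
  obtain ⟨a', b'⟩ := i'
  obtain ⟨c', d'⟩ := j'
  have h' : 5 + (84 * (5 * (a : ℕ) + b) + (21 * (c : ℕ) + d)) =
    5 + (84 * (5 * (a' : ℕ) + b') + (21 * (c' : ℕ) + d')) := h
  have h1 := a.2
  have h2 := b.2
  have h3 := c.2
  have h4 := d.2
  have h5 := a'.2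
  have h6 := b'.2
  have h7 := c'.2
  have h8 := d'.2
  have e1 : a = a' := Fin.ext (by omega)
  have e2 : b = b' := Fin.ext (by omega)
  have e3 : c = c' := Fin.ext (by omega)
  have e4 : d = d' := Fin.ext (by omega)
  rw [e1, e2, e3, e4]
  exact ⟨rfl, rfl⟩

/-- auxiliary: linear inequalities for the open kite -/
theorem mem_kite_aux (k : Kt) (p : Pl) : p ∈ kite k ↔
    (1 * p.1 + (-(key k : ℝ) - 1 / 4) * p.2 < 0 ∧ (-1) * p.1 + ((key k : ℝ) - 1 / 4) * p.2 < 0) ∧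
    (1681 * p.1 + (-(1681 * (key k : ℝ)) + 1) * p.2 < 1685 ∧
      (-1681) * p.1 + (1681 * (key k : ℝ) + 1) * p.2 < 1685) := by
  unfold kite HH
  rw [Set.mem_ofPred_eq, abs_lt, abs_lt]
  have e : (1685 - p.2) / ((1685 : ℝ) - 4) = (1685 - p.2) / 1681 := by norm_num
  rw [e]
  constructor
  · rintro ⟨⟨h1, h2⟩, h3, h4⟩
    refine ⟨⟨?_, ?_⟩, ?_, ?_⟩ <;> linarith
  · rintro ⟨⟨h1, h2⟩, h3, h4⟩
    refine ⟨⟨?_, ?_⟩, ?_, ?_⟩ <;> linarith

/-- auxiliary: linear inequalities for the closed kite -/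
theorem mem_ckite_aux (k : Kt) (p : Pl) : p ∈ ckite k ↔
    (1 * p.1 + (-(key k : ℝ) - 1 / 4) * p.2 ≤ 0 ∧ (-1) * p.1 + ((key k : ℝ) - 1 / 4) * p.2 ≤ 0) ∧
    (1681 * p.1 + (-(1681 * (key k : ℝ)) + 1) * p.2 ≤ 1685 ∧
      (-1681) * p.1 + (1681 * (key k : ℝ) + 1) * p.2 ≤ 1685) := by
  unfold ckite HH
  rw [Set.mem_ofPred_eq, abs_le, abs_le]
  have e : (1685 - p.2) / ((1685 : ℝ) - 4) = (1685 - p.2) / 1681 := by norm_num
  rw [e]
  constructor
  · rintro ⟨⟨h1, h2⟩, h3, h4⟩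
    refine ⟨⟨?_, ?_⟩, ?_, ?_⟩ <;> linarith
  · rintro ⟨⟨h1, h2⟩, h3, h4⟩
    refine ⟨⟨?_, ?_⟩, ?_, ?_⟩ <;> linarith

theorem half_open_aux (α β γ : ℝ) : IsOpen {p : Pl | α * p.1 + β * p.2 < γ} :=
  isOpen_lt (by fun_prop) continuous_const

theorem half_closed_aux (α β γ : ℝ) : IsClosed {p : Pl | α * p.1 + β * p.2 ≤ γ} :=
  isClosed_le (by fun_prop) continuous_const

theorem half_convex_aux (α β γ : ℝ) : Convex ℝ {p : Pl | α * p.1 + β * p.2 < γ} := by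
  apply convex_halfSpace_lt
  constructor
  · intro x y
    change α * (x.1 + y.1) + β * (x.2 + y.2) = _
    ring
  · intro c x
    change α * (c * x.1) + β * (c * x.2) = c * (α * x.1 + β * x.2)
    ring

theorem kite_eq_aux (k : Kt) : kite k =
    ({p : Pl | 1 * p.1 + (-(key k : ℝ) - 1 / 4) * p.2 < 0} ∩
      {p : Pl | (-1) * p.1 + ((key k : ℝ) - 1 / 4) * p.2 < 0}) ∩
    ({p : Pl | 1681 * p.1 + (-(1681 * (key k : ℝ)) + 1) * p.2 < 1685} ∩
      {p : Pl | (-1681) * p.1 + (1681 * (key k : ℝ) + 1) * p.2 < 1685}) := by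
  ext p
  exact mem_kite_aux k p

theorem ckite_eq_aux (k : Kt) : ckite k =
    ({p : Pl | 1 * p.1 + (-(key k : ℝ) - 1 / 4) * p.2 ≤ 0} ∩
      {p : Pl | (-1) * p.1 + ((key k : ℝ) - 1 / 4) * p.2 ≤ 0}) ∩
    ({p : Pl | 1681 * p.1 + (-(1681 * (key k : ℝ)) + 1) * p.2 ≤ 1685} ∩
      {p : Pl | (-1681) * p.1 + (1681 * (key k : ℝ) + 1) * p.2 ≤ 1685}) := by
  ext p
  exact mem_ckite_aux k p

theorem kite_isOpen (k : Kt) : IsOpen (kite k) := by
  rw [kite_eq_aux]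
  exact ((half_open_aux _ _ _).inter (half_open_aux _ _ _)).inter
    ((half_open_aux _ _ _).inter (half_open_aux _ _ _))

theorem kite_convex (k : Kt) : Convex ℝ (kite k) := by
  rw [kite_eq_aux]
  exact ((half_convex_aux _ _ _).inter (half_convex_aux _ _ _)).inter
    ((half_convex_aux _ _ _).inter (half_convex_aux _ _ _))

theorem ckite_closed_aux (k : Kt) : IsClosed (ckite k) := by
  rw [ckite_eq_aux]
  exact ((half_closed_aux _ _ _).inter (half_closed_aux _ _ _)).inter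
    ((half_closed_aux _ _ _).inter (half_closed_aux _ _ _))

theorem ckite_y_aux (k : Kt) (p : Pl) (hp : p ∈ ckite k) : 0 ≤ p.2 ∧ p.2 ≤ 1685 := by
  obtain ⟨⟨h1, h2⟩, h3, h4⟩ := (mem_ckite_aux k p).1 hp
  constructor <;> linarith

theorem ckite_compact (k : Kt) : IsCompact (ckite k) := by
  have hm : (0 : ℝ) ≤ key k := Nat.cast_nonneg _
  have hc : IsCompact (Set.Icc (-(((key k : ℝ) + 1) * 1685)) (((key k : ℝ) + 1) * 1685) ×ˢ
      Set.Icc (0 : ℝ) 1685 : Set Pl) := isCompact_Icc.prod isCompact_Icc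
  apply hc.of_isClosed_subset (ckite_closed_aux k)
  intro p hp
  obtain ⟨h5, h6⟩ := ckite_y_aux k p hp
  obtain ⟨⟨h1, h2⟩, h3, h4⟩ := (mem_ckite_aux k p).1 hp
  have h7 : (key k : ℝ) * p.2 ≤ (key k : ℝ) * 1685 := mul_le_mul_of_nonneg_left h6 hm
  have h8 : 0 ≤ (key k : ℝ) * p.2 := mul_nonneg hm h5
  have h9 : 0 ≤ (key k : ℝ) * 1685 := by positivity
  refine ⟨⟨?_, ?_⟩, ⟨h5, h6⟩⟩ <;> linarith

theorem center_aux (k : Kt) : ((4 * (key k : ℝ), 4) : Pl) ∈ kite k := by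
  rw [mem_kite_aux]
  refine ⟨⟨?_, ?_⟩, ?_, ?_⟩ <;> simp only [] <;> linarith

theorem kite_closure (k : Kt) : closure (kite k) = ckite k := by
  apply Set.Subset.antisymm
  · apply closure_minimal _ (ckite_closed_aux k)
    intro p hp
    obtain ⟨⟨h1, h2⟩, h3, h4⟩ := (mem_kite_aux k p).1 hp
    exact (mem_ckite_aux k p).2 ⟨⟨h1.le, h2.le⟩, h3.le, h4.le⟩
  · intro p hp
    obtain ⟨⟨h1, h2⟩, h3, h4⟩ := (mem_ckite_aux k p).1 hp
    have hlim : Filter.Tendsto (fun t : ℝ => ((1 - t) * p.1 + t * (4 * (key k : ℝ)),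
        (1 - t) * p.2 + t * 4)) (nhdsWithin 0 (Set.Ioi 0)) (nhds p) := by
      have hc : Continuous (fun t : ℝ => (((1 - t) * p.1 + t * (4 * (key k : ℝ)),
        (1 - t) * p.2 + t * 4) : Pl)) := by fun_prop
      have h5 := hc.tendsto 0
      have e : (((1 - (0 : ℝ)) * p.1 + 0 * (4 * (key k : ℝ)), (1 - (0 : ℝ)) * p.2 + 0 * 4) : Pl) = p := by
        apply Prod.ext <;> simp
      rw [e] at h5
      exact h5.mono_left nhdsWithin_le_nhds
    apply mem_closure_of_tendsto hlim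
    have h6 : Set.Ioo (0 : ℝ) 1 ∈ nhdsWithin (0 : ℝ) (Set.Ioi 0) := Ioo_mem_nhdsGT zero_lt_one
    filter_upwards [h6] with t ht
    have ht0 : 0 < t := ht.1
    have ht1 : 0 < 1 - t := by linarith [ht.2]
    rw [mem_kite_aux]
    have g1 : (1 - t) * (1 * p.1 + (-(key k : ℝ) - 1 / 4) * p.2) ≤ 0 :=
      mul_nonpos_of_nonneg_of_nonpos ht1.le h1
    have g2 : (1 - t) * ((-1) * p.1 + ((key k : ℝ) - 1 / 4) * p.2) ≤ 0 :=
      mul_nonpos_of_nonneg_of_nonpos ht1.le h2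
    have g3 : (1 - t) * (1681 * p.1 + (-(1681 * (key k : ℝ)) + 1) * p.2) ≤ (1 - t) * 1685 :=
      mul_le_mul_of_nonneg_left h3 ht1.le
    have g4 : (1 - t) * ((-1681) * p.1 + (1681 * (key k : ℝ) + 1) * p.2) ≤ (1 - t) * 1685 :=
      mul_le_mul_of_nonneg_left h4 ht1.le
    refine ⟨⟨?_, ?_⟩, ?_, ?_⟩
    · change 1 * ((1 - t) * p.1 + t * (4 * (key k : ℝ))) +
        (-(key k : ℝ) - 1 / 4) * ((1 - t) * p.2 + t * 4) < 0
      linarith
    · change (-1) * ((1 - t) * p.1 + t * (4 * (key k : ℝ))) +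
        ((key k : ℝ) - 1 / 4) * ((1 - t) * p.2 + t * 4) < 0
      linarith
    · change 1681 * ((1 - t) * p.1 + t * (4 * (key k : ℝ))) +
        (-(1681 * (key k : ℝ)) + 1) * ((1 - t) * p.2 + t * 4) < 1685
      linarith
    · change (-1681) * ((1 - t) * p.1 + t * (4 * (key k : ℝ))) +
        (1681 * (key k : ℝ) + 1) * ((1 - t) * p.2 + t * 4) < 1685
      linarith

theorem seg_aux (a1 a2 b1 b2 : ℝ) (h : a2 < b2) (p : Pl) :
    p ∈ segment ℝ ((a1, a2) : Pl) (b1, b2) ↔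
      (a2 ≤ p.2 ∧ p.2 ≤ b2) ∧ (p.1 - a1) * (b2 - a2) = (p.2 - a2) * (b1 - a1) := by
  have hd : 0 < b2 - a2 := by linarith
  rw [segment_eq_image]
  constructor
  · rintro ⟨t, ⟨ht0, ht1⟩, rfl⟩
    change (a2 ≤ (1 - t) * a2 + t * b2 ∧ (1 - t) * a2 + t * b2 ≤ b2) ∧
      ((1 - t) * a1 + t * b1 - a1) * (b2 - a2) = ((1 - t) * a2 + t * b2 - a2) * (b1 - a1)
    have h1 : 0 ≤ t * (b2 - a2) := mul_nonneg ht0 hd.le
    have h2 : 0 ≤ (1 - t) * (b2 - a2) := mul_nonneg (by linarith) hd.le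
    refine ⟨⟨by linarith, by linarith⟩, by ring⟩
  · rintro ⟨⟨h1, h2⟩, h3⟩
    refine ⟨(p.2 - a2) / (b2 - a2), ⟨?_, ?_⟩, ?_⟩
    · exact div_nonneg (by linarith) hd.le
    · rw [div_le_one hd]; linarith
    · apply Prod.ext
      · change (1 - (p.2 - a2) / (b2 - a2)) * a1 + (p.2 - a2) / (b2 - a2) * b1 = p.1
        field_simp
        linarith
      · change (1 - (p.2 - a2) / (b2 - a2)) * a2 + (p.2 - a2) / (b2 - a2) * b2 = p.2
        field_simp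
        ring

/-- The frontier of the kite consists of the upper edges and the two legs. -/
theorem kite_frontier (k : Kt) :
    frontier (kite k) =
      segment ℝ ((4 * (key k : ℝ) + (-1), 4) : Pl) ((key k : ℝ) * HH, HH) ∪
        segment ℝ ((key k : ℝ) * HH, HH) ((4 * (key k : ℝ) + 1, 4) : Pl) ∪
      (segment ℝ (0, 0) ((4 * (key k : ℝ) + (-1), 4) : Pl) ∪
        segment ℝ (0, 0) ((4 * (key k : ℝ) + 1, 4) : Pl)) := by
  rw [segment_symm ℝ ((key k : ℝ) * HH, HH) ((4 * (key k : ℝ) + 1, 4) : Pl)]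
  rw [frontier, (kite_isOpen k).interior_eq, kite_closure]
  ext p
  rw [Set.mem_diff, Set.mem_union, Set.mem_union, Set.mem_union]
  unfold HH
  rw [seg_aux _ _ _ _ (by norm_num), seg_aux _ _ _ _ (by norm_num), seg_aux _ _ _ _ (by norm_num),
    seg_aux _ _ _ _ (by norm_num), mem_ckite_aux, mem_kite_aux]
  constructor
  · rintro ⟨⟨⟨h1, h2⟩, h3, h4⟩, hn⟩
    by_cases c1 : 1 * p.1 + (-(key k : ℝ) - 1 / 4) * p.2 < 0
    · by_cases c2 : (-1) * p.1 + ((key k : ℝ) - 1 / 4) * p.2 < 0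
      · by_cases c3 : 1681 * p.1 + (-(1681 * (key k : ℝ)) + 1) * p.2 < 1685
        · by_cases c4 : (-1681) * p.1 + (1681 * (key k : ℝ) + 1) * p.2 < 1685
          · exact absurd ⟨⟨c1, c2⟩, c3, c4⟩ hn
          · left; left
            rw [not_lt] at c4
            refine ⟨⟨?_, ?_⟩, ?_⟩ <;> linarith
        · left; right
          rw [not_lt] at c3
          refine ⟨⟨?_, ?_⟩, ?_⟩ <;> linarith
      · right; left
        rw [not_lt] at c2
        refine ⟨⟨?_, ?_⟩, ?_⟩ <;> linarith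
    · right; right
      rw [not_lt] at c1
      refine ⟨⟨?_, ?_⟩, ?_⟩ <;> linarith
  · rintro ((⟨⟨h1, h2⟩, h3⟩ | ⟨⟨h1, h2⟩, h3⟩) | (⟨⟨h1, h2⟩, h3⟩ | ⟨⟨h1, h2⟩, h3⟩))
    · refine ⟨⟨⟨?_, ?_⟩, ?_, ?_⟩, ?_⟩
      · linarith
      · linarith
      · linarith
      · linarith
      · rintro ⟨⟨g1, g2⟩, g3, g4⟩
        linarith
    · refine ⟨⟨⟨?_, ?_⟩, ?_, ?_⟩, ?_⟩
      · linarith
      · linarith
      · linarith
      · linarith
      · rintro ⟨⟨g1, g2⟩, g3, g4⟩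
        linarith
    · refine ⟨⟨⟨?_, ?_⟩, ?_, ?_⟩, ?_⟩
      · linarith
      · linarith
      · linarith
      · linarith
      · rintro ⟨⟨g1, g2⟩, g3, g4⟩
        linarith
    · refine ⟨⟨⟨?_, ?_⟩, ?_, ?_⟩, ?_⟩
      · linarith
      · linarith
      · linarith
      · linarith
      · rintro ⟨⟨g1, g2⟩, g3, g4⟩
        linarith

theorem ckite_inter (k k' : Kt) (h : k ≠ k') : ckite k ∩ ckite k' ⊆ {(0, 0)} := by
  rintro p ⟨hp, hp'⟩
  obtain ⟨h5, _⟩ := ckite_y_aux k p hp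
  obtain ⟨⟨h1, h2⟩, _, _⟩ := (mem_ckite_aux k p).1 hp
  obtain ⟨⟨h3, h4⟩, _, _⟩ := (mem_ckite_aux k' p).1 hp'
  have hne : key k ≠ key k' := fun hc => h (key_inj hc)
  have hy : p.2 = 0 := by
    rcases Nat.lt_or_gt_of_ne hne with hlt | hlt
    · have hlt' : (key k : ℝ) + 1 ≤ key k' := by exact_mod_cast hlt
      have h6 : ((key k : ℝ) + 1) * p.2 ≤ (key k' : ℝ) * p.2 := mul_le_mul_of_nonneg_right hlt' h5
      linarith
    · have hlt' : (key k' : ℝ) + 1 ≤ key k := by exact_mod_cast hlt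
      have h6 : ((key k' : ℝ) + 1) * p.2 ≤ (key k : ℝ) * p.2 := mul_le_mul_of_nonneg_right hlt' h5
      linarith
  rw [hy] at h1 h2
  have hx : p.1 = 0 := by linarith
  exact Prod.ext hx hy

theorem zero_not_mem_kite (k : Kt) : ((0, 0) : Pl) ∉ kite k := by
  rw [mem_kite_aux]
  rintro ⟨⟨h1, _⟩, _⟩
  simp at h1

theorem y_mem_kite (c : Fin 4 × Fin 5 → Fin 4 × Fin 21 → Kt) (i : Fin 4 × Fin 5)
    (j : Fin 4 × Fin 21) : refPos c (Vx.y i j) ∈ kite (c i j) := by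
  obtain ⟨h1, h2⟩ := hgt_bounds i j
  have h1' : (5 : ℝ) ≤ hgt i j := by exact_mod_cast h1
  have h2' : (hgt i j : ℝ) < 1685 := by exact_mod_cast h2
  change ((key (c i j) : ℝ) * (hgt i j : ℝ), (hgt i j : ℝ)) ∈ kite (c i j)
  rw [mem_kite_aux]
  refine ⟨⟨?_, ?_⟩, ?_, ?_⟩
  · change 1 * ((key (c i j) : ℝ) * (hgt i j : ℝ)) + (-(key (c i j) : ℝ) - 1 / 4) * (hgt i j : ℝ) < 0
    linarith
  · change (-1) * ((key (c i j) : ℝ) * (hgt i j : ℝ)) + ((key (c i j) : ℝ) - 1 / 4) * (hgt i j : ℝ) < 0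
    linarith
  · change 1681 * ((key (c i j) : ℝ) * (hgt i j : ℝ)) +
      (-(1681 * (key (c i j) : ℝ)) + 1) * (hgt i j : ℝ) < 1685
    linarith
  · change (-1681) * ((key (c i j) : ℝ) * (hgt i j : ℝ)) +
      (1681 * (key (c i j) : ℝ) + 1) * (hgt i j : ℝ) < 1685
    linarith


end Pool.OneBend
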