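import Pool.Agent.Helper140.OneBend.LemmaX

namespace Pool.OneBend


theorem la_mem {p d y : Pl} {α : ℝ} (hα : 0 ≤ α) (hy : y ∈ segment ℝ p (p + α • d)) :
    ∃ t, 0 ≤ t ∧ t ≤ α ∧ y = p + t • d := by
  rw [segment_eq_image'] at hy
  obtain ⟨θ, ⟨h0, h1⟩, rfl⟩ := hy
  refine ⟨θ * α, by positivity, by nlinarith, ?_⟩
  simp only [add_sub_cancel_left, smul_smul]

theorem la_in {p d : Pl} {t : ℝ} (h0 : 0 ≤ t) (h1 : t ≤ 1) : p + t • d ∈ segment ℝ p (p + d) := by
  rw [segment_eq_image']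
  exact ⟨t, ⟨h0, h1⟩, by simp only [add_sub_cancel_left]⟩

theorem la_sub {p d : Pl} {α : ℝ} (h0 : 0 ≤ α) (h1 : α ≤ 1) :
    segment ℝ p (p + α • d) ⊆ segment ℝ p (p + d) := by
  intro y hy
  obtain ⟨t, ht0, ht1, rfl⟩ := la_mem h0 hy
  exact la_in ht0 (by linarith)

theorem la_open {p d : Pl} {α β : ℝ} (h0 : 0 < α) (h1 : α < β) :
    p + α • d ∈ openSegment ℝ p (p + β • d) := by
  have hβ : 0 < β := by linarith
  rw [openSegment_eq_image']
  refine ⟨α / β, ⟨by positivity, by rw [div_lt_one hβ]; exact h1⟩, ?_⟩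
  simp only [add_sub_cancel_left, smul_smul, div_mul_cancel₀ _ hβ.ne']

theorem la_uniq {p d q e : Pl} {t u α β : ℝ} (h : p + t • d = q + u • e)
    (h' : p + α • d = q + β • e) (hk : cr d e ≠ 0) : t = α := by
  have e1 := congrArg Prod.fst h
  have e2 := congrArg Prod.snd h
  have e3 := congrArg Prod.fst h'
  have e4 := congrArg Prod.snd h'
  simp only [Prod.fst_add, Prod.snd_add, Prod.smul_fst, Prod.smul_snd, smul_eq_mul] at e1 e2 e3 e4
  have h5 : (t - α) * cr d e = 0 := by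
    unfold cr
    linear_combination e.2 * (e1 - e3) - e.1 * (e2 - e4)
  rcases mul_eq_zero.1 h5 with h6 | h6
  · linarith
  · exact absurd h6 hk

/-- disjointness of the initial piece of a segment from a segment crossing it later -/
theorem la_dis {p d q e : Pl} {α α' β β' : ℝ} (h0 : 0 ≤ α) (hα : α < α') (hβ : 0 ≤ β)
    (h' : p + α' • d = q + β' • e) (hk : cr d e ≠ 0) :
    Disjoint (segment ℝ (p + α • d) p) (segment ℝ q (q + β • e)) := by
  rw [Set.disjoint_left]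
  intro y hy hy2
  rw [segment_symm] at hy
  obtain ⟨t, ht0, ht1, rfl⟩ := la_mem h0 hy
  obtain ⟨u, _, _, h2⟩ := la_mem hβ hy2
  have := la_uniq h2 h' hk
  linarith

theorem la_rot {a b c : Pl} (h : Cyc a b c) : Cyc b c a := by
  unfold Cyc at h ⊢
  tauto

/-- TARGET. Fingers with alternating roots cross in opposite orders. -/
theorem lemmaA (O p1 q1 p2 q2 d1 e1 d2 e2 : Pl) (α11 α12 α21 α22 β11 β12 β21 β22 : ℝ)
    (c1 : Cyc (p1 - O) (q1 - O) (p2 - O)) (c2 : Cyc (q1 - O) (p2 - O) (q2 - O))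
    (c3 : Cyc (p2 - O) (q2 - O) (p1 - O)) (c4 : Cyc (q2 - O) (p1 - O) (q1 - O))
    -- the segments `s1 = [p1,p1+d1]`, `s2 = [p2,p2+d2]`, `t1 = [q1,q1+e1]`, `t2 = [q2,q2+e2]`
    (hs : Disjoint (segment ℝ p1 (p1 + d1)) (segment ℝ p2 (p2 + d2)))
    (ht : Disjoint (segment ℝ q1 (q1 + e1)) (segment ℝ q2 (q2 + e2)))
    -- legs do not meet the other segments
    (l12 : Disjoint (segment ℝ O p1) (segment ℝ p2 (p2 + d2)))
    (l1a : Disjoint (segment ℝ O p1) (segment ℝ q1 (q1 + e1)))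
    (l1b : Disjoint (segment ℝ O p1) (segment ℝ q2 (q2 + e2)))
    (l21 : Disjoint (segment ℝ O p2) (segment ℝ p1 (p1 + d1)))
    (l2a : Disjoint (segment ℝ O p2) (segment ℝ q1 (q1 + e1)))
    (l2b : Disjoint (segment ℝ O p2) (segment ℝ q2 (q2 + e2)))
    (m12 : Disjoint (segment ℝ O q1) (segment ℝ q2 (q2 + e2)))
    (m1a : Disjoint (segment ℝ O q1) (segment ℝ p1 (p1 + d1)))
    (m1b : Disjoint (segment ℝ O q1) (segment ℝ p2 (p2 + d2)))
    (m21 : Disjoint (segment ℝ O q2) (segment ℝ q1 (q1 + e1)))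
    (m2a : Disjoint (segment ℝ O q2) (segment ℝ p1 (p1 + d1)))
    (m2b : Disjoint (segment ℝ O q2) (segment ℝ p2 (p2 + d2)))
    -- crossing points, all in the interior of the segments
    (a11 : α11 ∈ Set.Ioo (0:ℝ) 1) (a12 : α12 ∈ Set.Ioo (0:ℝ) 1)
    (a21 : α21 ∈ Set.Ioo (0:ℝ) 1) (a22 : α22 ∈ Set.Ioo (0:ℝ) 1)
    (b11 : β11 ∈ Set.Ioo (0:ℝ) 1) (b12 : β12 ∈ Set.Ioo (0:ℝ) 1)
    (b21 : β21 ∈ Set.Ioo (0:ℝ) 1) (b22 : β22 ∈ Set.Ioo (0:ℝ) 1)
    (x11 : p1 + α11 • d1 = q1 + β11 • e1) (x12 : p1 + α12 • d1 = q2 + β12 • e2)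
    (x21 : p2 + α21 • d2 = q1 + β21 • e1) (x22 : p2 + α22 • d2 = q2 + β22 • e2)
    (k11 : cr d1 e1 ≠ 0) (k12 : cr d1 e2 ≠ 0) (k21 : cr d2 e1 ≠ 0) (k22 : cr d2 e2 ≠ 0) :
    ¬ (α11 < α12 ∧ α21 < α22) := by
  rintro ⟨A1, A2⟩
  have O1 : O ∈ segment ℝ O p1 := left_mem_segment ℝ _ _
  have O2 : O ∈ segment ℝ O p2 := left_mem_segment ℝ _ _
  have hOt1 : O ∉ segment ℝ q1 (q1 + e1) := fun h => Set.disjoint_left.1 l1a O1 h
  have hOs2 : O ∉ segment ℝ p2 (p2 + d2) := fun h => Set.disjoint_left.1 l12 O1 h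
  have hOs1 : O ∉ segment ℝ p1 (p1 + d1) := fun h => Set.disjoint_left.1 l21 O2 h
  have hne : β11 ≠ β21 := by
    intro hb
    refine Set.disjoint_left.1 hs (la_in (t := α11) a11.1.le a11.2.le) ?_
    rw [x11, hb, ← x21]
    exact la_in a21.1.le a21.2.le
  rcases lt_or_gt_of_ne hne with hlt | hgt
  · -- case β11 < β21
    have sa : segment ℝ q1 (p2 + α21 • d2) ⊆ segment ℝ q1 (q1 + e1) := by
      rw [x21]; exact la_sub b21.1.le b21.2.le
    have sb : segment ℝ (p2 + α21 • d2) p2 ⊆ segment ℝ p2 (p2 + d2) := by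
      rw [segment_symm]; exact la_sub a21.1.le a21.2.le
    have sc : segment ℝ q2 (p1 + α12 • d1) ⊆ segment ℝ q2 (q2 + e2) := by
      rw [x12]; exact la_sub b12.1.le b12.2.le
    have sd : segment ℝ (p1 + α12 • d1) p1 ⊆ segment ℝ p1 (p1 + d1) := by
      rw [segment_symm]; exact la_sub a12.1.le a12.2.le
    refine lemmaX O q1 p2 q2 p1 (p2 + α21 • d2) (p1 + α12 • d1) (p1 + α11 • d1)
      (Or.inl ⟨la_rot c2, la_rot (la_rot c1)⟩) ?_ ?_ ?_ (fun h => hOt1 (sa h))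
      (fun h => hOs2 (sb h)) (m12.mono_right sc) (m1a.mono_right sd) (l2b.mono_right sc)
      (l21.mono_right sd) (ht.mono sa sc) ?_ (hs.symm.mono sb sd) ?_ (m21.mono_right sa)
      (m2b.mono_right sb) (l1a.mono_right sa) (l12.mono_right sb)
    · rw [x11, x21]; exact la_open b11.1 hlt
    · rw [openSegment_symm]; exact la_open a11.1 A1
    · rw [x21]
      have : cr (q1 + β21 • e1 - q1) (p1 - (p1 + α12 • d1)) = β21 * α12 * cr d1 e1 := by
        simp only [cr, Prod.fst_add, Prod.snd_add, Prod.fst_sub, Prod.snd_sub, Prod.smul_fst,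
          Prod.smul_snd, smul_eq_mul]
        ring
      rw [this]
      exact mul_ne_zero (mul_ne_zero b21.1.ne' a12.1.ne') k11
    · rw [x12]
      exact la_dis a21.1.le A2 b12.1.le x22 k22
    · rintro y ⟨hy1, hy2⟩
      rw [x21] at hy1
      rw [segment_symm] at hy2
      obtain ⟨u, _, _, hu⟩ := la_mem b21.1.le hy1
      obtain ⟨t, _, _, ht'⟩ := la_mem a12.1.le hy2
      have := la_uniq (ht'.symm.trans hu) x11 k11
      rw [ht', this]
      rfl
  · -- case β21 < β11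
    have sa : segment ℝ q1 (p1 + α11 • d1) ⊆ segment ℝ q1 (q1 + e1) := by
      rw [x11]; exact la_sub b11.1.le b11.2.le
    have sb : segment ℝ (p1 + α11 • d1) p1 ⊆ segment ℝ p1 (p1 + d1) := by
      rw [segment_symm]; exact la_sub a11.1.le a11.2.le
    have sc : segment ℝ q2 (p2 + α22 • d2) ⊆ segment ℝ q2 (q2 + e2) := by
      rw [x22]; exact la_sub b22.1.le b22.2.le
    have sd : segment ℝ (p2 + α22 • d2) p2 ⊆ segment ℝ p2 (p2 + d2) := by
      rw [segment_symm]; exact la_sub a22.1.le a22.2.le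
    refine lemmaX O q1 p1 q2 p2 (p1 + α11 • d1) (p2 + α22 • d2) (p2 + α21 • d2)
      (Or.inr ⟨la_rot (la_rot c4), la_rot c1⟩) ?_ ?_ ?_ (fun h => hOt1 (sa h))
      (fun h => hOs1 (sb h)) (m12.mono_right sc) (m1b.mono_right sd) (l1b.mono_right sc)
      (l12.mono_right sd) (ht.mono sa sc) ?_ (hs.mono sb sd) ?_ (m21.mono_right sa)
      (m2a.mono_right sb) (l2a.mono_right sa) (l21.mono_right sb)
    · rw [x11, x21]; exact la_open b21.1 hgt
    · rw [openSegment_symm]; exact la_open a21.1 A2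
    · rw [x11]
      have : cr (q1 + β11 • e1 - q1) (p2 - (p2 + α22 • d2)) = β11 * α22 * cr d2 e1 := by
        simp only [cr, Prod.fst_add, Prod.snd_add, Prod.fst_sub, Prod.snd_sub, Prod.smul_fst,
          Prod.smul_snd, smul_eq_mul]
        ring
      rw [this]
      exact mul_ne_zero (mul_ne_zero b11.1.ne' a22.1.ne') k21
    · rw [x22]
      exact la_dis a11.1.le A1 b22.1.le x12 k12
    · rintro y ⟨hy1, hy2⟩
      rw [x11] at hy1
      rw [segment_symm] at hy2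
      obtain ⟨u, _, _, hu⟩ := la_mem b11.1.le hy1
      obtain ⟨t, _, _, ht'⟩ := la_mem a22.1.le hy2
      have := la_uniq (ht'.symm.trans hu) x21 k21
      rw [ht', this]
      rfl


end Pool.OneBend
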