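import Pool.Agent.Helper140.OneBend.Defs

namespace Pool.OneBend


theorem meetL {p q r s : ℝ} (h0 : 0 ≤ p) (h1 : p ≤ q) (h2 : 0 ≤ s) (h3 : s ≤ r) :
    ∃ x y : ℝ, 0 ≤ x ∧ x ≤ 1 ∧ 0 ≤ y ∧ y ≤ 1 ∧ p * (1 - x) = q * (1 - y) ∧ r * x = s * y := by
  rcases (h0.trans h1).eq_or_lt with hq | hq
  · have hp : p = 0 := by linarith
    exact ⟨0, 0, le_rfl, zero_le_one, le_rfl, zero_le_one, by rw [← hq, hp], by ring⟩
  · -- q > 0
    have hA : 0 ≤ q * (r - s) := mul_nonneg hq.le (by linarith)
    have hB : 0 ≤ s * (q - p) := mul_nonneg h2 (by linarith)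
    rcases (add_nonneg hA hB).eq_or_lt with hD | hD
    · -- both zero: `r = s` and `s * (q - p) = 0`
      have e1 : q * (r - s) = 0 := by linarith
      have e2 : s * (q - p) = 0 := by linarith
      have e3 : r = s := by
        rcases mul_eq_zero.1 e1 with h | h
        · linarith
        · linarith
      rcases mul_eq_zero.1 e2 with h | h
      · refine ⟨0, 1 - p / q, le_rfl, zero_le_one, ?_, ?_, ?_, ?_⟩
        · rw [sub_nonneg, div_le_one hq]; exact h1
        · have : 0 ≤ p / q := div_nonneg h0 hq.le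
          linarith
        · field_simp
          ring
        · rw [e3, h]; ring
      · refine ⟨0, 0, le_rfl, zero_le_one, le_rfl, zero_le_one, ?_, by ring⟩
        have : q = p := by linarith
        rw [this]
    · set x : ℝ := s * (q - p) / (q * (r - s) + s * (q - p)) with hx
      have hx0 : 0 ≤ x := div_nonneg hB hD.le
      have hx1 : x ≤ 1 := by
        rw [hx, div_le_one hD]
        linarith
      have hxe : x * (q * (r - s) + s * (q - p)) = s * (q - p) := by
        rw [hx]
        field_simp
      refine ⟨x, 1 - p * (1 - x) / q, hx0, hx1, ?_, ?_, ?_, ?_⟩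
      · rw [sub_nonneg, div_le_one hq]
        nlinarith
      · have : 0 ≤ p * (1 - x) / q := div_nonneg (mul_nonneg h0 (by linarith)) hq.le
        linarith
      · field_simp
        ring
      · have : q * (r * x) = q * (s * (1 - p * (1 - x) / q)) := by
          have e4 : q * (s * (1 - p * (1 - x) / q)) = s * (q - p * (1 - x)) := by
            field_simp
          rw [e4]
          linear_combination hxe
        exact mul_left_cancel₀ hq.ne' this

theorem meetP {p q : ℝ} (h : p * q ≤ 0) : ∃ x : ℝ, 0 ≤ x ∧ x ≤ 1 ∧ p * (1 - x) + q * x = 0 := by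
  by_cases hpq : p = q
  · have : p = 0 := by
      rw [← hpq] at h
      nlinarith [mul_self_nonneg p, mul_self_eq_zero.1 (le_antisymm h (mul_self_nonneg p))]
    refine ⟨0, le_rfl, zero_le_one, ?_⟩
    rw [this]; ring
  · have hne : p - q ≠ 0 := sub_ne_zero.2 hpq
    refine ⟨p / (p - q), ?_, ?_, ?_⟩
    · rcases lt_or_gt_of_ne hne with h1 | h1
      · apply div_nonneg_of_nonpos _ h1.le
        by_contra hp
        push Not at hp
        nlinarith
      · apply div_nonneg _ h1.le
        by_contra hp
        push Not at hp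
        nlinarith
    · rcases lt_or_gt_of_ne hne with h1 | h1
      · rw [div_le_one_of_neg h1]
        by_contra hp
        push Not at hp
        nlinarith
      · rw [div_le_one h1]
        by_contra hp
        push Not at hp
        nlinarith
    · field_simp
      ring

/-- Two disjoint segments joined by four pairwise disjoint segments: the orders of the end points
on the two segments cannot be `0 < {1,2} < 3` and `2 < 3 < 0 < 1`. -/
theorem lemmaC (u d w e : Pl) (α β : Fin 4 → ℝ) (hα : ∀ t, α t ∈ Set.Icc (0:ℝ) 1)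
    (hβ : ∀ t, β t ∈ Set.Icc (0:ℝ) 1)
    (hab : Disjoint (segment ℝ u (u + d)) (segment ℝ w (w + e)))
    (hdis : ∀ s t, s ≠ t → Disjoint (segment ℝ (u + α s • d) (w + β s • e))
      (segment ℝ (u + α t • d) (w + β t • e)))
    (h01 : α 0 < α 1) (h13 : α 1 < α 3) (h02 : α 0 < α 2) (h23 : α 2 < α 3)
    (k23 : β 2 < β 3) (k30 : β 3 < β 0) (k01 : β 0 < β 1) : False := by
  have hmeet : ∀ s t, s ≠ t → ∀ x y : ℝ, 0 ≤ x → x ≤ 1 → 0 ≤ y → y ≤ 1 →
      (1 - x) * (u.1 + α s * d.1) + x * (w.1 + β s * e.1) =
        (1 - y) * (u.1 + α t * d.1) + y * (w.1 + β t * e.1) →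
      (1 - x) * (u.2 + α s * d.2) + x * (w.2 + β s * e.2) =
        (1 - y) * (u.2 + α t * d.2) + y * (w.2 + β t * e.2) → False := by
    intro s t hst x y hx0 hx1 hy0 hy1 h1 h2
    have m1 : (1 - x) • (u + α s • d) + x • (w + β s • e) ∈
        segment ℝ (u + α s • d) (w + β s • e) :=
      ⟨1 - x, x, by linarith, hx0, by ring, rfl⟩
    refine Set.disjoint_left.1 (hdis s t hst) m1 ?_
    · refine ⟨1 - y, y, by linarith, hy0, by ring, ?_⟩
      apply Prod.ext
      · simp only [Prod.fst_add, Prod.smul_fst, smul_eq_mul]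
        exact h1.symm
      · simp only [Prod.snd_add, Prod.smul_snd, smul_eq_mul]
        exact h2.symm
  by_cases hk : cr d e = 0
  · -- parallel
    have hd : d ≠ 0 := by
      intro hd
      apply hmeet 0 1 (by decide) 0 0 le_rfl zero_le_one le_rfl zero_le_one
      · rw [hd]; simp
      · rw [hd]; simp
    have he : e ≠ 0 := by
      intro he
      apply hmeet 0 1 (by decide) 1 1 zero_le_one le_rfl zero_le_one le_rfl
      · rw [he]; simp
      · rw [he]; simp
    unfold cr at hk
    obtain ⟨l, hl1, hl2⟩ : ∃ l : ℝ, e.1 = l * d.1 ∧ e.2 = l * d.2 := by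
      by_cases hd1 : d.1 = 0
      · have hd2 : d.2 ≠ 0 := by
          intro h
          exact hd (Prod.ext hd1 h)
        refine ⟨e.2 / d.2, ?_, by field_simp⟩
        rw [hd1, mul_zero]
        rw [hd1, zero_mul, zero_sub, neg_eq_zero] at hk
        rcases mul_eq_zero.1 hk with h | h
        · exact absurd h hd2
        · exact h
      · refine ⟨e.1 / d.1, by field_simp, ?_⟩
        have : e.2 * d.1 = e.1 * d.2 := by linarith
        field_simp
        linarith
    have key : ∀ s t, s ≠ t → (α s - α t) * (l * (β s - β t)) ≤ 0 → False := by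
      intro s t hst h
      obtain ⟨x, hx0, hx1, hx⟩ := meetP h
      apply hmeet s t hst x x hx0 hx1 hx0 hx1
      · rw [hl1]; linear_combination d.1 * hx
      · rw [hl2]; linear_combination d.2 * hx
    rcases le_total l 0 with h | h
    · apply key 0 1 (by decide)
      have h1 : α 0 - α 1 ≤ 0 := by linarith
      have h2 : 0 ≤ l * (β 0 - β 1) := mul_nonneg_of_nonpos_of_nonpos h (by linarith)
      exact mul_nonpos_of_nonpos_of_nonneg h1 h2
    · apply key 0 3 (by decide)
      have h1 : α 0 - α 3 ≤ 0 := by linarith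
      have h2 : 0 ≤ l * (β 0 - β 3) := mul_nonneg h (by linarith)
      exact mul_nonpos_of_nonpos_of_nonneg h1 h2
  · -- the lines meet
    set a0 : ℝ := cr (w - u) e / cr d e with ha0
    set b0 : ℝ := -(cr d (w - u)) / cr d e with hb0
    have hw1 : w.1 = u.1 + a0 * d.1 - b0 * e.1 := by
      rw [ha0, hb0]
      field_simp
      simp only [cr, Prod.fst_sub, Prod.snd_sub]
      ring
    have hw2 : w.2 = u.2 + a0 * d.2 - b0 * e.2 := by
      rw [ha0, hb0]
      field_simp
      simp only [cr, Prod.fst_sub, Prod.snd_sub]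
      ring
    have key : ∀ s t, s ≠ t → (∃ x y : ℝ, 0 ≤ x ∧ x ≤ 1 ∧ 0 ≤ y ∧ y ≤ 1 ∧
        (α s - a0) * (1 - x) = (α t - a0) * (1 - y) ∧ (β s - b0) * x = (β t - b0) * y) →
        False := by
      rintro s t hst ⟨x, y, hx0, hx1, hy0, hy1, h1, h2⟩
      apply hmeet s t hst x y hx0 hx1 hy0 hy1
      · rw [hw1]; linear_combination d.1 * h1 + e.1 * h2
      · rw [hw2]; linear_combination d.2 * h1 + e.2 * h2
    have kpp : ∀ s t, s ≠ t → 0 ≤ α s - a0 → α s ≤ α t → 0 ≤ β t - b0 → β t ≤ β s → False := by
      intro s t hst p1 p2 p3 p4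
      exact key s t hst (meetL p1 (by linarith) p3 (by linarith))
    have kpn : ∀ s t, s ≠ t → 0 ≤ α s - a0 → α s ≤ α t → β t - b0 ≤ 0 → β s ≤ β t → False := by
      intro s t hst p1 p2 p3 p4
      obtain ⟨x, y, q1, q2, q3, q4, q5, q6⟩ := meetL (p := α s - a0) (q := α t - a0)
        (r := -(β s - b0)) (s := -(β t - b0)) p1 (by linarith) (by linarith) (by linarith)
      exact key s t hst ⟨x, y, q1, q2, q3, q4, q5, by linarith⟩
    have knp : ∀ s t, s ≠ t → α s - a0 ≤ 0 → α t ≤ α s → 0 ≤ β t - b0 → β t ≤ β s → False := by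
      intro s t hst p1 p2 p3 p4
      obtain ⟨x, y, q1, q2, q3, q4, q5, q6⟩ := meetL (p := -(α s - a0)) (q := -(α t - a0))
        (r := (β s - b0)) (s := (β t - b0)) (by linarith) (by linarith) (by linarith) (by linarith)
      exact key s t hst ⟨x, y, q1, q2, q3, q4, by linarith, q6⟩
    have knn : ∀ s t, s ≠ t → α s - a0 ≤ 0 → α t ≤ α s → β t - b0 ≤ 0 → β s ≤ β t → False := by
      intro s t hst p1 p2 p3 p4
      obtain ⟨x, y, q1, q2, q3, q4, q5, q6⟩ := meetL (p := -(α s - a0)) (q := -(α t - a0))
        (r := -(β s - b0)) (s := -(β t - b0)) (by linarith) (by linarith) (by linarith)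
        (by linarith)
      exact key s t hst ⟨x, y, q1, q2, q3, q4, by linarith, by linarith⟩
    -- not both parameters in the unit interval
    have hout : ¬ (0 ≤ a0 ∧ a0 ≤ 1 ∧ 0 ≤ b0 ∧ b0 ≤ 1) := by
      rintro ⟨r1, r2, r3, r4⟩
      have m1 : u + a0 • d ∈ segment ℝ u (u + d) := by
        refine ⟨1 - a0, a0, by linarith, r1, by ring, ?_⟩
        apply Prod.ext
        · simp only [Prod.fst_add, Prod.smul_fst, smul_eq_mul]; ring
        · simp only [Prod.snd_add, Prod.smul_snd, smul_eq_mul]; ring
      refine Set.disjoint_left.1 hab m1 ?_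
      · refine ⟨1 - b0, b0, by linarith, r3, by ring, ?_⟩
        apply Prod.ext
        · simp only [Prod.fst_add, Prod.smul_fst, smul_eq_mul]; linarith
        · simp only [Prod.snd_add, Prod.smul_snd, smul_eq_mul]; linarith
    have A0 := hα 0
    have A1 := hα 1
    have A2 := hα 2
    have A3 := hα 3
    have B0 := hβ 0
    have B1 := hβ 1
    have B2 := hβ 2
    have B3 := hβ 3
    rcases lt_or_ge a0 0 with hc | hc
    · -- all `a_t > 0`
      rcases le_or_gt b0 (β 3) with h | h
      · exact kpp 0 3 (by decide) (by linarith [A0.1]) (by linarith) (by linarith) (by linarith)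
      · exact kpn 2 3 (by decide) (by linarith [A2.1]) (by linarith) (by linarith) (by linarith)
    rcases lt_or_ge 1 a0 with hc1 | hc1
    · -- all `a_t < 0`
      rcases le_or_gt (β 0) b0 with h | h
      · exact knn 3 0 (by decide) (by linarith [A3.2]) (by linarith) (by linarith) (by linarith)
      · exact knp 1 0 (by decide) (by linarith [A1.2]) (by linarith) (by linarith) (by linarith)
    rcases lt_or_ge b0 0 with hb | hb
    · -- all `b_t > 0`
      rcases le_or_gt a0 (α 0) with h | h
      · exact kpp 0 3 (by decide) (by linarith) (by linarith) (by linarith [B3.1]) (by linarith)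
      · rcases le_or_gt (α 1) a0 with h' | h'
        · exact knp 1 0 (by decide) (by linarith) (by linarith) (by linarith [B0.1]) (by linarith)
        · exact kpp 1 3 (by decide) (by linarith) (by linarith) (by linarith [B3.1]) (by linarith)
    rcases lt_or_ge 1 b0 with hb1 | hb1
    · -- all `b_t < 0`
      rcases le_or_gt (α 3) a0 with h | h
      · exact knn 3 0 (by decide) (by linarith) (by linarith) (by linarith [B0.2]) (by linarith)
      · rcases le_or_gt a0 (α 2) with h' | h'
        · exact kpn 2 3 (by decide) (by linarith) (by linarith) (by linarith [B3.2]) (by linarith)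
        · exact knn 2 0 (by decide) (by linarith) (by linarith) (by linarith [B0.2]) (by linarith)
    exact hout ⟨hc, hc1, hb, hb1⟩


end Pool.OneBend
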