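import Pool.Agent.Helper140.OneBend.Defs

namespace Pool.OneBend


theorem convex_aux {f : Pl → ℝ} (hf : ∀ (x y : Pl) (a b : ℝ), a + b = 1 →
    f (a • x + b • y) = a * f x + b * f y) : Convex ℝ {x : Pl | 0 < f x} := by
  intro x hx y hy a b ha hb hab
  have hx' : 0 < f x := hx
  have hy' : 0 < f y := hy
  show 0 < f (a • x + b • y)
  rw [hf x y a b hab]
  rcases ha.eq_or_lt with h | h
  · have : b = 1 := by linarith
    rw [← h, this]; simpa using hy'
  · have h1 : 0 < a * f x := mul_pos h hx'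
    have h2 : 0 ≤ b * f y := mul_nonneg hb hy'.le
    linarith

theorem sector_preconnected (O a b : Pl) (r : ℝ) (hr : 0 < r) :
    IsPreconnected ({x : Pl | Cyc (b - O) (x - O) (a - O)} ∩ Metric.ball O r) := by
  have hU : Convex ℝ {x : Pl | 0 < cr (b - O) (x - O)} := by
    apply convex_aux (f := fun x => cr (b - O) (x - O))
    intro x y s t hst
    simp only [cr, Prod.fst_sub, Prod.snd_sub, Prod.fst_add, Prod.snd_add, Prod.smul_fst,
      Prod.smul_snd, smul_eq_mul]
    linear_combination ((b.1 - O.1) * O.2 - (b.2 - O.2) * O.1) * hst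
  have hW : Convex ℝ {x : Pl | 0 < cr (x - O) (a - O)} := by
    apply convex_aux (f := fun x => cr (x - O) (a - O))
    intro x y s t hst
    simp only [cr, Prod.fst_sub, Prod.snd_sub, Prod.fst_add, Prod.snd_add, Prod.smul_fst,
      Prod.smul_snd, smul_eq_mul]
    linear_combination (-(a.1 - O.1) * O.2 + (a.2 - O.2) * O.1) * hst
  have hB : Convex ℝ (Metric.ball O r) := convex_ball O r
  by_cases h : 0 < cr (a - O) (b - O)
  · have hS : {x : Pl | Cyc (b - O) (x - O) (a - O)} ∩ Metric.ball O r =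
        ({x : Pl | 0 < cr (b - O) (x - O)} ∩ Metric.ball O r) ∪
        ({x : Pl | 0 < cr (x - O) (a - O)} ∩ Metric.ball O r) := by
      ext x
      constructor
      · rintro ⟨hx, hxb⟩
        rcases hx with h1 | h1 | h1
        · exact Or.inl ⟨h1.1, hxb⟩
        · exact Or.inr ⟨h1.1, hxb⟩
        · exact Or.inl ⟨h1.2, hxb⟩
      · rintro (⟨hx, hxb⟩ | ⟨hx, hxb⟩)
        · exact ⟨Or.inr (Or.inr ⟨h, hx⟩), hxb⟩
        · exact ⟨Or.inr (Or.inl ⟨hx, h⟩), hxb⟩
    rw [hS]
    set v : Pl := (a - O) + (b - O) with hv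
    set ε : ℝ := r / (2 * (‖v‖ + 1)) with hε
    have hvn : 0 ≤ ‖v‖ := norm_nonneg v
    have hεpos : 0 < ε := by positivity
    have hball : O - ε • v ∈ Metric.ball O r := by
      rw [Metric.mem_ball, dist_eq_norm]
      have : O - ε • v - O = -(ε • v) := by abel
      rw [this, norm_neg, norm_smul, Real.norm_eq_abs, abs_of_pos hεpos, hε]
      rw [div_mul_eq_mul_div, div_lt_iff₀ (by positivity)]
      nlinarith
    have hpU : 0 < cr (b - O) (O - ε • v - O) := by
      have : cr (b - O) (O - ε • v - O) = ε * cr (a - O) (b - O) := by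
        simp only [cr, hv, Prod.fst_sub, Prod.snd_sub, Prod.fst_add, Prod.snd_add, Prod.smul_fst,
          Prod.smul_snd, smul_eq_mul]
        ring
      rw [this]; positivity
    have hpW : 0 < cr (O - ε • v - O) (a - O) := by
      have : cr (O - ε • v - O) (a - O) = ε * cr (a - O) (b - O) := by
        simp only [cr, hv, Prod.fst_sub, Prod.snd_sub, Prod.fst_add, Prod.snd_add, Prod.smul_fst,
          Prod.smul_snd, smul_eq_mul]
        ring
      rw [this]; positivity
    exact IsPreconnected.union (O - ε • v) ⟨hpU, hball⟩ ⟨hpW, hball⟩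
      (hU.inter hB).isPreconnected (hW.inter hB).isPreconnected
  · have hS : {x : Pl | Cyc (b - O) (x - O) (a - O)} ∩ Metric.ball O r =
        ({x : Pl | 0 < cr (b - O) (x - O)} ∩ {x : Pl | 0 < cr (x - O) (a - O)}) ∩
          Metric.ball O r := by
      ext x
      constructor
      · rintro ⟨hx, hxb⟩
        rcases hx with h1 | h1 | h1
        · exact ⟨⟨h1.1, h1.2⟩, hxb⟩
        · exact absurd h1.2 h
        · exact absurd h1.1 h
      · rintro ⟨⟨hx1, hx2⟩, hxb⟩
        exact ⟨Or.inl ⟨hx1, hx2⟩, hxb⟩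
    rw [hS]
    exact ((hU.inter hW).inter hB).isPreconnected

theorem sector_disjoint (O a b x : Pl) (hx : Cyc (b - O) (x - O) (a - O)) :
    x ∉ segment ℝ O a ∧ x ∉ segment ℝ O b := by
  constructor
  · rintro ⟨s, t, hs, ht, hst, rfl⟩
    have h1 : cr (s • O + t • a - O) (a - O) = 0 := by
      simp only [cr, Prod.fst_sub, Prod.snd_sub, Prod.fst_add, Prod.snd_add, Prod.smul_fst,
        Prod.smul_snd, smul_eq_mul]
      linear_combination (O.1 * (a.2 - O.2) - O.2 * (a.1 - O.1)) * hst
    have h2 : cr (b - O) (s • O + t • a - O) = - (t * cr (a - O) (b - O)) := by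
      simp only [cr, Prod.fst_sub, Prod.snd_sub, Prod.fst_add, Prod.snd_add, Prod.smul_fst,
        Prod.smul_snd, smul_eq_mul]
      linear_combination ((b.1 - O.1) * O.2 - (b.2 - O.2) * O.1) * hst
    rcases hx with h | h | h
    · rw [h1] at h; exact lt_irrefl _ h.2
    · rw [h1] at h; exact lt_irrefl _ h.1
    · rw [h2] at h
      have := mul_nonneg ht h.1.le
      linarith [h.2]
  · rintro ⟨s, t, hs, ht, hst, rfl⟩
    have h1 : cr (b - O) (s • O + t • b - O) = 0 := by
      simp only [cr, Prod.fst_sub, Prod.snd_sub, Prod.fst_add, Prod.snd_add, Prod.smul_fst,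
        Prod.smul_snd, smul_eq_mul]
      linear_combination ((b.1 - O.1) * O.2 - (b.2 - O.2) * O.1) * hst
    have h2 : cr (s • O + t • b - O) (a - O) = - (t * cr (a - O) (b - O)) := by
      simp only [cr, Prod.fst_sub, Prod.snd_sub, Prod.fst_add, Prod.snd_add, Prod.smul_fst,
        Prod.smul_snd, smul_eq_mul]
      linear_combination (O.1 * (a.2 - O.2) - O.2 * (a.1 - O.1)) * hst
    rcases hx with h | h | h
    · rw [h1] at h; exact lt_irrefl _ h.1
    · rw [h2] at h
      have := mul_nonneg ht h.2.le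
      linarith [h.1]
    · rw [h1] at h; exact lt_irrefl _ h.2

theorem sector_scale (O a b c : Pl) (t : ℝ) (ht : 0 < t) (hx : Cyc (b - O) (c - O) (a - O)) :
    Cyc (b - O) ((O + t • (c - O)) - O) (a - O) := by
  have e : (O + t • (c - O)) - O = t • (c - O) := by abel
  have h1 : cr (b - O) (t • (c - O)) = t * cr (b - O) (c - O) := by
    simp only [cr, Prod.fst_sub, Prod.snd_sub, Prod.smul_fst, Prod.smul_snd, smul_eq_mul]; ring
  have h2 : cr (t • (c - O)) (a - O) = t * cr (c - O) (a - O) := by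
    simp only [cr, Prod.fst_sub, Prod.snd_sub, Prod.smul_fst, Prod.smul_snd, smul_eq_mul]; ring
  rw [e]
  unfold Cyc
  rw [h1, h2]
  rcases hx with h | h | h
  · exact Or.inl ⟨mul_pos ht h.1, mul_pos ht h.2⟩
  · exact Or.inr (Or.inl ⟨mul_pos ht h.1, h.2⟩)
  · exact Or.inr (Or.inr ⟨h.1, mul_pos ht h.2⟩)


end Pool.OneBend
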