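import Pool.Agent.Helper140.OneBend.Parity
import Pool.Agent.Helper140.OneBend.Sector

namespace Pool.OneBend


/-- TARGET. Two closed polygons `K = O a M b` and `L = O c N d` which touch at `O` (the legs `c`,
`d` lie on the same side of the legs `a`, `b`) cannot cross exactly once. -/
theorem lemmaX (O a b c d M N X : Pl)
    (hs : (Cyc (b - O) (c - O) (a - O) ∧ Cyc (b - O) (d - O) (a - O)) ∨
      (Cyc (a - O) (c - O) (b - O) ∧ Cyc (a - O) (d - O) (b - O)))
    (hXa : X ∈ openSegment ℝ a M) (hXd : X ∈ openSegment ℝ N d)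
    (hcr : cr (M - a) (d - N) ≠ 0)
    (hOaM : O ∉ segment ℝ a M) (hOMb : O ∉ segment ℝ M b)
    (h1 : Disjoint (segment ℝ O a) (segment ℝ c N)) (h2 : Disjoint (segment ℝ O a) (segment ℝ N d))
    (h3 : Disjoint (segment ℝ O b) (segment ℝ c N)) (h4 : Disjoint (segment ℝ O b) (segment ℝ N d))
    (h5 : Disjoint (segment ℝ a M) (segment ℝ c N)) (h6 : Disjoint (segment ℝ M b) (segment ℝ c N))
    (h7 : Disjoint (segment ℝ M b) (segment ℝ N d))
    (h8 : segment ℝ a M ∩ segment ℝ N d ⊆ {X})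
    (h9 : Disjoint (segment ℝ O c) (segment ℝ a M)) (h10 : Disjoint (segment ℝ O c) (segment ℝ M b))
    (h11 : Disjoint (segment ℝ O d) (segment ℝ a M))
    (h12 : Disjoint (segment ℝ O d) (segment ℝ M b)) : False := by
  have hXNd : X ∈ segment ℝ N d := openSegment_subset_segment ℝ N d hXd
  have hXOa : X ∉ segment ℝ O a := fun h => Set.disjoint_left.1 h2 h hXNd
  have hXMb : X ∉ segment ℝ M b := fun h => Set.disjoint_left.1 h7 h hXNd
  have hXbO : X ∉ segment ℝ b O := fun h => by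
    rw [segment_symm] at h
    exact Set.disjoint_left.1 h4 h hXNd
  obtain ⟨χ, hloc, ε, hε, hflip⟩ := exists_parity O a M b X (d - N) hXa hXOa hXMb hXbO hcr
  obtain ⟨P, hPc, hPd, hPpre, hPdis, hPsc⟩ : ∃ P : Pl → Prop, P c ∧ P d ∧
      (∀ r > 0, IsPreconnected ({x : Pl | P x} ∩ Metric.ball O r)) ∧
      (∀ x, P x → x ∉ segment ℝ O a ∧ x ∉ segment ℝ O b) ∧
      (∀ x, ∀ t : ℝ, 0 < t → P x → P (O + t • (x - O))) := by
    rcases hs with hs | hs
    · exact ⟨fun x => Cyc (b - O) (x - O) (a - O), hs.1, hs.2,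
        fun r hr => sector_preconnected O a b r hr,
        fun x hx => sector_disjoint O a b x hx,
        fun x t ht hx => sector_scale O a b x t ht hx⟩
    · exact ⟨fun x => Cyc (a - O) (x - O) (b - O), hs.1, hs.2,
        fun r hr => sector_preconnected O b a r hr,
        fun x hx => (sector_disjoint O b a x hx).symm,
        fun x t ht hx => sector_scale O b a x t ht hx⟩
  -- constancy on preconnected sets
  have hconst : ∀ S : Set Pl, IsPreconnected S →
      (∀ x ∈ S, x ∉ segment ℝ O a ∧ x ∉ segment ℝ a M ∧ x ∉ segment ℝ M b ∧ x ∉ segment ℝ O b) →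
      ∀ x ∈ S, ∀ y ∈ S, χ x = χ y := by
    intro S hS hSK x hx y hy
    refine hS.constant (f := χ) ?_ hx hy
    intro z hz
    obtain ⟨k1, k2, k3, k4⟩ := hSK z hz
    have hz' := hloc z k1 k2 k3 (by rwa [segment_symm])
    have : ContinuousAt χ z := by
      refine Filter.Tendsto.congr' (f₁ := fun _ => χ z) ?_ tendsto_const_nhds
      filter_upwards [hz'] with w hw
      exact hw.symm
    exact this.continuousWithinAt
  have hseg : ∀ p q : Pl,
      (∀ x ∈ segment ℝ p q, x ∉ segment ℝ O a ∧ x ∉ segment ℝ a M ∧ x ∉ segment ℝ M b ∧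
        x ∉ segment ℝ O b) → χ p = χ q := by
    intro p q h
    exact hconst _ (convex_segment p q).isPreconnected h p (left_mem_segment ℝ p q) q
      (right_mem_segment ℝ p q)
  -- small ball around `O`
  obtain ⟨r, hr, hball⟩ : ∃ r > 0, ∀ x ∈ Metric.ball O r, x ∉ segment ℝ a M ∧ x ∉ segment ℝ M b := by
    have hc1 : IsClosed (segment ℝ a M) := by
      rw [← convexHull_pair]
      exact (Set.Finite.isCompact_convexHull ℝ (Set.toFinite _)).isClosed
    have hc2 : IsClosed (segment ℝ M b) := by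
      rw [← convexHull_pair]
      exact (Set.Finite.isCompact_convexHull ℝ (Set.toFinite _)).isClosed
    have ho : IsOpen ((segment ℝ a M)ᶜ ∩ (segment ℝ M b)ᶜ) := hc1.isOpen_compl.inter hc2.isOpen_compl
    obtain ⟨r, hr, h⟩ := Metric.isOpen_iff.1 ho O ⟨hOaM, hOMb⟩
    exact ⟨r, hr, fun x hx => h hx⟩
  -- points of legs
  have hleg : ∀ q : Pl, P q → Disjoint (segment ℝ O q) (segment ℝ a M) →
      Disjoint (segment ℝ O q) (segment ℝ M b) → ∀ e : ℝ, 0 < e → e ≤ 1 →
      χ (O + e • (q - O)) = χ q := by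
    intro q hq hq1 hq2 e he he1
    apply hseg
    intro x hx
    obtain ⟨t, ht0, ht1, rfl⟩ : ∃ t : ℝ, 0 < t ∧ t ≤ 1 ∧ x = O + t • (q - O) := by
      rw [segment_eq_image'] at hx
      obtain ⟨u, ⟨hu0, hu1⟩, rfl⟩ := hx
      refine ⟨e + u * (1 - e), by nlinarith [mul_nonneg hu0 (sub_nonneg.2 he1)],
        by nlinarith [mul_nonneg (sub_nonneg.2 hu1) (sub_nonneg.2 he1)], ?_⟩
      module
    have hxs : O + t • (q - O) ∈ segment ℝ O q := by
      rw [segment_eq_image']
      exact ⟨t, ⟨ht0.le, ht1⟩, rfl⟩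
    have h := hPdis _ (hPsc q t ht0 hq)
    exact ⟨h.1, Set.disjoint_left.1 hq1 hxs, Set.disjoint_left.1 hq2 hxs, h.2⟩
  have hdN : d - N ≠ 0 := by
    intro h
    apply hcr
    rw [h]
    simp [cr]
  obtain ⟨s, ⟨hs0, hs1⟩, hXs⟩ : ∃ s : ℝ, s ∈ Set.Ioo (0:ℝ) 1 ∧ N + s • (d - N) = X := by
    rw [openSegment_eq_image'] at hXd
    exact hXd
  -- points on N d
  have hNd : ∀ u : ℝ, 0 ≤ u → u ≤ 1 → u ≠ s → (N + u • (d - N)) ∉ segment ℝ O a ∧
      (N + u • (d - N)) ∉ segment ℝ a M ∧ (N + u • (d - N)) ∉ segment ℝ M b ∧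
      (N + u • (d - N)) ∉ segment ℝ O b := by
    intro u hu0 hu1 hus
    have hxs : N + u • (d - N) ∈ segment ℝ N d := by
      rw [segment_eq_image']
      exact ⟨u, ⟨hu0, hu1⟩, rfl⟩
    refine ⟨fun h => Set.disjoint_left.1 h2 h hxs, fun h => ?_,
      fun h => Set.disjoint_left.1 h7 h hxs, fun h => Set.disjoint_left.1 h4 h hxs⟩
    have h' : N + u • (d - N) = X := h8 ⟨h, hxs⟩
    rw [← hXs] at h'
    have h'' : (u - s) • (d - N) = 0 := by
      have := add_left_cancel h'
      rw [sub_smul, this, sub_self]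
    rcases smul_eq_zero.1 h'' with h0 | h0
    · exact hus (sub_eq_zero.1 h0)
    · exact hdN h0
  have hNdseg : ∀ u v : ℝ, 0 ≤ u → u ≤ v → v ≤ 1 → (v < s ∨ s < u) →
      χ (N + u • (d - N)) = χ (N + v • (d - N)) := by
    intro u v hu huv hv hsuv
    apply hseg
    intro x hx
    obtain ⟨w, hw0, hw1, rfl⟩ : ∃ w : ℝ, u ≤ w ∧ w ≤ v ∧ x = N + w • (d - N) := by
      rw [segment_eq_image'] at hx
      obtain ⟨z, ⟨hz0, hz1⟩, rfl⟩ := hx
      refine ⟨u + z * (v - u), by nlinarith [mul_nonneg hz0 (sub_nonneg.2 huv)],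
        by nlinarith [mul_nonneg (sub_nonneg.2 hz1) (sub_nonneg.2 huv)], ?_⟩
      module
    apply hNd w (hu.trans hw0) (hw1.trans hv)
    rintro rfl
    rcases hsuv with h | h
    · exact absurd (hw1.trans_lt h) (lt_irrefl _)
    · exact absurd (h.trans_le hw0) (lt_irrefl _)
  -- choose t
  obtain ⟨t, ht0, htε, hts, hts1⟩ : ∃ t : ℝ, 0 < t ∧ t < ε ∧ t < s ∧ t < 1 - s := by
    refine ⟨min ε (min s (1 - s)) / 2, ?_, ?_, ?_, ?_⟩
    · have : 0 < min ε (min s (1 - s)) := lt_min hε (lt_min hs0 (by linarith))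
      linarith
    · have : 0 < min ε (min s (1 - s)) := lt_min hε (lt_min hs0 (by linarith))
      have h' : min ε (min s (1 - s)) ≤ ε := min_le_left _ _
      linarith
    · have : 0 < min ε (min s (1 - s)) := lt_min hε (lt_min hs0 (by linarith))
      have h' : min ε (min s (1 - s)) ≤ s := (min_le_right _ _).trans (min_le_left _ _)
      linarith
    · have : 0 < min ε (min s (1 - s)) := lt_min hε (lt_min hs0 (by linarith))
      have h' : min ε (min s (1 - s)) ≤ 1 - s := (min_le_right _ _).trans (min_le_right _ _)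
      linarith
  have hXm : X - t • (d - N) = N + (s - t) • (d - N) := by rw [← hXs]; module
  have hXp : X + t • (d - N) = N + (s + t) • (d - N) := by rw [← hXs]; module
  have e1 : χ N = χ (X - t • (d - N)) := by
    rw [hXm]
    have := hNdseg 0 (s - t) le_rfl (by linarith) (by linarith) (Or.inl (by linarith))
    rwa [zero_smul, add_zero] at this
  have e2 : χ (X + t • (d - N)) = χ d := by
    rw [hXp]
    have := hNdseg (s + t) 1 (by linarith) (by linarith) le_rfl (Or.inr (by linarith))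
    rwa [one_smul, add_sub_cancel] at this
  have e3 : χ c = χ N := by
    apply hseg
    intro x hx
    exact ⟨fun h => Set.disjoint_left.1 h1 h hx, fun h => Set.disjoint_left.1 h5 h hx,
      fun h => Set.disjoint_left.1 h6 h hx, fun h => Set.disjoint_left.1 h3 h hx⟩
  -- choose e
  obtain ⟨e, he0, he1, hec, hed⟩ : ∃ e : ℝ, 0 < e ∧ e ≤ 1 ∧ O + e • (c - O) ∈ Metric.ball O r ∧
      O + e • (d - O) ∈ Metric.ball O r := by
    have hk : 0 < ‖c - O‖ + ‖d - O‖ + 1 := by positivity
    refine ⟨min 1 (r / (2 * (‖c - O‖ + ‖d - O‖ + 1))), lt_min one_pos (by positivity),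
      min_le_left _ _, ?_, ?_⟩
    · rw [Metric.mem_ball, dist_eq_norm, add_sub_cancel_left, norm_smul, Real.norm_eq_abs,
        abs_of_pos (lt_min one_pos (by positivity))]
      calc min 1 (r / (2 * (‖c - O‖ + ‖d - O‖ + 1))) * ‖c - O‖
          ≤ r / (2 * (‖c - O‖ + ‖d - O‖ + 1)) * (‖c - O‖ + ‖d - O‖ + 1) := by
            apply mul_le_mul (min_le_right _ _) _ (norm_nonneg _) (by positivity)
            linarith [norm_nonneg (d - O)]
        _ = r / 2 := by field_simp
        _ < r := by linarith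
    · rw [Metric.mem_ball, dist_eq_norm, add_sub_cancel_left, norm_smul, Real.norm_eq_abs,
        abs_of_pos (lt_min one_pos (by positivity))]
      calc min 1 (r / (2 * (‖c - O‖ + ‖d - O‖ + 1))) * ‖d - O‖
          ≤ r / (2 * (‖c - O‖ + ‖d - O‖ + 1)) * (‖c - O‖ + ‖d - O‖ + 1) := by
            apply mul_le_mul (min_le_right _ _) _ (norm_nonneg _) (by positivity)
            linarith [norm_nonneg (c - O)]
        _ = r / 2 := by field_simp
        _ < r := by linarith
  have e4 : χ (O + e • (c - O)) = χ c := hleg c hPc h9 h10 e he0 he1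
  have e5 : χ (O + e • (d - O)) = χ d := hleg d hPd h11 h12 e he0 he1
  have e6 : χ (O + e • (c - O)) = χ (O + e • (d - O)) := by
    refine hconst _ (hPpre r hr) ?_ _ ⟨hPsc c e he0 hPc, hec⟩ _ ⟨hPsc d e he0 hPd, hed⟩
    rintro x ⟨hx1, hx2⟩
    exact ⟨(hPdis x hx1).1, (hball x hx2).1, (hball x hx2).2, (hPdis x hx1).2⟩
  apply hflip t ht0 htε
  rw [e2, ← e5, ← e6, e4, e3, e1]


end Pool.OneBend
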