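import Pool.Agent.Helper140.OneBend.Defs

namespace Pool.OneBend


private theorem caseA (τ : Fin 4 → Fin 4 → ℝ) (hτ : ∀ s, Function.Injective (τ s))
    (H : ∀ s s' t t' : Fin 4, s < s' → t ≠ t' → ((s ≤ t ∧ t < s') ↔ ¬ (s ≤ t' ∧ t' < s')) →
      ¬ (τ s t < τ s t' ∧ τ s' t < τ s' t')) (a : τ 0 0 < τ 0 1) :
    τ 0 1 < τ 0 2 ∧ τ 0 1 < τ 0 3 ∧ τ 2 2 < τ 2 0 ∧ τ 2 3 < τ 2 0 ∧ τ 2 0 < τ 2 1 ∧
      ((τ 0 2 < τ 0 3 ∧ τ 2 2 < τ 2 3) ∨ (τ 0 3 < τ 0 2 ∧ τ 2 3 < τ 2 2)) := by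
  have hne : ∀ s t t', t ≠ t' → τ s t ≠ τ s t' := fun s t t' h h' => h (hτ s h')
  have oppL : ∀ s s' t t' : Fin 4, s < s' → t ≠ t' →
      ((s ≤ t ∧ t < s') ↔ ¬ (s ≤ t' ∧ t' < s')) → τ s t < τ s t' → τ s' t' < τ s' t := by
    intro s s' t t' h1 h2 h3 h4
    by_contra h5
    exact H s s' t t' h1 h2 h3 ⟨h4, lt_of_le_of_ne (not_lt.1 h5) (hne _ _ _ h2)⟩
  have oppR : ∀ s s' t t' : Fin 4, s < s' → t ≠ t' →
      ((s ≤ t ∧ t < s') ↔ ¬ (s ≤ t' ∧ t' < s')) → τ s' t < τ s' t' → τ s t' < τ s t := by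
    intro s s' t t' h1 h2 h3 h4
    by_contra h5
    exact H s s' t t' h1 h2 h3 ⟨lt_of_le_of_ne (not_lt.1 h5) (hne _ _ _ h2), h4⟩
  have b01 : τ 1 1 < τ 1 0 := oppL 0 1 0 1 (by decide) (by decide) (by decide) a
  have c01 : τ 2 0 < τ 2 1 := oppL 1 2 1 0 (by decide) (by decide) (by decide) b01
  have key : ∀ u : Fin 4, (u = 2 ∨ u = 3) → τ 0 1 < τ 0 u ∧ τ 2 u < τ 2 0 := by
    intro u hu
    have a0u : τ 0 0 < τ 0 u := by
      by_contra h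
      have h1 : τ 0 u < τ 0 0 := lt_of_le_of_ne (not_lt.1 h)
        (hne _ _ _ (by rcases hu with rfl | rfl <;> decide))
      have h2 : τ 1 0 < τ 1 u := oppL 0 1 u 0 (by decide)
        (by rcases hu with rfl | rfl <;> decide) (by rcases hu with rfl | rfl <;> decide) h1
      have h3 : τ 2 1 < τ 2 u := oppL 0 2 u 1 (by decide)
        (by rcases hu with rfl | rfl <;> decide) (by rcases hu with rfl | rfl <;> decide)
        (by linarith)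
      have h4 : τ 1 u < τ 1 1 := oppR 1 2 1 u (by decide)
        (by rcases hu with rfl | rfl <;> decide) (by rcases hu with rfl | rfl <;> decide) h3
      linarith
    have c0u : τ 2 u < τ 2 0 := oppL 0 2 0 u (by decide)
      (by rcases hu with rfl | rfl <;> decide) (by rcases hu with rfl | rfl <;> decide) a0u
    have a1u : τ 0 1 < τ 0 u := oppR 0 2 u 1 (by decide)
      (by rcases hu with rfl | rfl <;> decide) (by rcases hu with rfl | rfl <;> decide)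
      (by linarith)
    exact ⟨a1u, c0u⟩
  obtain ⟨k1, k2⟩ := key 2 (Or.inl rfl)
  obtain ⟨k3, k4⟩ := key 3 (Or.inr rfl)
  refine ⟨k1, k3, k2, k4, c01, ?_⟩
  rcases lt_or_gt_of_ne (hne 0 2 3 (by decide)) with h | h
  · left
    have h1 : τ 3 3 < τ 3 2 := oppL 0 3 2 3 (by decide) (by decide) (by decide) h
    exact ⟨h, oppR 2 3 3 2 (by decide) (by decide) (by decide) h1⟩
  · right
    have h1 : τ 3 2 < τ 3 3 := oppL 0 3 3 2 (by decide) (by decide) (by decide) h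
    exact ⟨h, oppR 2 3 2 3 (by decide) (by decide) (by decide) h1⟩

/-- Purely combinatorial lemma (checked by computer over all 24^4 orders). -/
theorem order_comb (τ : Fin 4 → Fin 4 → ℝ) (hτ : ∀ s, Function.Injective (τ s))
    (H : ∀ s s' t t' : Fin 4, s < s' → t ≠ t' → ((s ≤ t ∧ t < s') ↔ ¬ (s ≤ t' ∧ t' < s')) →
      ¬ (τ s t < τ s t' ∧ τ s' t < τ s' t')) :
    ∃ π : Fin 4 → Fin 4, Function.Injective π ∧
      τ 0 (π 0) < τ 0 (π 1) ∧ τ 0 (π 1) < τ 0 (π 3) ∧ τ 0 (π 0) < τ 0 (π 2) ∧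
      τ 0 (π 2) < τ 0 (π 3) ∧ τ 2 (π 2) < τ 2 (π 3) ∧ τ 2 (π 3) < τ 2 (π 0) ∧
      τ 2 (π 0) < τ 2 (π 1) := by
  have hne : ∀ s t t', t ≠ t' → τ s t ≠ τ s t' := fun s t t' h h' => h (hτ s h')
  rcases lt_or_gt_of_ne (hne 0 0 1 (by decide)) with a | a
  · obtain ⟨h1, h2, h3, h4, h5, h6⟩ := caseA τ hτ H a
    rcases h6 with ⟨h6, h7⟩ | ⟨h6, h7⟩
    · refine ⟨![0, 1, 2, 3], by decide, ?_⟩
      show τ 0 0 < τ 0 1 ∧ τ 0 1 < τ 0 3 ∧ τ 0 0 < τ 0 2 ∧ τ 0 2 < τ 0 3 ∧ τ 2 2 < τ 2 3 ∧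
        τ 2 3 < τ 2 0 ∧ τ 2 0 < τ 2 1
      refine ⟨?_, ?_, ?_, ?_, ?_, ?_, ?_⟩ <;> linarith
    · refine ⟨![0, 1, 3, 2], by decide, ?_⟩
      show τ 0 0 < τ 0 1 ∧ τ 0 1 < τ 0 2 ∧ τ 0 0 < τ 0 3 ∧ τ 0 3 < τ 0 2 ∧ τ 2 3 < τ 2 2 ∧
        τ 2 2 < τ 2 0 ∧ τ 2 0 < τ 2 1
      refine ⟨?_, ?_, ?_, ?_, ?_, ?_, ?_⟩ <;> linarith
  · obtain ⟨h1, h2, h3, h4, h5, h6⟩ := caseA (fun s t => - τ s t)
      (fun s t t' h => hτ s (neg_injective h))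
      (fun s s' t t' h1 h2 h3 ⟨h4, h5⟩ => H s s' t' t h1 h2.symm (by tauto)
        ⟨neg_lt_neg_iff.1 h4, neg_lt_neg_iff.1 h5⟩) (by simpa using a)
    simp only [neg_lt_neg_iff] at h1 h2 h3 h4 h5 h6
    rcases h6 with ⟨h6, h7⟩ | ⟨h6, h7⟩
    · refine ⟨![3, 2, 1, 0], by decide, ?_⟩
      show τ 0 3 < τ 0 2 ∧ τ 0 2 < τ 0 0 ∧ τ 0 3 < τ 0 1 ∧ τ 0 1 < τ 0 0 ∧ τ 2 1 < τ 2 0 ∧
        τ 2 0 < τ 2 3 ∧ τ 2 3 < τ 2 2
      refine ⟨?_, ?_, ?_, ?_, ?_, ?_, ?_⟩ <;> linarith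
    · refine ⟨![2, 3, 1, 0], by decide, ?_⟩
      show τ 0 2 < τ 0 3 ∧ τ 0 3 < τ 0 0 ∧ τ 0 2 < τ 0 1 ∧ τ 0 1 < τ 0 0 ∧ τ 2 1 < τ 2 0 ∧
        τ 2 0 < τ 2 2 ∧ τ 2 2 < τ 2 3
      refine ⟨?_, ?_, ?_, ?_, ?_, ?_, ?_⟩ <;> linarith

theorem selection (φ : Fin 4 × Fin 5 → Option (Fin 4 × Fin 21))
    (ψ : Fin 4 × Fin 21 → Option (Fin 4 × Fin 5)) :
    ∃ (f : Fin 4 → Fin 5) (g : Fin 4 → Fin 21),
      ∀ s t, φ (s, f s) ≠ some (t, g t) ∧ ψ (t, g t) ≠ some (s, f s) := by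
  have h1 : ∀ t : Fin 4, ∃ x : Fin 21, ∀ p, φ p ≠ some (t, x) := by
    intro t
    by_contra hcon
    push Not at hcon
    choose c hc using hcon
    have hinj : Function.Injective c := by
      intro x y hxy
      have h2 := hc x
      rw [hxy, hc y] at h2
      simpa using h2.symm
    have := Fintype.card_le_of_injective c hinj
    simp at this
  choose g hg using h1
  have h2 : ∀ s : Fin 4, ∃ y : Fin 5, ∀ t, ψ (t, g t) ≠ some (s, y) := by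
    intro s
    by_contra hcon
    push Not at hcon
    choose c hc using hcon
    have hinj : Function.Injective c := by
      intro x y hxy
      have h2 := hc x
      rw [hxy, hc y] at h2
      simpa using h2.symm
    have := Fintype.card_le_of_injective c hinj
    simp at this
  choose f hf using h2
  exact ⟨f, g, fun s t => ⟨hg t _, hf s t⟩⟩


end Pool.OneBend
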