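import Pool.Agent.Helper140.OneBend.PlanarRef

namespace Pool.OneBend


/-! AUXILIARY statements proved by another job; leave their sorry. -/

/-! AUXILIARY statements proved by another job; leave their sorry. -/

/-! TARGETS -/

/-- Regions of the plane with compact closure, seen in the sphere. -/
theorem onePoint_region (K : Set Pl) (hK : IsOpen K) (hc : IsCompact (closure K)) :
    IsOpen ((fun x : Pl => (x : OnePoint Pl)) '' K) ∧
    closure ((fun x : Pl => (x : OnePoint Pl)) '' K) =
      (fun x : Pl => (x : OnePoint Pl)) '' closure K ∧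
    frontier ((fun x : Pl => (x : OnePoint Pl)) '' K) =
      (fun x : Pl => (x : OnePoint Pl)) '' frontier K := by
  have hcont : Continuous (fun x : Pl => (x : OnePoint Pl)) := OnePoint.continuous_coe
  have hinj : Function.Injective (fun x : Pl => (x : OnePoint Pl)) := OnePoint.coe_injective
  have hop : IsOpen ((fun x : Pl => (x : OnePoint Pl)) '' K) :=
    OnePoint.isOpenEmbedding_coe.isOpenMap K hK
  have hcl : closure ((fun x : Pl => (x : OnePoint Pl)) '' K) =
      (fun x : Pl => (x : OnePoint Pl)) '' closure K := by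
    apply Set.Subset.antisymm
    · exact closure_minimal (Set.image_mono subset_closure) (hc.image hcont).isClosed
    · exact image_closure_subset_closure_image hcont
  refine ⟨hop, hcl, ?_⟩
  rw [hop.frontier_eq, hK.frontier_eq, hcl, Set.image_sdiff hinj]

/-- The finger regions of a drawing equivalent to the reference drawing. -/
theorem transfer (A : Kt → Prop) (c : Fin 4 × Fin 5 → Fin 4 × Fin 21 → Kt) (D : Drawing Vx)
    (hD : SphereEquiv (Gr A) (Dr c) D) :
    ∃ F : Kt → Set (OnePoint Pl), (∀ k, IsOpen (F k)) ∧ (∀ k, IsPreconnected (F k)) ∧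
      (∀ k, A k → frontier (F k) = (fun x : Pl => (x : OnePoint Pl)) ''
        (D.curve (Vx.leaf k false) (Vx.leaf k true) ∪
          (D.curve Vx.hub (Vx.leaf k false) ∪ D.curve Vx.hub (Vx.leaf k true)))) ∧
      (∀ i j, (D.pos (Vx.y i j) : OnePoint Pl) ∈ F (c i j)) ∧
      (∀ k k', k ≠ k' → closure (F k) ∩ closure (F k') ⊆ {(D.pos Vx.hub : OnePoint Pl)}) ∧
      (∀ k k' b, k ≠ k' → (D.pos (Vx.leaf k' b) : OnePoint Pl) ∉ closure (F k)) ∧
      (∀ k k' b, ∀ x ∈ D.curve Vx.hub (Vx.leaf k' b), (x : OnePoint Pl) ∉ F k) := by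
  obtain ⟨h, hpos, hcurve⟩ := hD
  have hcont : Continuous (fun x : Pl => (x : OnePoint Pl)) := OnePoint.continuous_coe
  have hinj : Function.Injective (fun x : Pl => (x : OnePoint Pl)) := OnePoint.coe_injective
  have hreg : ∀ k, IsOpen ((fun x : Pl => (x : OnePoint Pl)) '' kite k) ∧
      closure ((fun x : Pl => (x : OnePoint Pl)) '' kite k) =
        (fun x : Pl => (x : OnePoint Pl)) '' closure (kite k) ∧
      frontier ((fun x : Pl => (x : OnePoint Pl)) '' kite k) =
        (fun x : Pl => (x : OnePoint Pl)) '' frontier (kite k) := fun k =>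
    onePoint_region (kite k) (kite_isOpen k) (by rw [kite_closure]; exact ckite_compact k)
  have hclF : ∀ k, closure (h '' ((fun x : Pl => (x : OnePoint Pl)) '' kite k)) =
      h '' ((fun x : Pl => (x : OnePoint Pl)) '' ckite k) := fun k => by
    rw [← h.image_closure, (hreg k).2.1, kite_closure]
  have hleaf0 : ∀ k, refPos c (Vx.leaf k false) = ((4 * (key k : ℝ) + (-1), 4) : Pl) := fun k => by
    simp [refPos]
  have hleaf1 : ∀ k, refPos c (Vx.leaf k true) = ((4 * (key k : ℝ) + 1, 4) : Pl) := fun k => by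
    simp [refPos]
  have hlegf : ∀ k b, segment ℝ ((0, 0) : Pl) (refPos c (Vx.leaf k b)) ⊆ frontier (kite k) := by
    intro k b
    rw [kite_frontier]
    cases b
    · rw [hleaf0]
      exact fun z hz => Or.inr (Or.inl hz)
    · rw [hleaf1]
      exact fun z hz => Or.inr (Or.inr hz)
  have hfr : ∀ k, frontier (kite k) ⊆ ckite k := fun k => by
    rw [← kite_closure]
    exact frontier_subset_closure
  have hkc : ∀ k, kite k ⊆ ckite k := fun k => by
    rw [← kite_closure]
    exact subset_closure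
  have hadjleg : ∀ k b, (Gr A).Adj Vx.hub (Vx.leaf k b) := fun k b =>
    (Gr_adj_iff A _ _).2 (Or.inl ⟨rfl, k, b, rfl⟩)
  refine ⟨fun k => h '' ((fun x : Pl => (x : OnePoint Pl)) '' kite k), ?_, ?_, ?_, ?_, ?_, ?_, ?_⟩
  · intro k
    exact h.isOpenMap _ (hreg k).1
  · intro k
    exact ((kite_convex k).isPreconnected.image _ hcont.continuousOn).image _
      h.continuous.continuousOn
  · intro k hk
    have hadj : (Gr A).Adj (Vx.leaf k false) (Vx.leaf k true) :=
      (Gr_adj_iff A _ _).2 (Or.inr (Or.inr ⟨k, false, hk, rfl, rfl⟩))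
    show frontier (h '' ((fun x : Pl => (x : OnePoint Pl)) '' kite k)) = _
    rw [← h.image_frontier, (hreg k).2.2, kite_frontier]
    have a1 := hcurve _ _ hadj
    rw [Dr_curve_top, hleaf0, hleaf1] at a1
    have a2 := hcurve _ _ (hadjleg k false)
    rw [Dr_curve_leg, hleaf0] at a2
    have a3 := hcurve _ _ (hadjleg k true)
    rw [Dr_curve_leg, hleaf1] at a3
    simp only [Set.image_union] at a1 ⊢
    rw [← a1, ← a2, ← a3]
  · intro i j
    have h1 := hpos (Vx.y i j)
    show (D.pos (Vx.y i j) : OnePoint Pl) ∈ h '' ((fun x : Pl => (x : OnePoint Pl)) '' kite (c i j))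
    rw [← h1]
    exact ⟨_, ⟨_, y_mem_kite c i j, rfl⟩, rfl⟩
  · intro k k' hkk'
    show closure (h '' ((fun x : Pl => (x : OnePoint Pl)) '' kite k)) ∩
      closure (h '' ((fun x : Pl => (x : OnePoint Pl)) '' kite k')) ⊆ _
    rw [hclF, hclF]
    rintro z ⟨⟨_, ⟨p, hp, rfl⟩, rfl⟩, ⟨_, ⟨p', hp', rfl⟩, e⟩⟩
    have e2 : p' = p := hinj (h.injective e)
    subst e2
    have e3 : p' = (0, 0) := ckite_inter k k' hkk' ⟨hp, hp'⟩
    rw [Set.mem_singleton_iff, ← hpos Vx.hub, e3]
    rfl
  · intro k k' b hkk'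
    show (D.pos (Vx.leaf k' b) : OnePoint Pl) ∉
      closure (h '' ((fun x : Pl => (x : OnePoint Pl)) '' kite k))
    rw [hclF, ← hpos]
    rintro ⟨_, ⟨p, hp, rfl⟩, e⟩
    have e2 : p = refPos c (Vx.leaf k' b) := hinj (h.injective e)
    subst e2
    have h3 : refPos c (Vx.leaf k' b) ∈ ckite k' :=
      hfr k' (hlegf k' b (right_mem_segment ℝ _ _))
    have h4 : refPos c (Vx.leaf k' b) = (0, 0) := ckite_inter k k' hkk' ⟨hp, h3⟩
    have h5 : (refPos c (Vx.leaf k' b)).2 = 4 := rfl
    rw [h4] at h5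
    norm_num at h5
  · intro k k' b x hx
    show (x : OnePoint Pl) ∉ h '' ((fun x : Pl => (x : OnePoint Pl)) '' kite k)
    rintro ⟨_, ⟨p, hp, rfl⟩, e⟩
    have h1 : (x : OnePoint Pl) ∈ h '' ((fun x : Pl => (x : OnePoint Pl)) ''
        (Dr c).curve Vx.hub (Vx.leaf k' b)) := by
      rw [hcurve _ _ (hadjleg k' b)]
      exact ⟨x, hx, rfl⟩
    obtain ⟨_, ⟨q, hq, rfl⟩, e'⟩ := h1
    have e2 : q = p := hinj (h.injective (e'.trans e.symm))
    subst e2
    rw [Dr_curve_leg] at hq
    have hqf := hlegf k' b hq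
    by_cases hkk' : k = k'
    · subst hkk'
      rw [(kite_isOpen k).frontier_eq] at hqf
      exact hqf.2 hp
    · have h4 : q = (0, 0) := ckite_inter k k' hkk' ⟨hkc k hp, hfr k' hqf⟩
      rw [h4] at hp
      exact zero_not_mem_kite k hp


end Pool.OneBend
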