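import Pool.Agent.Helper140.OneBend.LemmaA
import Pool.Agent.Helper140.OneBend.LemmaC
import Pool.Agent.Helper140.OneBend.Order
import Pool.Agent.Helper140.OneBend.Crossing
import Pool.Agent.Helper140.OneBend.Compat
import Pool.Agent.Helper140.OneBend.Transfer

namespace Pool.OneBend

/-! Assembly of the disproof. -/

theorem Cyc_rot {a b c : Pl} (h : Cyc a b c) : Cyc b c a := by
  rcases h with h | h | h
  · exact Or.inr (Or.inr h)
  · exact Or.inl h
  · exact Or.inr (Or.inl h)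

theorem adj_leg (A : Kt → Prop) (k : Kt) (b : Bool) : (Gr A).Adj Vx.hub (Vx.leaf k b) := by
  rw [Gr_adj_iff]; exact Or.inl ⟨rfl, k, b, rfl⟩

theorem adj_top (A : Kt → Prop) (k : Kt) (h : A k) :
    (Gr A).Adj (Vx.leaf k false) (Vx.leaf k true) := by
  rw [Gr_adj_iff]; exact Or.inr (Or.inr ⟨k, false, h, rfl, rfl⟩)

/-- A segment is cut into two by its midpoint. -/
theorem segment_mid (v w : Pl) (h : v ≠ w) :
    segment ℝ v w = segment ℝ v (midpoint ℝ v w) ∪ segment ℝ (midpoint ℝ v w) w ∧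
      segment ℝ v (midpoint ℝ v w) ∩ segment ℝ (midpoint ℝ v w) w ⊆ {midpoint ℝ v w} ∧
      midpoint ℝ v w ≠ v ∧ midpoint ℝ v w ≠ w := by
  have hm : midpoint ℝ v w = v + (1 / 2 : ℝ) • (w - v) := by
    rw [midpoint_eq_smul_add]
    ext <;> simp <;> ring
  have hwv : w - v ≠ 0 := sub_ne_zero.mpr h.symm
  refine ⟨?_, ?_, ?_, ?_⟩
  · ext x
    rw [Set.mem_union, segment_eq_image', segment_eq_image', segment_eq_image', hm]
    constructor
    · rintro ⟨t, ⟨h0, h1⟩, rfl⟩
      rcases le_total t (1 / 2) with ht | ht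
      · left
        refine ⟨2 * t, ⟨by linarith, by linarith⟩, ?_⟩
        ext <;> simp <;> ring
      · right
        refine ⟨2 * t - 1, ⟨by linarith, by linarith⟩, ?_⟩
        ext <;> simp <;> ring
    · rintro (⟨t, ⟨h0, h1⟩, rfl⟩ | ⟨t, ⟨h0, h1⟩, rfl⟩)
      · refine ⟨t / 2, ⟨by linarith, by linarith⟩, ?_⟩
        ext <;> simp <;> ring
      · refine ⟨(1 + t) / 2, ⟨by linarith, by linarith⟩, ?_⟩
        ext <;> simp <;> ring
  · rintro x ⟨hx1, hx2⟩
    rw [segment_eq_image', hm] at hx1 hx2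
    obtain ⟨s, ⟨hs0, hs1⟩, rfl⟩ := hx1
    obtain ⟨t, ⟨ht0, ht1⟩, hst⟩ := hx2
    have e : ((1 + t) / 2 - s / 2 : ℝ) • (w - v) = 0 := by
      have h1 := congrArg Prod.fst hst
      have h2 := congrArg Prod.snd hst
      simp at h1 h2
      ext
      · simp only [Prod.smul_fst, Prod.fst_sub, smul_eq_mul, Prod.fst_zero]
        linear_combination h1
      · simp only [Prod.smul_snd, Prod.snd_sub, smul_eq_mul, Prod.snd_zero]
        linear_combination h2
    rcases smul_eq_zero.mp e with e | e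
    · have : s = 1 := by linarith
      rw [this, Set.mem_singleton_iff, hm]
      ext <;> simp
    · exact absurd e hwv
  · rw [hm]; intro e
    have : (1 / 2 : ℝ) • (w - v) = 0 := by simpa using e
    rcases smul_eq_zero.mp this with e | e
    · norm_num at e
    · exact hwv e
  · rw [hm]; intro e
    have : (1 / 2 : ℝ) • (w - v) = 0 := by
      have h1 := congrArg Prod.fst e
      have h2 := congrArg Prod.snd e
      simp at h1 h2
      ext
      · simp; linarith
      · simp; linarith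
    rcases smul_eq_zero.mp this with e | e
    · norm_num at e
    · exact hwv e

/-- Facts on one finger in a planar drawing. -/
theorem finger_facts (A : Kt → Prop) (D : Drawing Vx) (P : Planar (Gr A) D) (k : Kt) (hk : A k) :
    ∃ z : Pl,
      D.curve (Vx.leaf k false) (Vx.leaf k true) =
        segment ℝ (D.pos (Vx.leaf k false)) z ∪ segment ℝ z (D.pos (Vx.leaf k true)) ∧
      segment ℝ (D.pos (Vx.leaf k false)) z ∩ segment ℝ z (D.pos (Vx.leaf k true)) ⊆ {z} ∧
      z ≠ D.pos (Vx.leaf k false) ∧ z ≠ D.pos (Vx.leaf k true) ∧ z ≠ D.pos Vx.hub := by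
  have hO : D.pos Vx.hub ∉ D.curve (Vx.leaf k false) (Vx.leaf k true) :=
    P.avoid _ _ _ (adj_top A k hk) (by simp) (by simp)
  rcases hb : D.bend s(Vx.leaf k false, Vx.leaf k true) with _ | z
  · have hc : D.curve (Vx.leaf k false) (Vx.leaf k true) =
        segment ℝ (D.pos (Vx.leaf k false)) (D.pos (Vx.leaf k true)) := by
      simp [Drawing.curve, hb]
    have hne : D.pos (Vx.leaf k false) ≠ D.pos (Vx.leaf k true) := by
      intro h; have := P.inj h; simp at this
    obtain ⟨h1, h2, h3, h4⟩ := segment_mid _ _ hne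
    refine ⟨midpoint ℝ (D.pos (Vx.leaf k false)) (D.pos (Vx.leaf k true)), hc.trans h1, h2, h3,
      h4, ?_⟩
    intro h
    rw [hc, h1] at hO
    exact hO (Or.inl (h ▸ right_mem_segment ℝ _ _))
  · have hc : D.curve (Vx.leaf k false) (Vx.leaf k true) =
        segment ℝ (D.pos (Vx.leaf k false)) z ∪ segment ℝ z (D.pos (Vx.leaf k true)) := by
      simp [Drawing.curve, hb]
    obtain ⟨h1, h2, h3⟩ := P.simple _ _ _ (adj_top A k hk) hb
    refine ⟨z, hc, h3.le, h1, h2, ?_⟩
    intro h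
    rw [hc] at hO
    exact hO (Or.inl (h ▸ right_mem_segment ℝ _ _))

theorem leg_curve (D : Drawing Vx) (hl : ∀ k b, D.bend s(Vx.hub, Vx.leaf k b) = none)
    (k : Kt) (b : Bool) :
    D.curve Vx.hub (Vx.leaf k b) = segment ℝ (D.pos Vx.hub) (D.pos (Vx.leaf k b)) := by
  simp [Drawing.curve, hl]

theorem leg_dir (D : Drawing Vx) (hl : ∀ k b, D.bend s(Vx.hub, Vx.leaf k b) = none)
    (k : Kt) (b : Bool) :
    D.dir Vx.hub (Vx.leaf k b) = D.pos (Vx.leaf k b) - D.pos Vx.hub := by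
  simp [Drawing.dir, hl]

/-- Cyclic order of the legs. -/
theorem cyc_of_key (A : Kt → Prop) (c : Fin 4 × Fin 5 → Fin 4 × Fin 21 → Kt) (D : Drawing Vx)
    (hl : ∀ k b, D.bend s(Vx.hub, Vx.leaf k b) = none)
    (R : SameRotation (Gr A) (Dr c) D) (ka kb kc : Kt) (h1 : key kb < key ka)
    (h2 : key kc < key kb) :
    Cyc (D.pos (Vx.leaf ka false) - D.pos Vx.hub) (D.pos (Vx.leaf kb false) - D.pos Vx.hub)
      (D.pos (Vx.leaf kc false) - D.pos Vx.hub) := by
  have h := R Vx.hub (Vx.leaf ka false) (Vx.leaf kb false) (Vx.leaf kc false)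
    (adj_leg A _ _) (adj_leg A _ _) (adj_leg A _ _)
  rw [leg_dir D hl, leg_dir D hl, leg_dir D hl, Dr_dir_leg, Dr_dir_leg, Dr_dir_leg] at h
  rw [← h]
  have h1' : (key kb : ℝ) < key ka := by exact_mod_cast h1
  have h2' : (key kc : ℝ) < key kb := by exact_mod_cast h2
  left
  simp only [refPos, cr]
  constructor <;> norm_num <;> linarith

/-- Disjointness of legs and tops, and of tops. -/
theorem leg_top_disj (A : Kt → Prop) (D : Drawing Vx) (P : Planar (Gr A) D)
    (hl : ∀ k b, D.bend s(Vx.hub, Vx.leaf k b) = none) (k k' : Kt) (b : Bool) (hk : A k)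
    (hne : k' ≠ k) :
    Disjoint (segment ℝ (D.pos Vx.hub) (D.pos (Vx.leaf k' b)))
      (D.curve (Vx.leaf k false) (Vx.leaf k true)) := by
  rw [← leg_curve D hl, Set.disjoint_iff]
  intro x hx
  have h := P.disj Vx.hub (Vx.leaf k' b) (Vx.leaf k false) (Vx.leaf k true) (adj_leg A _ _)
    (adj_top A k hk) (by
      intro h
      rw [Sym2.eq_iff] at h
      rcases h with ⟨h, _⟩ | ⟨h, _⟩ <;> cases h) hx
  obtain ⟨u, ⟨hu1, hu2⟩, _⟩ := h
  simp only [Set.mem_insert_iff, Set.mem_singleton_iff] at hu1 hu2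
  rcases hu1 with rfl | rfl
  · rcases hu2 with h | h <;> cases h
  · rcases hu2 with h | h <;> (injection h with h1 h2; exact hne h1)

theorem leg_top_same (A : Kt → Prop) (D : Drawing Vx) (P : Planar (Gr A) D)
    (hl : ∀ k b, D.bend s(Vx.hub, Vx.leaf k b) = none) (k : Kt) (b : Bool) (hk : A k) :
    segment ℝ (D.pos Vx.hub) (D.pos (Vx.leaf k b)) ∩
      D.curve (Vx.leaf k false) (Vx.leaf k true) ⊆ {D.pos (Vx.leaf k b)} := by
  rw [← leg_curve D hl]
  intro x hx
  have h := P.disj Vx.hub (Vx.leaf k b) (Vx.leaf k false) (Vx.leaf k true) (adj_leg A _ _)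
    (adj_top A k hk) (by
      intro h
      rw [Sym2.eq_iff] at h
      rcases h with ⟨h, _⟩ | ⟨h, _⟩ <;> cases h) hx
  obtain ⟨u, ⟨hu1, hu2⟩, rfl⟩ := h
  simp only [Set.mem_insert_iff, Set.mem_singleton_iff] at hu1 hu2
  rcases hu1 with rfl | rfl
  · rcases hu2 with h | h <;> cases h
  · rfl

theorem top_top_disj (A : Kt → Prop) (D : Drawing Vx) (P : Planar (Gr A) D) (k k' : Kt)
    (hk : A k) (hk' : A k') (hne : k ≠ k') :
    Disjoint (D.curve (Vx.leaf k false) (Vx.leaf k true))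
      (D.curve (Vx.leaf k' false) (Vx.leaf k' true)) := by
  rw [Set.disjoint_iff]
  intro x hx
  have h := P.disj (Vx.leaf k false) (Vx.leaf k true) (Vx.leaf k' false) (Vx.leaf k' true)
    (adj_top A k hk) (adj_top A k' hk') (by
      intro h
      rw [Sym2.eq_iff] at h
      rcases h with ⟨h, _⟩ | ⟨h, _⟩ <;> (injection h with h1 h2; exact hne h1)) hx
  obtain ⟨u, ⟨hu1, hu2⟩, _⟩ := h
  simp only [Set.mem_insert_iff, Set.mem_singleton_iff] at hu1 hu2
  rcases hu1 with rfl | rfl <;> rcases hu2 with h | h <;>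
    (injection h with h1 h2; exact hne h1)


/-- The main geometric statement: no admissible drawing exists. -/
theorem no_drawing (D : Drawing Vx) (P1 : Planar (Gr A1) D) (P2 : Planar (Gr A2) D)
    (hs : ∀ u v, (Gr A1).Adj u v → (Gr A2).Adj u v → D.bend s(u, v) = none)
    (R1 : SameRotation (Gr A1) (Dr c1) D) (S1 : SphereEquiv (Gr A1) (Dr c1) D)
    (S2 : SphereEquiv (Gr A2) (Dr c2) D) : False := by
  have hl : ∀ k b, D.bend s(Vx.hub, Vx.leaf k b) = none := fun k b =>
    hs _ _ (adj_leg A1 k b) (adj_leg A2 k b)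
  obtain ⟨F1, F1o, F1c, F1f, F1y, F1cl, F1lf, F1lg⟩ := transfer A1 c1 D S1
  obtain ⟨F2, F2o, F2c, F2f, F2y, F2cl, F2lf, F2lg⟩ := transfer A2 c2 D S2
  have hA1 : ∀ i, A1 (Sum.inl i) := fun i => rfl
  have hA2 : ∀ j, A2 (Sum.inr j) := fun j => rfl
  choose z1 z1c z1s z1v z1w z1O using fun i => finger_facts A1 D P1 (Sum.inl i) (hA1 i)
  choose z2 z2c z2s z2v z2w z2O using fun j => finger_facts A2 D P2 (Sum.inr j) (hA2 j)
  classical
  -- selection
  let φ : Fin 4 × Fin 5 → Option (Fin 4 × Fin 21) := fun i =>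
    if h : ∃ j, (z1 i : OnePoint Pl) ∈ closure (F2 (Sum.inr j)) then some h.choose else none
  let ψ : Fin 4 × Fin 21 → Option (Fin 4 × Fin 5) := fun j =>
    if h : ∃ i, (z2 j : OnePoint Pl) ∈ closure (F1 (Sum.inl i)) then some h.choose else none
  have hφ : ∀ i j, φ i ≠ some j → (z1 i : OnePoint Pl) ∉ closure (F2 (Sum.inr j)) := by
    intro i j h1 h2
    have hex : ∃ j, (z1 i : OnePoint Pl) ∈ closure (F2 (Sum.inr j)) := ⟨j, h2⟩
    have e : φ i = some hex.choose := by simp only [φ]; rw [dif_pos hex]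
    by_cases hj : hex.choose = j
    · exact h1 (e.trans (by rw [hj]))
    · have := F2cl (Sum.inr hex.choose) (Sum.inr j) (by simpa using hj) ⟨hex.choose_spec, h2⟩
      rw [Set.mem_singleton_iff] at this
      exact z1O i (OnePoint.coe_injective this)
  have hψ : ∀ i j, ψ j ≠ some i → (z2 j : OnePoint Pl) ∉ closure (F1 (Sum.inl i)) := by
    intro i j h1 h2
    have hex : ∃ i, (z2 j : OnePoint Pl) ∈ closure (F1 (Sum.inl i)) := ⟨i, h2⟩
    have e : ψ j = some hex.choose := by simp only [ψ]; rw [dif_pos hex]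
    by_cases hj : hex.choose = i
    · exact h1 (e.trans (by rw [hj]))
    · have := F1cl (Sum.inl hex.choose) (Sum.inl i) (by simpa using hj) ⟨hex.choose_spec, h2⟩
      rw [Set.mem_singleton_iff] at this
      exact z2O j (OnePoint.coe_injective this)
  obtain ⟨f, g, hfg⟩ := selection φ ψ
  -- notation
  set O := D.pos Vx.hub with hO
  let v1 : Fin 4 → Pl := fun s => D.pos (Vx.leaf (Sum.inl (s, f s)) false)
  let w1 : Fin 4 → Pl := fun s => D.pos (Vx.leaf (Sum.inl (s, f s)) true)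
  let v2 : Fin 4 → Pl := fun t => D.pos (Vx.leaf (Sum.inr (t, g t)) false)
  let w2 : Fin 4 → Pl := fun t => D.pos (Vx.leaf (Sum.inr (t, g t)) true)
  let x1 : Fin 4 → Pl := fun s => z1 (s, f s)
  let x2 : Fin 4 → Pl := fun t => z2 (t, g t)
  -- the sides are parts of the top curves
  have sub1 : ∀ s, segment ℝ (v1 s) (x1 s) ⊆
      D.curve (Vx.leaf (Sum.inl (s, f s)) false) (Vx.leaf (Sum.inl (s, f s)) true) := by
    intro s; rw [z1c]; exact Set.subset_union_left
  have sub2 : ∀ t, segment ℝ (v2 t) (x2 t) ⊆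
      D.curve (Vx.leaf (Sum.inr (t, g t)) false) (Vx.leaf (Sum.inr (t, g t)) true) := by
    intro t; rw [z2c]; exact Set.subset_union_left
  -- crossing points
  have hX : ∀ s t, ∃ X, X ∈ openSegment ℝ (v1 s) (x1 s) ∧ X ∈ openSegment ℝ (v2 t) (x2 t) ∧
      cr (x1 s - v1 s) (x2 t - v2 t) ≠ 0 := by
    intro s t
    have key12 : (Sum.inl (s, f s) : Kt) ≠ Sum.inr (t, g t) := by simp
    refine crossing O (v1 s) (x1 s) (w1 s) (v2 t) (x2 t) (w2 t) (F1 (Sum.inl (s, f s)))
      (F2 (Sum.inr (t, g t))) (F1o _) (F2o _) (F2c _) ?_ ?_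
      (D.pos (Vx.y (s, f s) (t, g t)) : OnePoint Pl) (F1y _ _) (F2y _ _) ?_ ?_ ?_ ?_ ?_ ?_ ?_ ?_
      ?_ ?_ ?_ ?_ ?_ ?_ ?_
    · rw [F1f _ (hA1 _), z1c, leg_curve D hl, leg_curve D hl]
    · rw [F2f _ (hA2 _), z2c, leg_curve D hl, leg_curve D hl]
    · exact F2lf _ _ _ key12.symm
    · exact hφ _ _ (hfg s t).1
    · exact F2lf _ _ _ key12.symm
    · exact F1lf _ _ _ key12
    · exact hψ _ _ (hfg s t).2
    · exact F1lf _ _ _ key12
    · intro x hx; exact F2lg _ _ false x (by rw [leg_curve D hl]; exact hx)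
    · intro x hx; exact F2lg _ _ true x (by rw [leg_curve D hl]; exact hx)
    · rw [Set.disjoint_union_right]
      have h1 := leg_top_disj A1 D P1 hl (Sum.inl (s, f s)) (Sum.inr (t, g t)) false (hA1 _)
        key12.symm
      have h2 := leg_top_disj A1 D P1 hl (Sum.inl (s, f s)) (Sum.inr (t, g t)) true (hA1 _)
        key12.symm
      rw [z1c] at h1 h2
      exact ⟨h1.symm, h2.symm⟩
    · rw [Set.disjoint_union_right]
      have h1 := leg_top_disj A2 D P2 hl (Sum.inr (t, g t)) (Sum.inl (s, f s)) false (hA2 _)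
        key12
      have h2 := leg_top_disj A2 D P2 hl (Sum.inr (t, g t)) (Sum.inl (s, f s)) true (hA2 _)
        key12
      rw [z2c] at h1 h2
      exact ⟨h1.symm, h2.symm⟩
    · exact z1s _
    · have h := leg_top_same A1 D P1 hl (Sum.inl (s, f s)) false (hA1 _)
      exact (Set.inter_subset_inter_right _ (sub1 s)).trans h
    · rw [Set.disjoint_iff]
      intro x hx
      have h := leg_top_same A1 D P1 hl (Sum.inl (s, f s)) false (hA1 _)
      have hxv : x = v1 s := h ⟨hx.1, by rw [z1c]; exact Or.inr hx.2⟩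
      have : v1 s = z1 (s, f s) := z1s (s, f s) ⟨left_mem_segment ℝ _ _, hxv ▸ hx.2⟩
      exact z1v _ this.symm
    · have h := leg_top_same A1 D P1 hl (Sum.inl (s, f s)) true (hA1 _)
      intro x hx
      exact h ⟨hx.1, by rw [z1c]; exact Or.inr hx.2⟩
    · rw [Set.disjoint_iff]
      intro x hx
      have h := leg_top_same A1 D P1 hl (Sum.inl (s, f s)) true (hA1 _)
      have hxw : x = w1 s := h ⟨hx.1, by rw [z1c]; exact Or.inl hx.2⟩
      have : w1 s = z1 (s, f s) := z1s (s, f s) ⟨hxw ▸ hx.2, right_mem_segment ℝ _ _⟩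
      exact z1w _ this.symm
  choose X hX1 hX2 hX3 using hX
  have hα : ∀ s t, ∃ α ∈ Set.Ioo (0:ℝ) 1, v1 s + α • (x1 s - v1 s) = X s t := by
    intro s t
    have h := hX1 s t
    rw [openSegment_eq_image'] at h
    obtain ⟨a, ha, e⟩ := h
    exact ⟨a, ha, e⟩
  have hβ : ∀ s t, ∃ β ∈ Set.Ioo (0:ℝ) 1, v2 t + β • (x2 t - v2 t) = X s t := by
    intro s t
    have h := hX2 s t
    rw [openSegment_eq_image'] at h
    obtain ⟨a, ha, e⟩ := h
    exact ⟨a, ha, e⟩
  choose α hα0 hαX using hα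
  choose β hβ0 hβX using hβ
  -- disjointness
  have dis1 : ∀ s s', s ≠ s' →
      Disjoint (segment ℝ (v1 s) (x1 s)) (segment ℝ (v1 s') (x1 s')) := by
    intro s s' h
    exact (top_top_disj A1 D P1 (Sum.inl (s, f s)) (Sum.inl (s', f s')) (hA1 _) (hA1 _)
      (by intro e; exact h (congrArg Prod.fst (Sum.inl_injective e)))).mono (sub1 s) (sub1 s')
  have dis2 : ∀ t t', t ≠ t' →
      Disjoint (segment ℝ (v2 t) (x2 t)) (segment ℝ (v2 t') (x2 t')) := by
    intro t t' h
    exact (top_top_disj A2 D P2 (Sum.inr (t, g t)) (Sum.inr (t', g t')) (hA2 _) (hA2 _)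
      (by intro e; exact h (congrArg Prod.fst (Sum.inr_injective e)))).mono (sub2 t) (sub2 t')
  have leg11 : ∀ s s', s ≠ s' →
      Disjoint (segment ℝ O (v1 s)) (segment ℝ (v1 s') (x1 s')) := by
    intro s s' h
    exact (leg_top_disj A1 D P1 hl (Sum.inl (s', f s')) (Sum.inl (s, f s)) false (hA1 _)
      (by intro e; exact h (congrArg Prod.fst (Sum.inl_injective e)))).mono_right (sub1 s')
  have leg12 : ∀ s t, Disjoint (segment ℝ O (v1 s)) (segment ℝ (v2 t) (x2 t)) := by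
    intro s t
    exact (leg_top_disj A2 D P2 hl (Sum.inr (t, g t)) (Sum.inl (s, f s)) false (hA2 _)
      (by simp)).mono_right (sub2 t)
  have leg21 : ∀ t s, Disjoint (segment ℝ O (v2 t)) (segment ℝ (v1 s) (x1 s)) := by
    intro t s
    exact (leg_top_disj A1 D P1 hl (Sum.inl (s, f s)) (Sum.inr (t, g t)) false (hA1 _)
      (by simp)).mono_right (sub1 s)
  have leg22 : ∀ t t', t ≠ t' →
      Disjoint (segment ℝ O (v2 t)) (segment ℝ (v2 t') (x2 t')) := by
    intro t t' h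
    exact (leg_top_disj A2 D P2 hl (Sum.inr (t', g t')) (Sum.inr (t, g t)) false (hA2 _)
      (by intro e; exact h (congrArg Prod.fst (Sum.inr_injective e)))).mono_right (sub2 t')
  have inj : ∀ s, Function.Injective (α s) := by
    intro s t t' h
    by_contra hne
    have e : X s t = X s t' := by rw [← hαX s t, ← hαX s t', h]
    exact Set.disjoint_left.mp (dis2 t t' hne) (openSegment_subset_segment ℝ _ _ (hX2 s t))
      (e ▸ openSegment_subset_segment ℝ _ _ (hX2 s t'))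
  have add_sub : ∀ a b : Pl, a + (b - a) = b := fun a b => by abel
  -- instance of lemma A
  have lemA : ∀ s s' t t', s ≠ s' → t ≠ t' →
      Cyc (v1 s - O) (v2 t - O) (v1 s' - O) → Cyc (v2 t - O) (v1 s' - O) (v2 t' - O) →
      Cyc (v1 s' - O) (v2 t' - O) (v1 s - O) → Cyc (v2 t' - O) (v1 s - O) (v2 t - O) →
      ¬ (α s t < α s t' ∧ α s' t < α s' t') := by
    intro s s' t t' hss htt k1 k2 k3 k4
    refine lemmaA O (v1 s) (v2 t) (v1 s') (v2 t') (x1 s - v1 s) (x2 t - v2 t) (x1 s' - v1 s')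
      (x2 t' - v2 t') (α s t) (α s t') (α s' t) (α s' t') (β s t) (β s t') (β s' t) (β s' t')
      k1 k2 k3 k4 ?_ ?_ ?_ ?_ ?_ ?_ ?_ ?_ ?_ ?_ ?_ ?_ ?_ ?_ (hα0 _ _) (hα0 _ _) (hα0 _ _)
      (hα0 _ _) (hβ0 _ _) (hβ0 _ _) (hβ0 _ _) (hβ0 _ _) ?_ ?_ ?_ ?_ (hX3 _ _) (hX3 _ _)
      (hX3 _ _) (hX3 _ _)
    · rw [add_sub, add_sub]; exact dis1 _ _ hss
    · rw [add_sub, add_sub]; exact dis2 _ _ htt
    · rw [add_sub]; exact leg11 _ _ hss
    · rw [add_sub]; exact leg12 _ _
    · rw [add_sub]; exact leg12 _ _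
    · rw [add_sub]; exact leg11 _ _ hss.symm
    · rw [add_sub]; exact leg12 _ _
    · rw [add_sub]; exact leg12 _ _
    · rw [add_sub]; exact leg22 _ _ htt
    · rw [add_sub]; exact leg21 _ _
    · rw [add_sub]; exact leg21 _ _
    · rw [add_sub]; exact leg22 _ _ htt.symm
    · rw [add_sub]; exact leg21 _ _
    · rw [add_sub]; exact leg21 _ _
    · rw [hαX, hβX]
    · rw [hαX, hβX]
    · rw [hαX, hβX]
    · rw [hαX, hβX]
  -- keys
  have kUP : ∀ s t : Fin 4, s ≤ t →
      key (Sum.inl (s, f s)) < key (Sum.inr (t, g t)) := fun s t h => (key_lt_iff _ _).2 h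
  have kPU : ∀ s t : Fin 4, t < s →
      key (Sum.inr (t, g t)) < key (Sum.inl (s, f s)) := by
    intro s t h
    rcases lt_trichotomy (key (Sum.inr (t, g t))) (key (Sum.inl (s, f s))) with h1 | h1 | h1
    · exact h1
    · exact absurd (key_inj h1) (by simp)
    · exact absurd ((key_lt_iff _ _).1 h1) (not_le.2 h)
  have kUU : ∀ s s' : Fin 4, s < s' →
      key (Sum.inl (s, f s)) < key (Sum.inl (s', f s')) := fun s s' h => key_lt_left _ _ h
  have kPP : ∀ t t' : Fin 4, t < t' →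
      key (Sum.inr (t, g t)) < key (Sum.inr (t', g t')) := fun t t' h => key_lt_right _ _ h
  have cyc := cyc_of_key A1 c1 D hl R1
  have H : ∀ s s' t t' : Fin 4, s < s' → t ≠ t' →
      ((s ≤ t ∧ t < s') ↔ ¬ (s ≤ t' ∧ t' < s')) → ¬ (α s t < α s t' ∧ α s' t < α s' t') := by
    intro s s' t t' hss htt halt
    by_cases hin : s ≤ t ∧ t < s'
    · have hout : ¬ (s ≤ t' ∧ t' < s') := halt.1 hin
      have hout' : t' < s ∨ s' ≤ t' := by
        by_contra hc
        push Not at hc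
        exact hout hc
      intro hh
      refine lemA s' s t t' hss.ne' htt ?_ ?_ ?_ ?_ ⟨hh.2, hh.1⟩
      · exact cyc _ _ _ (kPU _ _ hin.2) (kUP _ _ hin.1)
      · rcases hout' with h | h
        · exact cyc _ _ _ (kUP _ _ hin.1) (kPU _ _ h)
        · exact Cyc_rot (cyc _ _ _ (kPP _ _ (lt_of_lt_of_le hin.2 h)) (kUP _ _ hin.1))
      · rcases hout' with h | h
        · exact Cyc_rot (cyc _ _ _ (kUU _ _ hss) (kPU _ _ h))
        · exact Cyc_rot (Cyc_rot (cyc _ _ _ (kUP _ _ h) (kUU _ _ hss)))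
      · rcases hout' with h | h
        · exact Cyc_rot (Cyc_rot (cyc _ _ _ (kPU _ _ hin.2) (kPP _ _ (lt_of_lt_of_le h hin.1))))
        · exact cyc _ _ _ (kUP _ _ h) (kPU _ _ hin.2)
    · have hin' : s ≤ t' ∧ t' < s' := by
        by_contra hc
        exact hin (halt.2 hc)
      have hout' : t < s ∨ s' ≤ t := by
        by_contra hc
        push Not at hc
        exact hin hc
      refine lemA s s' t t' hss.ne htt ?_ ?_ ?_ ?_
      · rcases hout' with h | h
        · exact Cyc_rot (cyc _ _ _ (kUU _ _ hss) (kPU _ _ h))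
        · exact Cyc_rot (Cyc_rot (cyc _ _ _ (kUP _ _ h) (kUU _ _ hss)))
      · rcases hout' with h | h
        · exact Cyc_rot (Cyc_rot (cyc _ _ _ (kPU _ _ hin'.2) (kPP _ _ (lt_of_lt_of_le h hin'.1))))
        · exact cyc _ _ _ (kUP _ _ h) (kPU _ _ hin'.2)
      · exact cyc _ _ _ (kPU _ _ hin'.2) (kUP _ _ hin'.1)
      · rcases hout' with h | h
        · exact cyc _ _ _ (kUP _ _ hin'.1) (kPU _ _ h)
        · exact Cyc_rot (cyc _ _ _ (kPP _ _ (lt_of_lt_of_le hin'.2 h)) (kUP _ _ hin'.1))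
  obtain ⟨π, hπ, o1, o2, o3, o4, o5, o6, o7⟩ := order_comb α inj H
  refine lemmaC (v1 0) (x1 0 - v1 0) (v1 2) (x1 2 - v1 2) (fun x => α 0 (π x))
    (fun x => α 2 (π x)) (fun x => Set.Ioo_subset_Icc_self (hα0 _ _))
    (fun x => Set.Ioo_subset_Icc_self (hα0 _ _)) ?_ ?_ o1 o2 o3 o4 o5 o6 o7
  · rw [add_sub, add_sub]; exact dis1 0 2 (by decide)
  · intro a b hab
    simp only [hαX]
    have hne : π a ≠ π b := fun h => hab (hπ h)
    refine (dis2 _ _ hne).mono ?_ ?_
    · exact (convex_segment _ _).segment_subset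
        (openSegment_subset_segment ℝ _ _ (hX2 _ _)) (openSegment_subset_segment ℝ _ _ (hX2 _ _))
    · exact (convex_segment _ _).segment_subset
        (openSegment_subset_segment ℝ _ _ (hX2 _ _)) (openSegment_subset_segment ℝ _ _ (hX2 _ _))

end Pool.OneBend
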