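import Pool.Agent.Helper140.OneBend.Defs

namespace Pool.OneBend


theorem ov_param (p q X Y : Pl) (hXY : X ≠ Y) (hX : X ∈ segment ℝ p q)
    (hY : Y ∈ segment ℝ p q) : ∃ a b : ℝ, AffineMap.lineMap X Y a = p ∧
      AffineMap.lineMap X Y b = q ∧ 0 ∈ Set.uIcc a b := by
  rw [segment_eq_image_lineMap] at hX hY
  obtain ⟨t, ⟨ht0, ht1⟩, rfl⟩ := hX
  obtain ⟨t', ⟨ht0', ht1'⟩, rfl⟩ := hY
  have hne : t' - t ≠ 0 := by
    intro h
    apply hXY
    rw [sub_eq_zero.1 h]
  refine ⟨-t / (t' - t), (1 - t) / (t' - t), ?_, ?_, ?_⟩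
  · ext
    · simp [AffineMap.lineMap_apply]
      field_simp
      ring
    · simp [AffineMap.lineMap_apply]
      field_simp
      ring
  · ext
    · simp [AffineMap.lineMap_apply]
      field_simp
      ring
    · simp [AffineMap.lineMap_apply]
      field_simp
      ring
  · rw [Set.mem_uIcc]
    rcases lt_or_gt_of_ne hne with h | h
    · right
      exact ⟨div_nonpos_of_nonneg_of_nonpos (by linarith) h.le,
        div_nonneg_of_nonpos (by linarith) h.le⟩
    · left
      exact ⟨div_nonpos_of_nonpos_of_nonneg (by linarith) h.le,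
        div_nonneg (by linarith) h.le⟩

/-- Two segments with two common points: an end point of one lies in the other. -/
theorem overlap (p q r s X Y : Pl) (hXY : X ≠ Y) (hX : X ∈ segment ℝ p q) (hY : Y ∈ segment ℝ p q)
    (hX' : X ∈ segment ℝ r s) (hY' : Y ∈ segment ℝ r s) :
    p ∈ segment ℝ r s ∨ q ∈ segment ℝ r s ∨ r ∈ segment ℝ p q ∨ s ∈ segment ℝ p q := by
  obtain ⟨a, b, ha, hb, hab⟩ := ov_param p q X Y hXY hX hY
  obtain ⟨c, e, hc, he, hce⟩ := ov_param r s X Y hXY hX' hY'
  have h1 : segment ℝ p q = (AffineMap.lineMap X Y : ℝ →ᵃ[ℝ] Pl) '' Set.uIcc a b := by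
    rw [← segment_eq_uIcc, image_segment, ha, hb]
  have h2 : segment ℝ r s = (AffineMap.lineMap X Y : ℝ →ᵃ[ℝ] Pl) '' Set.uIcc c e := by
    rw [← segment_eq_uIcc, image_segment, hc, he]
  have key : a ∈ Set.uIcc c e ∨ b ∈ Set.uIcc c e ∨ c ∈ Set.uIcc a b ∨ e ∈ Set.uIcc a b := by
    rw [Set.mem_uIcc] at hab hce
    simp only [Set.mem_uIcc]
    rcases hab with ⟨h3, h4⟩ | ⟨h3, h4⟩ <;> rcases hce with ⟨h5, h6⟩ | ⟨h5, h6⟩
    · rcases le_total a c with h | h
      · right; right; left; left; exact ⟨h, by linarith⟩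
      · left; left; exact ⟨h, by linarith⟩
    · rcases le_total a e with h | h
      · right; right; right; left; exact ⟨h, by linarith⟩
      · left; right; exact ⟨h, by linarith⟩
    · rcases le_total b c with h | h
      · right; right; left; right; exact ⟨h, by linarith⟩
      · right; left; left; exact ⟨h, by linarith⟩
    · rcases le_total b e with h | h
      · right; right; right; right; exact ⟨h, by linarith⟩
      · right; left; right; exact ⟨h, by linarith⟩
  rw [h1, h2]
  rcases key with h | h | h | h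
  · left; exact ⟨a, h, ha⟩
  · right; left; exact ⟨b, h, hb⟩
  · right; right; left; exact ⟨c, h, hc⟩
  · right; right; right; exact ⟨e, h, he⟩

theorem ov_smul (u v : Pl) (hu : u ≠ 0) (h : cr u v = 0) : ∃ k : ℝ, v = k • u := by
  unfold cr at h
  by_cases h1 : u.1 = 0
  · have h2 : u.2 ≠ 0 := fun h2 => hu (Prod.ext h1 h2)
    refine ⟨v.2 / u.2, Prod.ext ?_ ?_⟩
    · have h3 : u.2 * v.1 = 0 := by rw [h1] at h; linarith
      have h4 : v.1 = 0 := (mul_eq_zero.1 h3).resolve_left h2
      simp [h1, h4]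
    · simp [h2]
  · refine ⟨v.1 / u.1, Prod.ext ?_ ?_⟩
    · simp [h1]
    · simp only [Prod.smul_snd, smul_eq_mul]
      field_simp
      linarith

/-- If no end point of one segment lies in the other, a common point is a transversal crossing
point interior to both segments. -/
theorem cross_interior (p q r s X : Pl) (hX : X ∈ segment ℝ p q) (hX' : X ∈ segment ℝ r s)
    (h1 : p ∉ segment ℝ r s) (h2 : q ∉ segment ℝ r s) (h3 : r ∉ segment ℝ p q)
    (h4 : s ∉ segment ℝ p q) :
    X ∈ openSegment ℝ p q ∧ X ∈ openSegment ℝ r s ∧ cr (q - p) (s - r) ≠ 0 := by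
  have n1 : p ≠ X := by rintro rfl; exact h1 hX'
  have n2 : q ≠ X := by rintro rfl; exact h2 hX'
  have n3 : r ≠ X := by rintro rfl; exact h3 hX
  have n4 : s ≠ X := by rintro rfl; exact h4 hX
  have o1 : X ∈ openSegment ℝ p q := mem_openSegment_of_ne_left_right n1 n2 hX
  have o2 : X ∈ openSegment ℝ r s := mem_openSegment_of_ne_left_right n3 n4 hX'
  refine ⟨o1, o2, fun hcr => ?_⟩
  have hpq : q - p ≠ 0 := by
    intro h
    have : q = p := sub_eq_zero.1 h
    subst this
    rw [segment_same] at hX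
    exact n1 hX.symm
  have hrs : s - r ≠ 0 := by
    intro h
    have : s = r := sub_eq_zero.1 h
    subst this
    rw [segment_same] at hX'
    exact n3 hX'.symm
  obtain ⟨k, hk⟩ := ov_smul (q - p) (s - r) hpq hcr
  have hk0 : k ≠ 0 := by
    rintro rfl
    rw [zero_smul] at hk
    exact hrs hk
  rw [openSegment_eq_image_lineMap] at o1 o2
  obtain ⟨t, ⟨ht0, ht1⟩, ht⟩ := o1
  obtain ⟨u, ⟨hu0, hu1⟩, hu⟩ := o2
  have hkp : 0 < |k| := abs_pos.2 hk0
  obtain ⟨ε, hε, hε1, hε2, hε3⟩ : ∃ ε : ℝ, 0 < ε ∧ ε ≤ 1 - t ∧ ε ≤ |k| * u ∧ ε ≤ |k| * (1 - u) := by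
    refine ⟨min (1 - t) (min (|k| * u) (|k| * (1 - u))), ?_, min_le_left _ _,
      (min_le_right _ _).trans (min_le_left _ _), (min_le_right _ _).trans (min_le_right _ _)⟩
    refine lt_min (by linarith) (lt_min (by positivity) (mul_pos hkp (by linarith)))
  have hYX : X ≠ X + ε • (q - p) := by
    intro h
    have h5 : ε • (q - p) = 0 := by
      have := congrArg (fun Z => Z - X) h
      simpa using this.symm
    rcases smul_eq_zero.1 h5 with h6 | h6
    · exact hε.ne' h6
    · exact hpq h6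
  have hY : X + ε • (q - p) ∈ segment ℝ p q := by
    rw [segment_eq_image_lineMap]
    refine ⟨t + ε, ⟨by linarith, by linarith⟩, ?_⟩
    rw [← ht, AffineMap.lineMap_apply, AffineMap.lineMap_apply]
    simp only [vsub_eq_sub, vadd_eq_add, add_smul]
    abel
  have hab : |ε / k| ≤ u ∧ |ε / k| ≤ 1 - u := by
    rw [abs_div, abs_of_pos hε, div_le_iff₀ hkp, div_le_iff₀ hkp]
    constructor <;> linarith
  have hY' : X + ε • (q - p) ∈ segment ℝ r s := by
    rw [segment_eq_image_lineMap]
    refine ⟨u + ε / k, ⟨?_, ?_⟩, ?_⟩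
    · have := neg_abs_le (ε / k); linarith [hab.1]
    · have := le_abs_self (ε / k); linarith [hab.2]
    · rw [← hu, AffineMap.lineMap_apply, AffineMap.lineMap_apply]
      simp only [vsub_eq_sub, vadd_eq_add]
      rw [add_smul]
      have : (ε / k) • (s - r) = ε • (q - p) := by
        rw [hk, smul_smul, div_mul_cancel₀ _ hk0]
      rw [this]
      abel
  rcases overlap p q r s X (X + ε • (q - p)) hYX hX hY hX' hY' with h | h | h | h
  · exact h1 h
  · exact h2 h
  · exact h3 h
  · exact h4 h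


end Pool.OneBend
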