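import Pool.Agent.Helper140.OneBend.EdgeLocal

namespace Pool.OneBend


theorem ht_cont (w : Pl) : Continuous (ht w) := by
  unfold ht
  fun_prop

theorem boolA : ∀ κ1 κ2 κ3 κ4 A0 A1 A2 A3 : Bool,
    xor (xor (xor κ1 (xor A0 A1)) (xor κ2 (xor A1 A2))) (xor (xor κ3 (xor A2 A3))
      (xor κ4 (xor A3 A0))) = xor (xor κ1 κ2) (xor κ3 κ4) := by
  intro κ1 κ2 κ3 κ4 A0 A1 A2 A3
  cases κ1 <;> cases κ2 <;> cases κ3 <;> cases κ4 <;> cases A0 <;> cases A1 <;> cases A2 <;>
        cases A3 <;> rfl

theorem boolB : ∀ κ1 κ3 κ4 A0 A3 A : Bool,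
    xor (xor (xor κ1 (xor A0 false)) A) (xor (xor κ3 (xor false A3))
      (xor κ4 (xor A3 A0))) = xor (xor κ1 (xor κ3 κ4)) A := by
  intro κ1 κ3 κ4 A0 A3 A
  cases κ1 <;> cases κ3 <;> cases κ4 <;> cases A0 <;> cases A3 <;> cases A <;> rfl

/-- TARGET: prove this one. -/
theorem exists_parity (q0 q1 q2 q3 X d : Pl) (hX : X ∈ openSegment ℝ q1 q2)
    (h01 : X ∉ segment ℝ q0 q1) (h23 : X ∉ segment ℝ q2 q3) (h30 : X ∉ segment ℝ q3 q0)
    (hd : cr (q2 - q1) d ≠ 0) :
    ∃ χ : Pl → Bool,
      (∀ x, x ∉ segment ℝ q0 q1 → x ∉ segment ℝ q1 q2 → x ∉ segment ℝ q2 q3 →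
        x ∉ segment ℝ q3 q0 → ∀ᶠ y in nhds x, χ y = χ x) ∧
      (∃ ε > 0, ∀ t : ℝ, 0 < t → t < ε → χ (X + t • d) ≠ χ (X - t • d)) := by
  set w : Pl := q2 - q1 with hw
  refine ⟨fun y => xor (xor (ind w q0 q1 y) (ind w q1 q2 y)) (xor (ind w q2 q3 y) (ind w q3 q0 y)),
    ?_, ?_⟩
  · intro x h1 h2 h3 h4
    obtain ⟨κ1, e1⟩ := edge_local w q0 q1 x h1
    obtain ⟨κ2, e2⟩ := edge_local w q1 q2 x h2
    obtain ⟨κ3, e3⟩ := edge_local w q2 q3 x h3
    obtain ⟨κ4, e4⟩ := edge_local w q3 q0 x h4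
    have key : ∀ᶠ y in nhds x, xor (xor (ind w q0 q1 y) (ind w q1 q2 y))
        (xor (ind w q2 q3 y) (ind w q3 q0 y)) = xor (xor κ1 κ2) (xor κ3 κ4) := by
      filter_upwards [e1, e2, e3, e4] with y e1 e2 e3 e4
      rw [e1, e2, e3, e4]
      generalize (lam w x q0 && upp w q0 y) = A0
      generalize (lam w x q1 && upp w q1 y) = A1
      generalize (lam w x q2 && upp w q2 y) = A2
      generalize (lam w x q3 && upp w q3 y) = A3
      exact boolA κ1 κ2 κ3 κ4 A0 A1 A2 A3
    have hx := key.self_of_nhds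
    filter_upwards [key] with y hy
    show xor (xor (ind w q0 q1 y) (ind w q1 q2 y)) (xor (ind w q2 q3 y) (ind w q3 q0 y)) =
      xor (xor (ind w q0 q1 x) (ind w q1 q2 x)) (xor (ind w q2 q3 x) (ind w q3 q0 x))
    rw [hy, hx]
  · obtain ⟨a, b, ha, hb, hab, hX'⟩ := hX
    have hne : q1 ≠ q2 := by
      rintro rfl
      apply h01
      have : X = q1 := by
        rw [← hX', ← add_smul, hab, one_smul]
      rw [this]
      exact right_mem_segment ℝ q0 q1
    have hw0 : 0 < w.1 ^ 2 + w.2 ^ 2 := by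
      have : w.1 ≠ 0 ∨ w.2 ≠ 0 := by
        by_contra h
        push Not at h
        apply hne
        have h1 : q2.1 - q1.1 = 0 := h.1
        have h2 : q2.2 - q1.2 = 0 := h.2
        exact Prod.ext (by linarith) (by linarith)
      rcases this with h | h
      · have := sq_pos_of_ne_zero h
        have := sq_nonneg w.2
        linarith
      · have := sq_pos_of_ne_zero h
        have := sq_nonneg w.1
        linarith
    have hw1 : w.1 = q2.1 - q1.1 := rfl
    have hw2 : w.2 = q2.2 - q1.2 := rfl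
    have hX1 : X.1 = a * q1.1 + b * q2.1 := by rw [← hX']; rfl
    have hX2 : X.2 = a * q1.2 + b * q2.2 := by rw [← hX']; rfl
    have haa : a = 1 - b := by linarith
    have hlo : ht w q1 < ht w X := by
      have : ht w X - ht w q1 = b * (w.1 ^ 2 + w.2 ^ 2) := by
        unfold ht
        rw [hX1, hX2, hw1, hw2, haa]; ring
      have := mul_pos hb hw0
      linarith
    have hhi : ht w X < ht w q2 := by
      have : ht w q2 - ht w X = a * (w.1 ^ 2 + w.2 ^ 2) := by
        unfold ht
        rw [hX1, hX2, hw1, hw2]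
        have : b = 1 - a := by linarith
        rw [this]; ring
      have := mul_pos ha hw0
      linarith
    have hl1 : lam w X q1 = false := by
      unfold lam
      rw [decide_eq_false_iff_not]
      rintro ⟨h, -⟩
      linarith
    have hl2 : lam w X q2 = false := by
      unfold lam
      rw [decide_eq_false_iff_not]
      rintro ⟨h, -⟩
      linarith
    obtain ⟨κ1, e1⟩ := edge_local w q0 q1 X h01
    obtain ⟨κ3, e3⟩ := edge_local w q2 q3 X h23
    obtain ⟨κ4, e4⟩ := edge_local w q3 q0 X h30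
    have hind : ∀ᶠ y in nhds X, (ind w q1 q2 y = true ↔ 0 < cr w (y - q1)) := by
      have c1 : ∀ᶠ y in nhds X, ht w q1 < ht w y := (ht_cont w).continuousAt.eventually_const_lt hlo
      have c2 : ∀ᶠ y in nhds X, ht w y < ht w q2 := (ht_cont w).continuousAt.eventually_lt_const hhi
      filter_upwards [c1, c2] with y c1 c2
      unfold ind
      rw [decide_eq_true_iff]
      constructor
      · rintro (⟨-, -, h⟩ | ⟨h, -, -⟩)
        · exact h
        · linarith
      · intro h
        exact Or.inl ⟨c1.le, c2, h⟩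
    have key : ∀ᶠ y in nhds X, (xor (xor (ind w q0 q1 y) (ind w q1 q2 y))
        (xor (ind w q2 q3 y) (ind w q3 q0 y)) = xor (xor κ1 (xor κ3 κ4)) (ind w q1 q2 y)) ∧
        (ind w q1 q2 y = true ↔ 0 < cr w (y - q1)) := by
      filter_upwards [e1, e3, e4, hind] with y e1 e3 e4 e5
      refine ⟨?_, e5⟩
      rw [e1, e3, e4, hl1, hl2, Bool.false_and, Bool.false_and]
      generalize (lam w X q0 && upp w q0 y) = A0
      generalize (lam w X q3 && upp w q3 y) = A3
      generalize ind w q1 q2 y = A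
      exact boolB κ1 κ3 κ4 A0 A3 A
    have hcont : Continuous fun t : ℝ => X + t • d := by fun_prop
    have h0 : Filter.Tendsto (fun t : ℝ => X + t • d) (nhds 0) (nhds X) := by
      have := hcont.tendsto 0
      simpa using this
    obtain ⟨ε, hε, hεt⟩ := Metric.eventually_nhds_iff.mp (h0.eventually key)
    refine ⟨ε, hε, ?_⟩
    intro t ht0 htε
    have hp := hεt (y := t) (by rw [Real.dist_eq, sub_zero, abs_of_pos ht0]; exact htε)
    have hm := hεt (y := -t) (by rw [Real.dist_eq, sub_zero, abs_neg, abs_of_pos ht0]; exact htε)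
    have hcr : ∀ s : ℝ, cr w (X + s • d - q1) = s * cr w d := by
      intro s
      have e1 : (X + s • d - q1).1 = X.1 + s * d.1 - q1.1 := rfl
      have e2 : (X + s • d - q1).2 = X.2 + s * d.2 - q1.2 := rfl
      unfold cr
      rw [e1, e2, hX1, hX2, hw1, hw2, haa]
      ring
    have hmm : X - t • d = X + (-t) • d := by rw [neg_smul, sub_eq_add_neg]
    show xor (xor (ind w q0 q1 (X + t • d)) (ind w q1 q2 (X + t • d)))
        (xor (ind w q2 q3 (X + t • d)) (ind w q3 q0 (X + t • d))) ≠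
      xor (xor (ind w q0 q1 (X - t • d)) (ind w q1 q2 (X - t • d)))
        (xor (ind w q2 q3 (X - t • d)) (ind w q3 q0 (X - t • d)))
    rw [hmm, hp.1, hm.1]
    have ip := hp.2
    have im := hm.2
    rw [hcr] at ip im
    have hne2 : ind w q1 q2 (X + t • d) ≠ ind w q1 q2 (X + (-t) • d) := by
      rcases lt_or_gt_of_ne hd with h | h
      · have p1 : ¬ (0 < t * cr w d) := by nlinarith
        have m1 : 0 < -t * cr w d := by nlinarith
        have a1 : ind w q1 q2 (X + (-t) • d) = true := im.mpr m1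
        have a2 : ind w q1 q2 (X + t • d) ≠ true := fun h => p1 (ip.mp h)
        rw [a1]; exact a2
      · have p1 : 0 < t * cr w d := mul_pos ht0 h
        have m1 : ¬ (0 < -t * cr w d) := by nlinarith
        have a1 : ind w q1 q2 (X + t • d) = true := ip.mpr p1
        have a2 : ind w q1 q2 (X + (-t) • d) ≠ true := fun h => m1 (im.mp h)
        rw [a1]; exact fun h => a2 h.symm
    intro h
    apply hne2
    generalize ind w q1 q2 (X + t • d) = A at *
    generalize ind w q1 q2 (X + (-t) • d) = B at *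
    generalize xor κ1 (xor κ3 κ4) = c at *
    revert h
    cases A <;> cases B <;> cases c <;> simp


end Pool.OneBend
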