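import Pool.Agent.Helper140.OneBend.Kite

namespace Pool.OneBend


/-! AUXILIARY statements proved by another job; leave their sorry. -/

/-! TARGETS: the reference drawing is planar. -/

theorem Gr_adj_iff (A : Kt → Prop) (u v : Vx) : (Gr A).Adj u v ↔
    (u = Vx.hub ∧ ∃ k b, v = Vx.leaf k b) ∨ (v = Vx.hub ∧ ∃ k b, u = Vx.leaf k b) ∨
    (∃ k b, A k ∧ u = Vx.leaf k b ∧ v = Vx.leaf k (!b)) := by
  unfold Gr
  rw [SimpleGraph.fromRel_adj]
  constructor
  · rintro ⟨-, (⟨h1, h2⟩ | ⟨k, h1, h2, h3⟩) | (⟨h1, h2⟩ | ⟨k, h1, h2, h3⟩)⟩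
    · exact Or.inl ⟨h1, h2⟩
    · exact Or.inr (Or.inr ⟨k, false, h1, h2, h3⟩)
    · exact Or.inr (Or.inl ⟨h1, h2⟩)
    · exact Or.inr (Or.inr ⟨k, true, h1, h3, h2⟩)
  · rintro (⟨rfl, k, b, rfl⟩ | ⟨rfl, k, b, rfl⟩ | ⟨k, b, h1, rfl, rfl⟩)
    · exact ⟨by simp, Or.inl (Or.inl ⟨rfl, k, b, rfl⟩)⟩
    · exact ⟨by simp, Or.inr (Or.inl ⟨rfl, k, b, rfl⟩)⟩
    · cases b
      · exact ⟨by simp, Or.inl (Or.inr ⟨k, h1, rfl, rfl⟩)⟩
      · exact ⟨by simp, Or.inr (Or.inr ⟨k, h1, rfl, rfl⟩)⟩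

theorem Dr_bend_leg (c : Fin 4 × Fin 5 → Fin 4 × Fin 21 → Kt) (k : Kt) (b : Bool) :
    (Dr c).bend s(Vx.hub, Vx.leaf k b) = none := by
  unfold Dr
  simp only
  rw [dif_neg]
  rintro ⟨k', h⟩
  rw [Sym2.eq_iff] at h
  simp at h

theorem Dr_bend_top (c : Fin 4 × Fin 5 → Fin 4 × Fin 21 → Kt) (k : Kt) :
    (Dr c).bend s(Vx.leaf k false, Vx.leaf k true) = some ((key k : ℝ) * HH, HH) := by
  unfold Dr
  simp only
  have h : ∃ k', s(Vx.leaf k false, Vx.leaf k true) = s(Vx.leaf k' false, Vx.leaf k' true) :=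
    ⟨k, rfl⟩
  rw [dif_pos h]
  have h2 := h.choose_spec
  rw [Sym2.eq_iff] at h2
  have h3 : k = h.choose := by
    rcases h2 with ⟨h2, -⟩ | ⟨h2, -⟩
    · exact (Vx.leaf.inj h2).1
    · exact (Vx.leaf.inj h2).1
  rw [← h3]

theorem Dr_curve_leg (c : Fin 4 × Fin 5 → Fin 4 × Fin 21 → Kt) (k : Kt) (b : Bool) :
    (Dr c).curve Vx.hub (Vx.leaf k b) = segment ℝ (0, 0) (refPos c (Vx.leaf k b)) := by
  simp only [Drawing.curve, Dr_bend_leg]
  rfl

theorem Dr_curve_top (c : Fin 4 × Fin 5 → Fin 4 × Fin 21 → Kt) (k : Kt) :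
    (Dr c).curve (Vx.leaf k false) (Vx.leaf k true) =
      segment ℝ (refPos c (Vx.leaf k false)) ((key k : ℝ) * HH, HH) ∪
        segment ℝ ((key k : ℝ) * HH, HH) (refPos c (Vx.leaf k true)) := by
  simp only [Drawing.curve, Dr_bend_top]
  rfl

theorem Dr_dir_leg (c : Fin 4 × Fin 5 → Fin 4 × Fin 21 → Kt) (k : Kt) (b : Bool) :
    (Dr c).dir Vx.hub (Vx.leaf k b) = refPos c (Vx.leaf k b) := by
  simp only [Drawing.dir, Dr_bend_leg]
  show refPos c (Vx.leaf k b) - refPos c Vx.hub = _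
  have : refPos c Vx.hub = (0 : Pl) := rfl
  rw [this, sub_zero]

theorem curve_symm {V : Type} (D : Drawing V) (u v : V) : D.curve u v = D.curve v u := by
  unfold Drawing.curve
  rw [Sym2.eq_swap (a := u) (b := v)]
  cases D.bend s(v, u) with
  | none => exact segment_symm ℝ _ _
  | some z =>
    show segment ℝ (D.pos u) z ∪ segment ℝ z (D.pos v) = segment ℝ (D.pos v) z ∪ segment ℝ z (D.pos u)
    rw [Set.union_comm, segment_symm ℝ z (D.pos v), segment_symm ℝ (D.pos u) z]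

/-- sign -/
noncomputable def Dr_sg (b : Bool) : ℝ := if b then 1 else -1

theorem Dr_sg_cases (b : Bool) : Dr_sg b = 1 ∨ Dr_sg b = -1 := by
  cases b <;> simp [Dr_sg]

theorem Dr_pos_leaf (c : Fin 4 × Fin 5 → Fin 4 × Fin 21 → Kt) (k : Kt) (b : Bool) :
    refPos c (Vx.leaf k b) = (4 * (key k : ℝ) + Dr_sg b, 4) := rfl

theorem Dr_leg_spec (K σ : ℝ) (p : Pl) (hp : p ∈ segment ℝ ((0, 0) : Pl) (4 * K + σ, 4)) :
    0 ≤ p.2 ∧ p.2 ≤ 4 ∧ p.1 - K * p.2 = σ * (p.2 / 4) := by
  obtain ⟨s, t, hs, ht, hst, rfl⟩ := hp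
  simp only [Prod.smul_mk, smul_eq_mul, mul_zero, Prod.mk_add_mk, zero_add]
  refine ⟨by positivity, by linarith, by ring⟩

theorem Dr_top_spec (K σ : ℝ) (p : Pl) (hp : p ∈ segment ℝ ((4 * K + σ, 4) : Pl) (K * HH, HH)) :
    4 ≤ p.2 ∧ p.2 ≤ 1685 ∧ p.1 - K * p.2 = σ * ((1685 - p.2) / 1681) := by
  obtain ⟨s, t, hs, ht, hst, rfl⟩ := hp
  have hs' : s = 1 - t := by linarith
  subst hs'
  simp only [Prod.smul_mk, smul_eq_mul, Prod.mk_add_mk, HH]
  refine ⟨by linarith, by linarith, by ring⟩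

theorem Dr_leg_ckite (k : Kt) (b : Bool) (p : Pl)
    (hp : p ∈ segment ℝ ((0, 0) : Pl) (4 * (key k : ℝ) + Dr_sg b, 4)) : p ∈ ckite k := by
  obtain ⟨h1, h2, h3⟩ := Dr_leg_spec _ _ _ hp
  show |p.1 - (key k : ℝ) * p.2| ≤ p.2 / 4 ∧ |p.1 - (key k : ℝ) * p.2| ≤ (HH - p.2) / (HH - 4)
  have h4 : (HH - p.2) / (HH - 4) = (1685 - p.2) / 1681 := by unfold HH; norm_num
  rw [h3, h4, abs_le, abs_le]
  rcases Dr_sg_cases b with h | h <;> rw [h] <;> refine ⟨⟨?_, ?_⟩, ?_, ?_⟩ <;> linarith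

theorem Dr_top_ckite (k : Kt) (b : Bool) (p : Pl)
    (hp : p ∈ segment ℝ ((4 * (key k : ℝ) + Dr_sg b, 4) : Pl) ((key k : ℝ) * HH, HH)) :
    p ∈ ckite k ∧ p ∉ kite k ∧ 4 ≤ p.2 := by
  obtain ⟨h1, h2, h3⟩ := Dr_top_spec _ _ _ hp
  have h4 : (HH - p.2) / (HH - 4) = (1685 - p.2) / 1681 := by unfold HH; norm_num
  refine ⟨?_, ?_, h1⟩
  · show |p.1 - (key k : ℝ) * p.2| ≤ p.2 / 4 ∧ |p.1 - (key k : ℝ) * p.2| ≤ (HH - p.2) / (HH - 4)
    rw [h3, h4, abs_le, abs_le]
    rcases Dr_sg_cases b with h | h <;> rw [h] <;> refine ⟨⟨?_, ?_⟩, ?_, ?_⟩ <;> linarith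
  · rintro ⟨-, h5⟩
    rw [h3, h4, abs_lt] at h5
    rcases Dr_sg_cases b with h | h <;> rw [h] at h5 <;> linarith [h5.1, h5.2]

theorem Dr_kite_ckite (k : Kt) {p : Pl} (hp : p ∈ kite k) : p ∈ ckite k := ⟨hp.1.le, hp.2.le⟩

/-- the two kinds of edges -/
theorem Dr_edge (A : Kt → Prop) (c : Fin 4 × Fin 5 → Fin 4 × Fin 21 → Kt) (u v : Vx)
    (h : (Gr A).Adj u v) :
    (∃ k b, s(u, v) = s(Vx.hub, Vx.leaf k b) ∧ ({u, v} : Set Vx) = {Vx.hub, Vx.leaf k b} ∧
      (Dr c).curve u v = segment ℝ ((0, 0) : Pl) (4 * (key k : ℝ) + Dr_sg b, 4)) ∨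
    (∃ k, s(u, v) = s(Vx.leaf k false, Vx.leaf k true) ∧
      ({u, v} : Set Vx) = {Vx.leaf k false, Vx.leaf k true} ∧
      (Dr c).curve u v =
        segment ℝ ((4 * (key k : ℝ) + Dr_sg false, 4) : Pl) ((key k : ℝ) * HH, HH) ∪
        segment ℝ ((4 * (key k : ℝ) + Dr_sg true, 4) : Pl) ((key k : ℝ) * HH, HH)) := by
  have htop : ∀ k, (Dr c).curve (Vx.leaf k false) (Vx.leaf k true) =
        segment ℝ ((4 * (key k : ℝ) + Dr_sg false, 4) : Pl) ((key k : ℝ) * HH, HH) ∪
        segment ℝ ((4 * (key k : ℝ) + Dr_sg true, 4) : Pl) ((key k : ℝ) * HH, HH) := by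
    intro k
    rw [Dr_curve_top, Dr_pos_leaf, Dr_pos_leaf, segment_symm ℝ ((key k : ℝ) * HH, HH)]
  rw [Gr_adj_iff] at h
  rcases h with ⟨rfl, k, b, rfl⟩ | ⟨rfl, k, b, rfl⟩ | ⟨k, b, h1, rfl, rfl⟩
  · exact Or.inl ⟨k, b, rfl, rfl, Dr_curve_leg c k b⟩
  · refine Or.inl ⟨k, b, Sym2.eq_swap, Set.pair_comm _ _, ?_⟩
    rw [curve_symm]
    exact Dr_curve_leg c k b
  · cases b
    · exact Or.inr ⟨k, rfl, rfl, htop k⟩
    · refine Or.inr ⟨k, Sym2.eq_swap, Set.pair_comm _ _, ?_⟩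
      rw [curve_symm]
      exact htop k

theorem Dr_leaf_ne (k k' : Kt) (b b' : Bool)
    (h : (4 * (key k : ℝ) + Dr_sg b) = (4 * (key k' : ℝ) + Dr_sg b')) : k = k' ∧ b = b' := by
  have key1 : ∀ m n : ℕ, (4 * (m : ℝ) + 1) ≠ 4 * (n : ℝ) + (-1) := by
    intro m n hmn
    have : 4 * m + 2 = 4 * n := by
      have : (4 * (m : ℝ) + 2) = 4 * (n : ℝ) := by linarith
      exact_mod_cast this
    omega
  cases b <;> cases b' <;> simp only [Dr_sg] at h
  · refine ⟨key_inj ?_, rfl⟩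
    have : (key k : ℝ) = key k' := by simpa using h
    exact_mod_cast this
  · exact absurd (by simpa using h.symm) (key1 (key k') (key k))
  · exact absurd (by simpa using h) (key1 (key k) (key k'))
  · refine ⟨key_inj ?_, rfl⟩
    have : (key k : ℝ) = key k' := by simpa using h
    exact_mod_cast this

theorem Dr_pos_y (c : Fin 4 × Fin 5 → Fin 4 × Fin 21 → Kt) (i : Fin 4 × Fin 5)
    (j : Fin 4 × Fin 21) : (5 : ℝ) ≤ (refPos c (Vx.y i j)).2 := by
  show (5 : ℝ) ≤ (hgt i j : ℝ)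
  exact_mod_cast (hgt_bounds i j).1

theorem Dr_leaf_ckite (c : Fin 4 × Fin 5 → Fin 4 × Fin 21 → Kt) (k : Kt) (b : Bool) :
    refPos c (Vx.leaf k b) ∈ ckite k :=
  Dr_leg_ckite k b _ (right_mem_segment ℝ _ _)

theorem Dr_planar (A : Kt → Prop) (c : Fin 4 × Fin 5 → Fin 4 × Fin 21 → Kt) :
    Planar (Gr A) (Dr c) := by
  refine ⟨?_, ?_, ?_, ?_⟩
  · -- injectivity
    intro u v huv
    have h1 : refPos c u = refPos c v := huv
    have h2 : (refPos c u).2 = (refPos c v).2 := by rw [h1]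
    cases u with
    | hub =>
      cases v with
      | hub => rfl
      | leaf k b =>
        have : (0 : ℝ) = 4 := h2
        norm_num at this
      | y i j =>
        have h3 := Dr_pos_y c i j
        rw [← h2] at h3
        have : (5 : ℝ) ≤ 0 := h3
        norm_num at this
    | leaf k b =>
      cases v with
      | hub =>
        have : (4 : ℝ) = 0 := h2
        norm_num at this
      | leaf k' b' =>
        have h3 : (refPos c (Vx.leaf k b)).1 = (refPos c (Vx.leaf k' b')).1 := by rw [h1]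
        obtain ⟨rfl, rfl⟩ := Dr_leaf_ne k k' b b' h3
        rfl
      | y i j =>
        have h3 := Dr_pos_y c i j
        rw [← h2] at h3
        have : (5 : ℝ) ≤ 4 := h3
        norm_num at this
    | y i j =>
      cases v with
      | hub =>
        have h3 := Dr_pos_y c i j
        rw [h2] at h3
        have : (5 : ℝ) ≤ 0 := h3
        norm_num at this
      | leaf k b =>
        have h3 := Dr_pos_y c i j
        rw [h2] at h3
        have : (5 : ℝ) ≤ 4 := h3
        norm_num at this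
      | y i' j' =>
        have h3 : (hgt i j : ℝ) = (hgt i' j' : ℝ) := h2
        have h4 : hgt i j = hgt i' j' := by exact_mod_cast h3
        obtain ⟨rfl, rfl⟩ := hgt_inj i i' j j' h4
        rfl
  · -- simple
    intro u v z hadj hz
    have main : ∀ k, ∀ σ τ : ℝ, (σ = 1 ∨ σ = -1) → τ = -σ →
        segment ℝ ((4 * (key k : ℝ) + σ, 4) : Pl) ((key k : ℝ) * HH, HH) ∩
        segment ℝ ((key k : ℝ) * HH, HH) ((4 * (key k : ℝ) + τ, 4) : Pl) =
          {((key k : ℝ) * HH, HH)} := by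
      intro k σ τ hσ hτ
      ext p
      simp only [Set.mem_inter_iff, Set.mem_singleton_iff]
      constructor
      · rintro ⟨h1, h2⟩
        rw [segment_symm] at h2
        obtain ⟨a1, a2, a3⟩ := Dr_top_spec _ _ _ h1
        obtain ⟨b1, b2, b3⟩ := Dr_top_spec _ _ _ h2
        have e1 : p.2 = 1685 := by
          rw [a3] at b3
          rcases hσ with h | h
          · rw [hτ, h] at b3; linarith
          · rw [hτ, h] at b3; linarith
        have e2 : p.1 = (key k : ℝ) * 1685 := by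
          rw [e1] at a3
          norm_num at a3
          linarith
        apply Prod.ext
        · rw [e2]; rfl
        · rw [e1]; rfl
      · rintro rfl
        exact ⟨right_mem_segment ℝ _ _, left_mem_segment ℝ _ _⟩
    have hne : ∀ k b, ((key k : ℝ) * HH, HH) ≠ (Dr c).pos (Vx.leaf k b) := by
      intro k b h
      have h2 : HH = 4 := congrArg Prod.snd h
      norm_num [HH] at h2
    rw [Gr_adj_iff] at hadj
    rcases hadj with ⟨rfl, k, b, rfl⟩ | ⟨rfl, k, b, rfl⟩ | ⟨k, b, h1, rfl, rfl⟩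
    · rw [Dr_bend_leg] at hz
      exact absurd hz (by simp)
    · rw [Sym2.eq_swap, Dr_bend_leg] at hz
      exact absurd hz (by simp)
    · cases b
      · have hz' : some ((key k : ℝ) * HH, HH) = some z := by rw [← hz]; exact (Dr_bend_top c k).symm
        rw [Option.some.injEq] at hz'
        subst hz'
        exact ⟨hne k _, hne k _, main k (-1) 1 (Or.inr rfl) (by norm_num)⟩
      · have hz' : some ((key k : ℝ) * HH, HH) = some z := by
          rw [← hz, Sym2.eq_swap]; exact (Dr_bend_top c k).symm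
        rw [Option.some.injEq] at hz'
        subst hz'
        exact ⟨hne k _, hne k _, main k 1 (-1) (Or.inl rfl) rfl⟩
  · -- avoid
    intro u v w hadj hwu hwv hmem
    have hw : w ∉ ({u, v} : Set Vx) := by
      simp only [Set.mem_insert_iff, Set.mem_singleton_iff, not_or]
      exact ⟨hwu, hwv⟩
    rcases Dr_edge A c u v hadj with ⟨k, b, -, hset, hcurve⟩ | ⟨k, -, hset, hcurve⟩
    · rw [hset] at hw
      rw [hcurve] at hmem
      simp only [Set.mem_insert_iff, Set.mem_singleton_iff, not_or] at hw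
      obtain ⟨h1, h2, h3⟩ := Dr_leg_spec _ _ _ hmem
      cases w with
      | hub => exact hw.1 rfl
      | leaf k' b' =>
        by_cases hk : k' = k
        · subst hk
          have h4 : (4 * (key k' : ℝ) + Dr_sg b') - (key k' : ℝ) * 4 = Dr_sg b * (4 / 4) := h3
          have h5 : Dr_sg b' = Dr_sg b := by linarith
          have h6 := Dr_leaf_ne k' k' b' b (by rw [h5])
          exact hw.2 (by rw [h6.2])
        · have h4 := ckite_inter k' k hk ⟨Dr_leaf_ckite c k' b', Dr_leg_ckite k b _ hmem⟩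
          have h5 : (4 : ℝ) = 0 := congrArg Prod.snd h4
          norm_num at h5
      | y i j =>
        have h4 : (5 : ℝ) ≤ ((Dr c).pos (Vx.y i j)).2 := Dr_pos_y c i j
        linarith
    · rw [hset] at hw
      rw [hcurve] at hmem
      simp only [Set.mem_insert_iff, Set.mem_singleton_iff, not_or] at hw
      have hspec : (Dr c).pos w ∈ ckite k ∧ (Dr c).pos w ∉ kite k ∧ 4 ≤ ((Dr c).pos w).2 := by
        rcases hmem with h | h
        · exact Dr_top_ckite k _ _ h
        · exact Dr_top_ckite k _ _ h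
      obtain ⟨h1, h2, h3⟩ := hspec
      cases w with
      | hub =>
        have : (4 : ℝ) ≤ 0 := h3
        norm_num at this
      | leaf k' b' =>
        by_cases hk : k' = k
        · subst hk
          cases b'
          · exact hw.1 rfl
          · exact hw.2 rfl
        · have h4 := ckite_inter k' k hk ⟨Dr_leaf_ckite c k' b', h1⟩
          have h5 : (4 : ℝ) = 0 := congrArg Prod.snd h4
          norm_num at h5
      | y i j =>
        have hy := y_mem_kite c i j
        by_cases hk : c i j = k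
        · rw [hk] at hy
          exact h2 hy
        · have h4 := ckite_inter (c i j) k hk ⟨Dr_kite_ckite _ hy, h1⟩
          have h5 : (refPos c (Vx.y i j)).2 = 0 := congrArg Prod.snd h4
          have h6 := Dr_pos_y c i j
          linarith
  · -- disjointness
    intro u v u' v' hadj hadj' hne p hp
    have hleg : ∀ (k k' : Kt) (b : Bool) (q : Pl),
        q ∈ segment ℝ ((0, 0) : Pl) (4 * (key k : ℝ) + Dr_sg b, 4) →
        q ∈ (segment ℝ ((4 * (key k' : ℝ) + Dr_sg false, 4) : Pl) ((key k' : ℝ) * HH, HH) ∪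
          segment ℝ ((4 * (key k' : ℝ) + Dr_sg true, 4) : Pl) ((key k' : ℝ) * HH, HH)) →
        k = k' ∧ refPos c (Vx.leaf k b) = q := by
      intro k k' b q h1 h2
      obtain ⟨a1, a2, a3⟩ := Dr_leg_spec _ _ _ h1
      have hspec : q ∈ ckite k' ∧ q ∉ kite k' ∧ 4 ≤ q.2 := by
        rcases h2 with h | h
        · exact Dr_top_ckite k' _ _ h
        · exact Dr_top_ckite k' _ _ h
      have hk : k = k' := by
        by_contra hk
        have h4 := ckite_inter k k' hk ⟨Dr_leg_ckite k b _ h1, hspec.1⟩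
        have h5 : q.2 = 0 := congrArg Prod.snd h4
        linarith [hspec.2.2]
      refine ⟨hk, ?_⟩
      have e1 : q.2 = 4 := le_antisymm a2 hspec.2.2
      rw [e1] at a3
      apply Prod.ext
      · show 4 * (key k : ℝ) + Dr_sg b = q.1
        linarith
      · exact e1.symm
    rcases Dr_edge A c u v hadj with ⟨k, b, hs, hset, hcurve⟩ | ⟨k, hs, hset, hcurve⟩ <;>
      rcases Dr_edge A c u' v' hadj' with ⟨k', b', hs', hset', hcurve'⟩ | ⟨k', hs', hset', hcurve'⟩
    · rw [hcurve, hcurve'] at hp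
      rw [hset, hset']
      refine ⟨Vx.hub, ⟨by simp, by simp⟩, ?_⟩
      show ((0, 0) : Pl) = p
      obtain ⟨a1, a2, a3⟩ := Dr_leg_spec _ _ _ hp.1
      obtain ⟨b1, b2, b3⟩ := Dr_leg_spec _ _ _ hp.2
      by_cases hk : k = k'
      · subst hk
        have hb : b ≠ b' := by
          rintro rfl
          exact hne (by rw [hs, hs'])
        have e1 : p.2 = 0 := by
          rw [a3] at b3
          cases b <;> cases b' <;> simp [Dr_sg] at b3 hb <;> linarith
        rw [e1] at a3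
        apply Prod.ext
        · show (0 : ℝ) = p.1
          linarith
        · exact e1.symm
      · exact (ckite_inter k k' hk ⟨Dr_leg_ckite k b _ hp.1, Dr_leg_ckite k' b' _ hp.2⟩).symm
    · rw [hcurve, hcurve'] at hp
      rw [hset, hset']
      obtain ⟨rfl, h2⟩ := hleg k k' b p hp.1 hp.2
      refine ⟨Vx.leaf k b, ⟨by simp, ?_⟩, h2⟩
      cases b <;> simp
    · rw [hcurve, hcurve'] at hp
      rw [hset, hset']
      obtain ⟨rfl, h2⟩ := hleg k' k b' p hp.2 hp.1
      refine ⟨Vx.leaf k' b', ⟨?_, by simp⟩, h2⟩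
      cases b' <;> simp
    · rw [hcurve, hcurve'] at hp
      exfalso
      have hk : k ≠ k' := by
        rintro rfl
        exact hne (by rw [hs, hs'])
      have hspec : p ∈ ckite k ∧ p ∉ kite k ∧ 4 ≤ p.2 := by
        rcases hp.1 with h | h
        · exact Dr_top_ckite k _ _ h
        · exact Dr_top_ckite k _ _ h
      have hspec' : p ∈ ckite k' ∧ p ∉ kite k' ∧ 4 ≤ p.2 := by
        rcases hp.2 with h | h
        · exact Dr_top_ckite k' _ _ h
        · exact Dr_top_ckite k' _ _ h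
      have h4 := ckite_inter k k' hk ⟨hspec.1, hspec'.1⟩
      have h5 : p.2 = 0 := congrArg Prod.snd h4
      linarith [hspec.2.2]


end Pool.OneBend
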