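import Pool.Agent.Helper140.OneBend.Defs

/-! The reference drawings. -/

namespace Pool.OneBend

/-- Indices of the fingers of `G₁` (`Sum.inl`) and of `G₂` (`Sum.inr`). -/
abbrev Kt := (Fin 4 × Fin 5) ⊕ (Fin 4 × Fin 21)

/-- The position of a finger in the linear order: blocks of 5 fingers of `G₁` and of 21 fingers of
`G₂` alternate. -/
def key : Kt → ℕ
  | Sum.inl i => 26 * i.1 + i.2
  | Sum.inr j => 26 * j.1 + 5 + j.2

/-- The height of the isolated vertex `y i j`. -/
def hgt (i : Fin 4 × Fin 5) (j : Fin 4 × Fin 21) : ℕ :=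
  5 + (84 * (5 * (i.1 : ℕ) + i.2) + (21 * (j.1 : ℕ) + j.2))

/-- The vertices: a hub, two leaves for each finger, and the isolated vertices `y i j`. -/
inductive Vx
  | hub : Vx
  | leaf : Kt → Bool → Vx
  | y : Fin 4 × Fin 5 → Fin 4 × Fin 21 → Vx
  deriving DecidableEq, Fintype

/-- The graph with hub joined to all leaves, and the two leaves of every finger in `A` joined. -/
def Gr (A : Kt → Prop) : SimpleGraph Vx :=
  SimpleGraph.fromRel (fun a b => (a = Vx.hub ∧ ∃ k c, b = Vx.leaf k c) ∨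
    (∃ k, A k ∧ a = Vx.leaf k false ∧ b = Vx.leaf k true))

/-- The height of the tip of the fingers. -/
def HH : ℝ := 1685

/-- The positions in the reference drawing where `y i j` lies in the finger `c i j`. -/
noncomputable def refPos (c : Fin 4 × Fin 5 → Fin 4 × Fin 21 → Kt) : Vx → Pl
  | Vx.hub => (0, 0)
  | Vx.leaf k b => (4 * (key k : ℝ) + (if b then 1 else -1), 4)
  | Vx.y i j => ((key (c i j) : ℝ) * (hgt i j : ℝ), (hgt i j : ℝ))

open Classical in
/-- The reference drawing: the edge joining the two leaves of finger `k` has its bend at the tip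
`(key k * HH, HH)`; the legs are straight. -/
noncomputable def Dr (c : Fin 4 × Fin 5 → Fin 4 × Fin 21 → Kt) : Drawing Vx where
  pos := refPos c
  bend := fun e => if h : ∃ k, e = s(Vx.leaf k false, Vx.leaf k true) then
    some ((key h.choose : ℝ) * HH, HH) else none

/-- The fingers of `G₁`. -/
def A1 : Kt → Prop := fun k => k.isLeft
/-- The fingers of `G₂`. -/
def A2 : Kt → Prop := fun k => k.isRight
def c1 (i : Fin 4 × Fin 5) (_ : Fin 4 × Fin 21) : Kt := Sum.inl i
def c2 (_ : Fin 4 × Fin 5) (j : Fin 4 × Fin 21) : Kt := Sum.inr j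

/-- The open kite of finger `k`. -/
def kite (k : Kt) : Set Pl :=
  {p | |p.1 - (key k : ℝ) * p.2| < p.2 / 4 ∧ |p.1 - (key k : ℝ) * p.2| < (HH - p.2) / (HH - 4)}

/-- The closed kite of finger `k`. -/
def ckite (k : Kt) : Set Pl :=
  {p | |p.1 - (key k : ℝ) * p.2| ≤ p.2 / 4 ∧ |p.1 - (key k : ℝ) * p.2| ≤ (HH - p.2) / (HH - 4)}

end Pool.OneBend
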