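import Pool.Agent.Helper140.OneBend.Overlap

namespace Pool.OneBend


theorem meets (F : Set (OnePoint Pl)) (hF : IsOpen F) (u x : Pl)
    (hxF : (x : OnePoint Pl) ∈ F) (hu : (u : OnePoint Pl) ∉ closure F) :
    ∃ P ∈ segment ℝ u x, (P : OnePoint Pl) ∈ frontier F := by
  have hpre : IsPreconnected ((fun x : Pl => (x : OnePoint Pl)) '' segment ℝ u x) :=
    (convex_segment u x).isPreconnected.image _ OnePoint.continuous_coe.continuousOn
  by_contra hno
  push Not at hno
  have hsub : ((fun x : Pl => (x : OnePoint Pl)) '' segment ℝ u x) ⊆ F ∪ (closure F)ᶜ := by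
    rintro _ ⟨y, hy, rfl⟩
    by_cases hyF : ((y : OnePoint Pl)) ∈ F
    · exact Or.inl hyF
    · right
      intro hyc
      exact hno y hy ⟨hyc, by rw [hF.interior_eq]; exact hyF⟩
  obtain ⟨y, -, hy1, hy2⟩ := hpre F (closure F)ᶜ hF isClosed_closure.isOpen_compl hsub
    ⟨_, ⟨x, right_mem_segment ℝ u x, rfl⟩, hxF⟩ ⟨_, ⟨u, left_mem_segment ℝ u x, rfl⟩, hu⟩
  exact hy2 (subset_closure hy1)

theorem seg_inter (v z x P : Pl) (hvz : v ≠ z) (hx : x ∈ segment ℝ v z) (h1 : P ∈ segment ℝ v x)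
    (h2 : P ∈ segment ℝ z x) : P = x := by
  rw [segment_eq_image_lineMap] at hx h1 h2
  obtain ⟨t, ⟨ht0, ht1⟩, rfl⟩ := hx
  obtain ⟨s, ⟨hs0, hs1⟩, hs⟩ := h1
  obtain ⟨r, ⟨hr0, hr1⟩, hr⟩ := h2
  have h3 : AffineMap.lineMap v (AffineMap.lineMap v z t) s = AffineMap.lineMap v z (s * t) := by
    simp only [AffineMap.lineMap_apply, vsub_eq_sub, vadd_eq_add]
    module
  have h4 : AffineMap.lineMap z (AffineMap.lineMap v z t) r =
      AffineMap.lineMap v z (1 - r * (1 - t)) := by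
    simp only [AffineMap.lineMap_apply, vsub_eq_sub, vadd_eq_add]
    module
  rw [h3] at hs
  rw [h4] at hr
  have h5 : s * t = 1 - r * (1 - t) :=
    (AffineMap.lineMap_injective ℝ hvz) (hs.trans hr.symm)
  have h6 : s * t = t := by
    nlinarith [mul_nonneg (sub_nonneg.2 hs1) ht0, mul_nonneg (sub_nonneg.2 hr1) (sub_nonneg.2 ht1)]
  rw [← hs, h6]

/-- TARGET. A segment `[v,z]` with end points outside the region `F` but meeting `F` crosses both
segments `[v',z']` and `[z',w']` of the boundary (it does not meet the rest `R` of the boundary,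
and it shares no two points with either). -/
theorem two_hits (F : Set (OnePoint Pl)) (hF : IsOpen F) (v z v' z' w' : Pl) (R : Set Pl)
    (frF : frontier F = (fun x : Pl => (x : OnePoint Pl)) ''
      (segment ℝ v' z' ∪ segment ℝ z' w' ∪ R))
    (hR : Disjoint (segment ℝ v z) R)
    (x : Pl) (hx : x ∈ segment ℝ v z) (hxF : (x : OnePoint Pl) ∈ F)
    (hv : (v : OnePoint Pl) ∉ closure F) (hz : (z : OnePoint Pl) ∉ closure F)
    (e1 : v' ∉ segment ℝ v z) (e2 : z' ∉ segment ℝ v z) (e3 : w' ∉ segment ℝ v z) :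
    (∃ X, X ∈ segment ℝ v z ∧ X ∈ segment ℝ v' z') ∧
      (∃ X, X ∈ segment ℝ v z ∧ X ∈ segment ℝ z' w') := by
  have hvz : v ≠ z := by
    rintro rfl
    rw [segment_same, Set.mem_singleton_iff] at hx
    rw [hx] at hxF
    exact hv (subset_closure hxF)
  have hsub1 : segment ℝ v x ⊆ segment ℝ v z :=
    (convex_segment v z).segment_subset (left_mem_segment ℝ v z) hx
  have hsub2 : segment ℝ z x ⊆ segment ℝ v z :=
    (convex_segment v z).segment_subset (right_mem_segment ℝ v z) hx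
  obtain ⟨P, hP, hPf⟩ := meets F hF v x hxF hv
  obtain ⟨Q, hQ, hQf⟩ := meets F hF z x hxF hz
  have hxf : (x : OnePoint Pl) ∉ frontier F := by
    intro h
    rw [hF.frontier_eq] at h
    exact h.2 hxF
  have hPQ : P ≠ Q := by
    rintro rfl
    have := seg_inter v z x P hvz hx hP hQ
    rw [this] at hPf
    exact hxf hPf
  have hmem : ∀ y : Pl, y ∈ segment ℝ v z → (y : OnePoint Pl) ∈ frontier F →
      y ∈ segment ℝ v' z' ∨ y ∈ segment ℝ z' w' := by
    intro y hy hyf
    rw [frF] at hyf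
    obtain ⟨y', hy', he⟩ := hyf
    have : y' = y := OnePoint.coe_injective he
    subst this
    rcases hy' with (h | h) | h
    · exact Or.inl h
    · exact Or.inr h
    · exact absurd h (Set.disjoint_left.1 hR hy)
  have hfr : ∀ y : Pl, y ∈ segment ℝ v' z' ∨ y ∈ segment ℝ z' w' →
      (y : OnePoint Pl) ∈ closure F := by
    intro y hy
    apply frontier_subset_closure
    rw [frF]
    exact ⟨y, Or.inl hy, rfl⟩
  have hPs := hsub1 hP
  have hQs := hsub2 hQ
  rcases hmem P hPs hPf with h1 | h1 <;> rcases hmem Q hQs hQf with h2 | h2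
  · exfalso
    rcases overlap v z v' z' P Q hPQ hPs hQs h1 h2 with h | h | h | h
    · exact hv (hfr v (Or.inl h))
    · exact hz (hfr z (Or.inl h))
    · exact e1 h
    · exact e2 h
  · exact ⟨⟨P, hPs, h1⟩, ⟨Q, hQs, h2⟩⟩
  · exact ⟨⟨Q, hQs, h2⟩, ⟨P, hPs, h1⟩⟩
  · exfalso
    rcases overlap v z z' w' P Q hPQ hPs hQs h1 h2 with h | h | h | h
    · exact hv (hfr v (Or.inr h))
    · exact hz (hfr z (Or.inr h))
    · exact e2 h
    · exact e3 h


end Pool.OneBend
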